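import Mathlib

-- merged part: Pool.Agent.Work.MP_a1538a_al.Basic
section
/-!
Basic algebra of q-polynomials: residue functionals, remainders of Frobenius powers,
composites of the maps `y ↦ y^q - z y`.
-/

set_option autoImplicit false

namespace Pool.Agent.Work.MP_a1538a_al

open Finset

section Frob

variable {F : Type*} [Field F] [Fintype F] {A : Type*} [CommRing A] [Algebra F A]

variable (F A) in
/-- The `l`-th power of the Frobenius, as an algebra map. -/
noncomputable def frob (l : ℕ) : A →ₐ[F] A := (FiniteField.frobeniusAlgHom F A) ^ l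

lemma frob_apply (l : ℕ) (x : A) : frob F A l x = x ^ (Fintype.card F ^ l) := by
  simp only [frob, AlgHom.coe_pow, FiniteField.coe_frobeniusAlgHom, pow_iterate]

variable (F) in
lemma add_pow_q (l : ℕ) (x y : A) :
    (x + y) ^ (Fintype.card F ^ l) = x ^ (Fintype.card F ^ l) + y ^ (Fintype.card F ^ l) := by
  simp only [← frob_apply, map_add]

variable (F) in
lemma sub_pow_q (l : ℕ) (x y : A) :
    (x - y) ^ (Fintype.card F ^ l) = x ^ (Fintype.card F ^ l) - y ^ (Fintype.card F ^ l) := by
  simp only [← frob_apply, map_sub]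

variable (F) in
lemma smul_pow_q (l : ℕ) (a : F) (x : A) :
    (a • x) ^ (Fintype.card F ^ l) = a • x ^ (Fintype.card F ^ l) := by
  simp only [← frob_apply, map_smul]

variable (F) in
lemma sum_pow_q {ι : Type*} (s : Finset ι) (l : ℕ) (x : ι → A) :
    (∑ i ∈ s, x i) ^ (Fintype.card F ^ l) = ∑ i ∈ s, x i ^ (Fintype.card F ^ l) := by
  simp only [← frob_apply, map_sum]

variable (F) in
lemma add_pow_q1 (x y : A) :
    (x + y) ^ (Fintype.card F) = x ^ (Fintype.card F) + y ^ (Fintype.card F) := by
  simpa using add_pow_q F 1 x y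

variable (F) in
lemma sub_pow_q1 (x y : A) :
    (x - y) ^ (Fintype.card F) = x ^ (Fintype.card F) - y ^ (Fintype.card F) := by
  simpa using sub_pow_q F 1 x y

variable (F) in
lemma smul_pow_q1 (a : F) (x : A) :
    (a • x) ^ (Fintype.card F) = a • x ^ (Fintype.card F) := by
  simpa using smul_pow_q F 1 a x

variable (F) in
lemma sum_pow_q1 {ι : Type*} (s : Finset ι) (x : ι → A) :
    (∑ i ∈ s, x i) ^ (Fintype.card F) = ∑ i ∈ s, x i ^ (Fintype.card F) := by
  simpa using sum_pow_q F s 1 x

variable (F) in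
lemma one_lt_q : 1 < Fintype.card F := Fintype.one_lt_card

end Frob

section Tau

variable {A : Type*} [CommRing A] {B : Type*} [CommRing B]

/-- The residue of `x^s dx / f(x)` for `f = x^(q^j) - ∑ c_l x^(q^l)`. -/
noncomputable def tau (q : ℕ) {j : ℕ} (c : Fin j → A) (s : ℕ) : A :=
  if q ^ j ≤ s then
    ∑ l : Fin j, if _h : s - q ^ j + q ^ (l : ℕ) < s then c l * tau q c (s - q ^ j + q ^ (l : ℕ))
      else 0
  else if s + 1 = q ^ j then 1 else 0
termination_by s

lemma tau_of_lt {q j : ℕ} (c : Fin j → A) {s : ℕ} (h : s + 1 < q ^ j) : tau q c s = 0 := by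
  rw [tau, if_neg (by omega), if_neg (by omega)]

lemma tau_top {q j : ℕ} (c : Fin j → A) {s : ℕ} (h : s + 1 = q ^ j) : tau q c s = 1 := by
  rw [tau, if_neg (by omega), if_pos h]

lemma tau_of_le {q j : ℕ} (hq : 1 < q) (c : Fin j → A) {s : ℕ} (h : q ^ j ≤ s) :
    tau q c s = ∑ l : Fin j, c l * tau q c (s - q ^ j + q ^ (l : ℕ)) := by
  rw [tau, if_pos h]
  refine Finset.sum_congr rfl fun l _ => ?_
  have : q ^ (l : ℕ) < q ^ j := Nat.pow_lt_pow_right hq l.2
  rw [dif_pos (by omega)]

lemma tau_rec {q j : ℕ} (hq : 1 < q) (c : Fin j → A) (s : ℕ) :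
    tau q c (s + q ^ j) = ∑ l : Fin j, c l * tau q c (s + q ^ (l : ℕ)) := by
  rw [tau_of_le hq c (Nat.le_add_left _ _)]
  simp

lemma map_tau {q j : ℕ} (hq : 1 < q) (φ : A →+* B) (c : Fin j → A) (s : ℕ) :
    φ (tau q c s) = tau q (fun l => φ (c l)) s := by
  induction s using Nat.strong_induction_on with
  | _ s ih =>
    by_cases h : q ^ j ≤ s
    · rw [tau_of_le hq _ h, tau_of_le hq _ h, map_sum]
      refine Finset.sum_congr rfl fun l _ => ?_
      have : q ^ (l : ℕ) < q ^ j := Nat.pow_lt_pow_right hq l.2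
      rw [map_mul, ih _ (by omega)]
    · by_cases h' : s + 1 = q ^ j
      · rw [tau_top _ h', tau_top _ h', map_one]
      · rw [tau_of_lt _ (by omega), tau_of_lt _ (by omega), map_zero]

lemma tau_zero {q j : ℕ} (hq : 1 < q) (s : ℕ) :
    tau q (fun _ : Fin j => (0 : A)) s = if s + 1 = q ^ j then 1 else 0 := by
  by_cases h : q ^ j ≤ s
  · rw [tau_of_le hq _ h, if_neg (by omega)]; simp
  · by_cases h' : s + 1 = q ^ j
    · rw [tau_top _ h', if_pos h']
    · rw [tau_of_lt _ (by omega), if_neg h']

/-- Extension by zero of a finite coefficient vector. -/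
def ext0 {j : ℕ} (c : Fin j → A) (l : ℕ) : A := if h : l < j then c ⟨l, h⟩ else 0

@[simp] lemma ext0_coe {j : ℕ} (c : Fin j → A) (l : Fin j) : ext0 c l = c l := by
  simp [ext0]

/-- Coefficients of the remainder of `x^(q^m)` modulo `x^(q^j) - ∑ c_l x^(q^l)`. -/
def rem (q : ℕ) {j : ℕ} (c : Fin j → A) : ℕ → ℕ → A
  | 0, l => if l = 0 then 1 else 0
  | m + 1, l => (if l = 0 then 0 else rem q c m (l - 1) ^ q) + rem q c m (j - 1) ^ q * ext0 c l

lemma map_rem (q : ℕ) {j : ℕ} (φ : A →+* B) (c : Fin j → A) (m l : ℕ) :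
    φ (rem q c m l) = rem q (fun l => φ (c l)) m l := by
  induction m generalizing l with
  | zero => simp [rem, apply_ite φ]
  | succ m ih =>
    simp only [rem, map_add, map_mul, map_pow, ih, apply_ite φ, map_zero]
    congr 2
    simp only [ext0]
    split_ifs <;> simp

lemma rem_of_lt {q : ℕ} (hq : 0 < q) {j : ℕ} (c : Fin j → A) {m : ℕ} (hm : m < j) (l : ℕ) :
    rem q c m l = if l = m then 1 else 0 := by
  induction m generalizing l with
  | zero => simp [rem]
  | succ m ih =>
    simp only [rem, ih (by omega : m < j)]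
    rw [if_neg (by omega : ¬ (j - 1 = m)), zero_pow hq.ne', zero_mul, add_zero]
    by_cases hl : l = 0
    · simp [hl]
    · rw [if_neg hl]
      by_cases h : l = m + 1
      · simp [h]
      · rw [if_neg (by omega), if_neg h, zero_pow hq.ne']

lemma rem_self {q : ℕ} (hq : 0 < q) {j : ℕ} (c : Fin j → A) (l : Fin j) :
    rem q c j l = c l := by
  obtain ⟨i, rfl⟩ : ∃ i, j = i + 1 := ⟨j - 1, by have := l.2; omega⟩
  simp only [rem, rem_of_lt hq c (Nat.lt_succ_self i), ext0_coe]
  have h1 : i + 1 - 1 = i := by omega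
  simp only [h1, if_true, one_pow, one_mul]
  split_ifs with h h2
  · simp
  · have := l.2; omega
  · simp [zero_pow hq.ne']

variable {F : Type*} [Field F] [Fintype F]

lemma pow_eq_sum_rem [Algebra F B] [Algebra A B] {j : ℕ} (c : Fin j → A) (x : B)
    (hx : x ^ (Fintype.card F ^ j) = ∑ l : Fin j, c l • x ^ (Fintype.card F ^ (l : ℕ))) (m : ℕ) :
    x ^ (Fintype.card F ^ m) =
      ∑ l : Fin j, rem (Fintype.card F) c m l • x ^ (Fintype.card F ^ (l : ℕ)) := by
  rcases j with _ | j
  · have h0 : x = 0 := by simpa using hx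
    have : Fintype.card F ^ m ≠ 0 := pow_ne_zero _ Fintype.card_ne_zero
    simp [h0, zero_pow this]
  induction m with
  | zero => simp [rem]
  | succ m ih =>
    rw [pow_succ, pow_mul, ih, sum_pow_q1 F]
    simp only [rem, add_smul, Finset.sum_add_distrib, ext0_coe, smul_pow, ← pow_mul, ← pow_succ]
    rw [Fin.sum_univ_castSucc, Fin.sum_univ_succ]
    simp only [Fin.val_zero, if_true, zero_smul, zero_add, Fin.val_succ, Nat.succ_ne_zero,
      if_false, Nat.add_sub_cancel, Fin.val_castSucc, Fin.val_last, mul_smul, ← Finset.smul_sum]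
    rw [hx]

/-- Coefficients of the composite of the maps `y ↦ y^q - z_k y`, `k < i`. -/
def cco (q : ℕ) (z : ℕ → A) : ℕ → ℕ → A
  | 0, l => if l = 0 then 1 else 0
  | i + 1, l => (if l = 0 then 0 else cco q z i (l - 1) ^ q) - z i * cco q z i l

lemma cco_of_lt {q : ℕ} (hq : 0 < q) (z : ℕ → A) {i l : ℕ} (h : i < l) : cco q z i l = 0 := by
  induction i generalizing l with
  | zero => simp [cco]; omega
  | succ i ih =>
    simp only [cco]
    rw [if_neg (by omega), ih (by omega), ih (by omega), zero_pow hq.ne']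
    simp

lemma cco_self {q : ℕ} (hq : 0 < q) (z : ℕ → A) (i : ℕ) : cco q z i i = 1 := by
  induction i with
  | zero => simp [cco]
  | succ i ih =>
    simp only [cco]
    rw [cco_of_lt hq z (Nat.lt_succ_self i)]
    simp [ih]

lemma map_cco (q : ℕ) (φ : A →+* B) (z : ℕ → A) (i l : ℕ) :
    φ (cco q z i l) = cco q (fun k => φ (z k)) i l := by
  induction i generalizing l with
  | zero => simp [cco, apply_ite φ]
  | succ i ih => simp only [cco, map_sub, map_mul, map_pow, ih, apply_ite φ, map_zero]

/-- The composite of the maps `y ↦ y^q - z_k y`, `k < i`, applied to `x`. -/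
def gco (q : ℕ) [Algebra A B] (z : ℕ → A) : ℕ → B → B
  | 0, x => x
  | i + 1, x => gco q z i x ^ q - z i • gco q z i x

lemma gco_eq_sum [Algebra F B] [Algebra A B] (z : ℕ → A) (i : ℕ) (x : B) :
    gco (Fintype.card F) z i x =
      ∑ l ∈ range (i + 1), cco (Fintype.card F) z i l • x ^ (Fintype.card F ^ l) := by
  have hq : 0 < Fintype.card F := Fintype.card_pos
  induction i with
  | zero => simp [gco, cco]
  | succ i ih =>
    simp only [gco, cco, sub_smul, Finset.sum_sub_distrib]
    rw [ih, sum_pow_q1 F]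
    congr 1
    · rw [Finset.sum_range_succ' _ (i + 1)]
      simp [smul_pow, ← pow_mul, ← pow_succ]
    · rw [Finset.sum_range_succ _ (i + 1), cco_of_lt hq z (Nat.lt_succ_self i)]
      simp [Finset.smul_sum, mul_smul]

lemma pow_eq_of_gco [Algebra F B] [Algebra A B] (z : ℕ → A) (j : ℕ) (x : B)
    (h : gco (Fintype.card F) z j x = 0) :
    x ^ (Fintype.card F ^ j) =
      ∑ l : Fin j, (- cco (Fintype.card F) z j l) • x ^ (Fintype.card F ^ (l : ℕ)) := by
  have hq : 0 < Fintype.card F := Fintype.card_pos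
  rw [gco_eq_sum, Finset.sum_range_succ, cco_self hq, one_smul] at h
  rw [Fin.sum_univ_eq_sum_range (fun l => (- cco (Fintype.card F) z j l) •
    x ^ (Fintype.card F ^ l)) j]
  simp only [neg_smul, Finset.sum_neg_distrib]
  exact eq_neg_of_add_eq_zero_right h

/-- The subspace polynomial of the span of `x_0, ..., x_{i-1}`, evaluated at `y`. -/
def sub0 (q : ℕ) (x : ℕ → A) : ℕ → A → A
  | 0, y => y
  | i + 1, y => sub0 q x i y ^ q - sub0 q x i (x i) ^ (q - 1) * sub0 q x i y

/-- The parameters `z_i` of the subspace polynomials. -/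
def zsub (q : ℕ) (x : ℕ → A) (i : ℕ) : A := sub0 q x i (x i) ^ (q - 1)

lemma gco_zsub (q : ℕ) (x : ℕ → A) (i : ℕ) (y : A) : gco q (zsub q x) i y = sub0 q x i y := by
  induction i with
  | zero => rfl
  | succ i ih => simp only [gco, sub0, ih, zsub, smul_eq_mul]

lemma sub0_eq_zero {q : ℕ} (hq : 0 < q) (x : ℕ → A) {i k : ℕ} (h : k < i) :
    sub0 q x i (x k) = 0 := by
  induction i with
  | zero => omega
  | succ i ih =>
    simp only [sub0]
    by_cases hk : k = i
    · subst hk
      rw [← pow_succ, Nat.sub_add_cancel hq, sub_self]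
    · rw [ih (by omega), zero_pow hq.ne']; simp

/-- The Dickson coefficients of `x_0, ..., x_{j-1}`. -/
def dick (q : ℕ) (x : ℕ → A) (j : ℕ) (l : Fin j) : A := - cco q (zsub q x) j l

lemma pow_eq_dick [Algebra F A] (x : ℕ → A) {j k : ℕ} (h : k < j) :
    x k ^ (Fintype.card F ^ j) =
      ∑ l : Fin j, dick (Fintype.card F) x j l • x k ^ (Fintype.card F ^ (l : ℕ)) :=
  pow_eq_of_gco _ j _ (by rw [gco_zsub, sub0_eq_zero Fintype.card_pos x h])

lemma det_mul_eq_zero {ι : Type*} [Fintype ι] [DecidableEq ι] (M : Matrix ι ι A) (v : ι → A)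
    (h : M.mulVec v = 0) (l : ι) : M.det * v l = 0 := by
  have : (M.adjugate * M).mulVec v = 0 := by
    rw [← Matrix.mulVec_mulVec, h, Matrix.mulVec_zero]
  rw [Matrix.adjugate_mul, Matrix.smul_mulVec, Matrix.one_mulVec] at this
  simpa using congrFun this l

end Tau

section Homog

open MvPolynomial

variable {R : Type*} [CommRing R] {σ τ : Type*}

lemma isWH_aeval {w : σ → ℕ} {w' : τ → ℕ} {θ : σ → MvPolynomial τ R}
    (hθ : ∀ i, (θ i).IsWeightedHomogeneous w' (w i)) {p : MvPolynomial σ R} {d : ℕ}
    (hp : p.IsWeightedHomogeneous w d) : (aeval θ p).IsWeightedHomogeneous w' d := by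
  induction hp using IsWeightedHomogeneous.induction_on with
  | zero => simpa using isWeightedHomogeneous_zero R w' d
  | add p q _ _ hp hq => simpa using hp.add hq
  | monomial α r hr =>
    rw [aeval_monomial, algebraMap_eq, ← hr, Finsupp.weight_apply]
    apply IsWeightedHomogeneous.C_mul
    exact IsWeightedHomogeneous.prod _ _ _ fun i _ => (hθ i).pow _

lemma isWH_congr {w : σ → ℕ} {p : MvPolynomial σ R} {d e : ℕ}
    (hp : p.IsWeightedHomogeneous w d) (h : d = e) : p.IsWeightedHomogeneous w e := h ▸ hp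

lemma isWH_tau {w : σ → ℕ} {q j : ℕ} (hq : 1 < q) {c : Fin j → MvPolynomial σ R}
    (hc : ∀ l, (c l).IsWeightedHomogeneous w (q ^ j - q ^ (l : ℕ))) (s : ℕ) :
    (tau q c s).IsWeightedHomogeneous w (s + 1 - q ^ j) := by
  induction s using Nat.strong_induction_on with
  | _ s ih =>
    by_cases h : q ^ j ≤ s
    · rw [tau_of_le hq _ h]
      refine IsWeightedHomogeneous.sum _ _ _ fun l _ => ?_
      have : q ^ (l : ℕ) < q ^ j := Nat.pow_lt_pow_right hq l.2
      by_cases h2 : s - q ^ j + q ^ (l : ℕ) + 1 < q ^ j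
      · rw [tau_of_lt _ h2, mul_zero]; exact isWeightedHomogeneous_zero _ _ _
      · exact isWH_congr ((hc l).mul (ih _ (by omega))) (by omega)
    · by_cases h' : s + 1 = q ^ j
      · rw [tau_top _ h']
        exact isWH_congr (isWeightedHomogeneous_one _ _) (by omega)
      · rw [tau_of_lt _ (by omega)]; exact isWeightedHomogeneous_zero _ _ _

lemma isWH_rem {w : σ → ℕ} {q j : ℕ} (hq : 1 < q) {c : Fin j → MvPolynomial σ R}
    (hc : ∀ l, (c l).IsWeightedHomogeneous w (q ^ j - q ^ (l : ℕ))) {m : ℕ} (hm : j ≤ m)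
    (l : Fin j) : (rem q c m l).IsWeightedHomogeneous w (q ^ m - q ^ (l : ℕ)) := by
  induction m, hm using Nat.le_induction generalizing l with
  | base => rw [rem_self (by omega)]; exact hc l
  | succ m hm ih =>
    simp only [rem, ext0_coe]
    have hl := l.2
    have h1 : q ^ (l : ℕ) < q ^ j := Nat.pow_lt_pow_right hq l.2
    have h2 : q ^ j ≤ q ^ m := Nat.pow_le_pow_right (by omega) hm
    have h3 : q ^ m ≤ q ^ (m + 1) := Nat.pow_le_pow_right (by omega) (by omega)
    apply IsWeightedHomogeneous.add
    · split_ifs with h0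
      · exact isWeightedHomogeneous_zero _ _ _
      · refine isWH_congr ((ih ⟨l - 1, by omega⟩).pow q) ?_
        simp only [smul_eq_mul, Nat.mul_sub, ← pow_succ']
        congr 2; omega
    · refine isWH_congr (((ih ⟨j - 1, by omega⟩).pow q).mul (hc l)) ?_
      simp only [smul_eq_mul, Nat.mul_sub, ← pow_succ']
      rw [show j - 1 + 1 = j by omega]
      omega

lemma isWH_cco {w : σ → ℕ} {q : ℕ} (hq : 1 < q) {z : ℕ → MvPolynomial σ R} {i : ℕ}
    (hz : ∀ k < i, (z k).IsWeightedHomogeneous w (q ^ (k + 1) - q ^ k)) (l : ℕ) :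
    (cco q z i l).IsWeightedHomogeneous w (q ^ i - q ^ l) := by
  induction i generalizing l with
  | zero =>
    simp only [cco]
    split_ifs with h
    · subst h; simpa using isWeightedHomogeneous_one _ _
    · exact isWeightedHomogeneous_zero _ _ _
  | succ i ih =>
    simp only [cco]
    have ih' := ih fun k hk => hz k (by omega)
    apply IsWeightedHomogeneous.sub
    · split_ifs with h0
      · exact isWeightedHomogeneous_zero _ _ _
      · refine isWH_congr ((ih' (l - 1)).pow q) ?_
        simp only [smul_eq_mul, Nat.mul_sub, ← pow_succ']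
        congr 2; omega
    · by_cases h : i < l
      · rw [cco_of_lt (by omega) z h, mul_zero]; exact isWeightedHomogeneous_zero _ _ _
      · have h1 : q ^ l ≤ q ^ i := Nat.pow_le_pow_right (by omega) (by omega)
        have h3 : q ^ i ≤ q ^ (i + 1) := Nat.pow_le_pow_right (by omega) (by omega)
        exact isWH_congr ((hz i (by omega)).mul (ih' l)) (by omega)

lemma isWH_sub0 {w : σ → ℕ} {q : ℕ} (hq : 1 < q) {x : ℕ → MvPolynomial σ R}
    (hx : ∀ k, (x k).IsWeightedHomogeneous w 1) (i : ℕ) {y : MvPolynomial σ R}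
    (hy : y.IsWeightedHomogeneous w 1) : (sub0 q x i y).IsWeightedHomogeneous w (q ^ i) := by
  induction i generalizing y with
  | zero => simpa [sub0] using hy
  | succ i ih =>
    simp only [sub0]
    apply IsWeightedHomogeneous.sub
    · exact isWH_congr ((ih hy).pow q) (by simp [pow_succ'])
    · refine isWH_congr (((ih (hx i)).pow (q - 1)).mul (ih hy)) ?_
      obtain ⟨r, rfl⟩ : ∃ r, q = r + 1 := ⟨q - 1, by omega⟩
      simp only [Nat.add_sub_cancel, smul_eq_mul]; ring

lemma isWH_dick {w : σ → ℕ} {q : ℕ} (hq : 1 < q) {x : ℕ → MvPolynomial σ R}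
    (hx : ∀ k, (x k).IsWeightedHomogeneous w 1) (j : ℕ) (l : Fin j) :
    (dick q x j l).IsWeightedHomogeneous w (q ^ j - q ^ (l : ℕ)) := by
  refine (isWH_cco hq (fun k _ => ?_) l).neg
  refine isWH_congr ((isWH_sub0 hq hx k (hx k)).pow (q - 1)) ?_
  simp only [smul_eq_mul, Nat.sub_mul, one_mul, ← pow_succ']

end Homog

end Pool.Agent.Work.MP_a1538a_al
end

-- merged part: Pool.Agent.Work.MP_a1538a_al.Sums
section
/-!
The linear action, the residue functionals and their invariance.
-/

set_option autoImplicit false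

namespace Pool.Agent.Work.MP_a1538a_al

open Finset MvPolynomial

section Act

variable {F : Type*} [Field F] {n : ℕ} {K : Type*} [CommRing K] [Algebra F K]

/-- Matrix action on tuples of elements of an `F`-algebra. -/
def mv (g : Matrix (Fin n) (Fin n) F) (z : Fin n → K) : Fin n → K := fun i => ∑ j, g i j • z j

lemma mv_mul (g h : Matrix (Fin n) (Fin n) F) (z : Fin n → K) :
    mv (g * h) z = mv g (mv h z) := by
  funext i
  simp only [mv, Matrix.mul_apply, Finset.sum_smul, Finset.smul_sum, mul_smul]
  exact Finset.sum_comm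

@[simp] lemma mv_one (z : Fin n → K) : mv (1 : Matrix (Fin n) (Fin n) F) z = z := by
  funext i
  simp [mv, Matrix.one_apply]

/-- The linear substitution attached to a matrix. -/
noncomputable def act (g : Matrix (Fin n) (Fin n) F) :
    MvPolynomial (Fin n) F →ₐ[F] MvPolynomial (Fin n) F :=
  aeval (fun i : Fin n => ∑ j : Fin n, g i j • (X j : MvPolynomial (Fin n) F))

lemma act_X (g : Matrix (Fin n) (Fin n) F) (i : Fin n) : act g (X i) = ∑ j, g i j • X j := by
  simp [act]

lemma aeval_act (g : Matrix (Fin n) (Fin n) F) (z : Fin n → K) (u : MvPolynomial (Fin n) F) :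
    aeval z (act g u) = aeval (mv g z) u := by
  rw [act, comp_aeval_apply]
  congr 2
  funext i
  simp [mv]

lemma act_act (g h : Matrix (Fin n) (Fin n) F) (u : MvPolynomial (Fin n) F) :
    act g (act h u) = act (h * g) u := by
  have h1 : ∀ k : Matrix (Fin n) (Fin n) F, act k = aeval (mv k X) := fun k => rfl
  rw [h1 g, aeval_act, h1 (h * g), mv_mul]

@[simp] lemma act_one (u : MvPolynomial (Fin n) F) : act 1 u = u := by
  have h1 : act (1 : Matrix (Fin n) (Fin n) F) = aeval (mv 1 X) := rfl
  rw [h1, mv_one, aeval_X_left_apply]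

lemma isWH_act (g : Matrix (Fin n) (Fin n) F) {u : MvPolynomial (Fin n) F} {d : ℕ}
    (hu : u.IsWeightedHomogeneous (1 : Fin n → ℕ) d) :
    (act g u).IsWeightedHomogeneous (1 : Fin n → ℕ) d := by
  refine isWH_aeval (fun i => ?_) hu
  refine IsWeightedHomogeneous.sum _ _ _ fun j _ => ?_
  rw [smul_eq_C_mul]
  exact (isWeightedHomogeneous_X F _ j).C_mul _

variable (F n) in
/-- The span of all `g u - u`. -/
noncomputable def IG : Submodule F (MvPolynomial (Fin n) F) :=
  Submodule.span F {x | ∃ (g : Matrix.GeneralLinearGroup (Fin n) F) (u : MvPolynomial (Fin n) F),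
    x = act (g : Matrix (Fin n) (Fin n) F) u - u}

lemma act_sub_mem_IG (g : Matrix.GeneralLinearGroup (Fin n) F) (u : MvPolynomial (Fin n) F) :
    act (g : Matrix (Fin n) (Fin n) F) u - u ∈ IG F n :=
  Submodule.subset_span ⟨g, u, rfl⟩

lemma mv_injective (g : Matrix.GeneralLinearGroup (Fin n) F) :
    Function.Injective (mv (g : Matrix (Fin n) (Fin n) F) : (Fin n → K) → (Fin n → K)) := by
  intro a b h
  have := congrArg (mv ((g⁻¹ : Matrix.GeneralLinearGroup (Fin n) F) : Matrix (Fin n) (Fin n) F)) h
  simpa [← mv_mul] using this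

lemma sum_mv {M : Type*} [AddCommMonoid M] (g : Matrix.GeneralLinearGroup (Fin n) F)
    (T : Finset (Fin n → K)) (hT : ∀ z ∈ T, mv (g : Matrix (Fin n) (Fin n) F) z ∈ T)
    (φ : (Fin n → K) → M) :
    ∑ z ∈ T, φ (mv (g : Matrix (Fin n) (Fin n) F) z) = ∑ z ∈ T, φ z := by
  classical
  have h1 : T.image (mv (g : Matrix (Fin n) (Fin n) F)) = T := by
    apply Finset.eq_of_subset_of_card_le
    · intro y hy
      obtain ⟨z, hz, rfl⟩ := Finset.mem_image.mp hy
      exact hT z hz
    · rw [Finset.card_image_of_injective _ (mv_injective g)]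
  conv_rhs => rw [← h1]
  rw [Finset.sum_image fun a _ b _ h => mv_injective g h]

variable (F) in
/-- A finite `F`-subspace, as a finset. -/
structure IsSub (U : Finset K) : Prop where
  zero_mem : 0 ∈ U
  add_mem : ∀ x ∈ U, ∀ y ∈ U, x + y ∈ U
  smul_mem : ∀ (a : F), ∀ x ∈ U, a • x ∈ U

lemma IsSub.sum_mem {U : Finset K} (hU : IsSub F U) {ι : Type*} (s : Finset ι) (f : ι → K)
    (h : ∀ i ∈ s, f i ∈ U) : ∑ i ∈ s, f i ∈ U :=
  Finset.sum_induction f (· ∈ U) (fun a b ha hb => hU.add_mem a ha b hb) hU.zero_mem h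

lemma IsSub.mv_mem {U : Finset K} (hU : IsSub F U) (g : Matrix (Fin n) (Fin n) F)
    {z : Fin n → K} (hz : z ∈ Fintype.piFinset fun _ : Fin n => U) :
    mv g z ∈ Fintype.piFinset fun _ : Fin n => U := by
  rw [Fintype.mem_piFinset] at hz ⊢
  exact fun i => hU.sum_mem _ _ fun j _ => hU.smul_mem _ _ (hz j)

end Act

section Theta

variable {R : Type*} [CommRing R] {A : Type*} [CommRing A] [Algebra R A]
  {B : Type*} [CommRing B] [Algebra R B] {n j : ℕ}

variable (R n) in
/-- The multivariate residue functional. -/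
noncomputable def Theta (q : ℕ) (c : Fin j → A) : MvPolynomial (Fin n) R →ₗ[R] A :=
  (basisMonomials (Fin n) R).constr R (fun α => ∏ i, tau q c (α i))

lemma Theta_monomial (q : ℕ) (c : Fin j → A) (α : Fin n →₀ ℕ) (a : R) :
    Theta R n q c (monomial α a) = a • ∏ i, tau q c (α i) := by
  have : monomial α a = a • basisMonomials (Fin n) R α := by simp [smul_monomial]
  rw [this, map_smul, Theta, Module.Basis.constr_basis]

lemma Theta_map (q : ℕ) (c : Fin j → A) (u : MvPolynomial (Fin n) R) :
    Theta A n q c (map (algebraMap R A) u) = Theta R n q c u := by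
  induction u using MvPolynomial.induction_on' with
  | monomial α a => rw [map_monomial, Theta_monomial, Theta_monomial, algebraMap_smul]
  | add p r hp hr => simp only [map_add, hp, hr]

lemma map_Theta {q : ℕ} (hq : 1 < q) (φ : A →ₐ[R] B) (c : Fin j → A)
    (u : MvPolynomial (Fin n) R) : φ (Theta R n q c u) = Theta R n q (fun l => φ (c l)) u := by
  induction u using MvPolynomial.induction_on' with
  | monomial α a =>
    rw [Theta_monomial, Theta_monomial, map_smul, map_prod]
    congr 1
    exact Finset.prod_congr rfl fun i _ => map_tau hq (φ : A →+* B) c _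
  | add p r hp hr => simp only [map_add, hp, hr]

/-- The exponent vector with all entries `N`. -/
noncomputable def top (n N : ℕ) : Fin n →₀ ℕ := Finsupp.equivFunOnFinite.symm fun _ => N

@[simp] lemma top_apply (N : ℕ) (i : Fin n) : top n N i = N := by simp [top]

lemma Theta_zero {q : ℕ} (hq : 1 < q) (u : MvPolynomial (Fin n) R) :
    Theta R n q (fun _ : Fin j => (0 : R)) u = coeff (top n (q ^ j - 1)) u := by
  classical
  have hpos : 0 < q ^ j := pow_pos (by omega) _
  induction u using MvPolynomial.induction_on' with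
  | monomial α a =>
    rw [Theta_monomial, coeff_monomial]
    simp only [tau_zero hq]
    by_cases h : α = top n (q ^ j - 1)
    · rw [if_pos h, Finset.prod_eq_one, smul_eq_mul, mul_one]
      intro i _
      rw [if_pos]
      rw [h, top_apply]; omega
    · rw [if_neg h]
      obtain ⟨i, hi⟩ : ∃ i, α i ≠ q ^ j - 1 := by
        by_contra hc
        push Not at hc
        exact h (Finsupp.ext fun i => by simp [hc i])
      rw [Finset.prod_eq_zero (Finset.mem_univ i) (if_neg (by omega)), smul_zero]
  | add p r hp hr => simp only [map_add, hp, hr, coeff_add]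

/-- The q-polynomial `X^(q^j) - ∑ c_l X^(q^l)`. -/
noncomputable def fpol (q : ℕ) (c : Fin j → A) : Polynomial A :=
  Polynomial.X ^ (q ^ j) - ∑ l : Fin j, Polynomial.C (c l) * Polynomial.X ^ (q ^ (l : ℕ))

/-- The derivative of `fpol`. -/
def a0 (c : Fin j → A) : A := if h : 0 < j then - c ⟨0, h⟩ else 1

lemma fpol_degree_lt {q : ℕ} (hq : 1 < q) (c : Fin j → A) :
    (∑ l : Fin j, Polynomial.C (c l) * Polynomial.X ^ (q ^ (l : ℕ))).degree <
      ((q ^ j : ℕ) : WithBot ℕ) := by
  refine lt_of_le_of_lt (Polynomial.degree_sum_le _ _) ?_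
  rw [Finset.sup_lt_iff (WithBot.bot_lt_coe _)]
  intro l _
  refine lt_of_le_of_lt (Polynomial.degree_C_mul_X_pow_le _ _) ?_
  exact_mod_cast Nat.pow_lt_pow_right hq l.2

lemma fpol_monic {q : ℕ} (hq : 1 < q) (c : Fin j → A) : (fpol q c).Monic :=
  Polynomial.monic_X_pow_sub (fpol_degree_lt hq c)

lemma fpol_natDegree [Nontrivial A] {q : ℕ} (hq : 1 < q) (c : Fin j → A) :
    (fpol q c).natDegree = q ^ j := by
  apply Polynomial.natDegree_eq_of_degree_eq_some
  rw [fpol, Polynomial.degree_sub_eq_left_of_degree_lt, Polynomial.degree_X_pow]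
  rw [Polynomial.degree_X_pow]
  exact fpol_degree_lt hq c

lemma fpol_eval (q : ℕ) (c : Fin j → A) (x : A) :
    (fpol q c).eval x = x ^ (q ^ j) - ∑ l : Fin j, c l * x ^ (q ^ (l : ℕ)) := by
  simp [fpol, Polynomial.eval_finsetSum]

variable {F : Type*} [Field F] [Fintype F]

lemma fpol_derivative [Algebra F A] (c : Fin j → A) :
    (fpol (Fintype.card F) c).derivative = Polynomial.C (a0 c) := by
  have h0 : ((Fintype.card F : ℕ) : A) = 0 := by
    rw [← map_natCast (algebraMap F A), Nat.cast_card_eq_zero, map_zero]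
  rcases j with _ | j
  · simp [fpol, a0]
  · simp [fpol, a0, Fin.sum_univ_succ, Polynomial.derivative_X_pow, h0]

lemma sum_pow_eq_tau {K : Type*} [Field K] [Algebra F K] (c : Fin j → K) (U : Finset K)
    (hU : fpol (Fintype.card F) c = Lagrange.nodal U id) (s : ℕ) :
    ∑ z ∈ U, z ^ s = a0 c * tau (Fintype.card F) c s := by
  classical
  have hq := one_lt_q F
  have hcard : #U = Fintype.card F ^ j := by
    rw [← fpol_natDegree hq c, hU, Lagrange.natDegree_nodal]
  have hder : ∀ z ∈ U, ∏ y ∈ U.erase z, (z - y) = a0 c := by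
    intro z hz
    have := Lagrange.eval_nodal_derivative_eval_node_eq (v := (id : K → K)) hz
    rw [← hU, fpol_derivative, Polynomial.eval_C, Lagrange.eval_nodal] at this
    simpa using this.symm
  have hne : a0 c ≠ 0 := by
    obtain ⟨z, hz⟩ : U.Nonempty := by
      rw [← Finset.card_pos, hcard]; positivity
    rw [← hder z hz, Finset.prod_ne_zero_iff]
    intro y hy
    exact sub_ne_zero.mpr (Finset.ne_of_mem_erase hy).symm
  induction s using Nat.strong_induction_on with
  | _ s ih =>
    by_cases h : Fintype.card F ^ j ≤ s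
    · rw [tau_of_le hq _ h, Finset.mul_sum]
      have h1 : ∀ z ∈ U, z ^ s =
          ∑ l : Fin j, c l * z ^ (s - Fintype.card F ^ j + Fintype.card F ^ (l : ℕ)) := by
        intro z hz
        have h2 : (fpol (Fintype.card F) c).eval z = 0 := by
          rw [hU]; exact Lagrange.eval_nodal_at_node (v := (id : K → K)) hz
        rw [fpol_eval, sub_eq_zero] at h2
        have h3 : z ^ s = z ^ (s - Fintype.card F ^ j) * z ^ (Fintype.card F ^ j) := by
          rw [← pow_add, Nat.sub_add_cancel h]
        rw [h3, h2, Finset.mul_sum]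
        exact Finset.sum_congr rfl fun l _ => by rw [pow_add]; ring
      rw [Finset.sum_congr rfl h1, Finset.sum_comm]
      refine Finset.sum_congr rfl fun l _ => ?_
      have : Fintype.card F ^ (l : ℕ) < Fintype.card F ^ j := Nat.pow_lt_pow_right hq l.2
      rw [← Finset.mul_sum, ih _ (by omega)]; ring
    · have h2 := Lagrange.coeff_eq_sum (s := U) (v := (id : K → K)) (Set.injOn_id _)
        (P := Polynomial.X ^ s) (by rw [Polynomial.degree_X_pow, hcard]; exact_mod_cast by omega)
      simp only [id, Polynomial.eval_pow, Polynomial.eval_X] at h2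
      rw [Finset.sum_congr rfl fun z hz => by rw [hder z hz], ← Finset.sum_div,
        Polynomial.coeff_X_pow, hcard, eq_div_iff hne] at h2
      rw [← h2, mul_comm]
      congr 1
      by_cases h' : s + 1 = Fintype.card F ^ j
      · rw [tau_top _ h', if_pos (by omega)]
      · rw [tau_of_lt _ (by omega), if_neg (by omega)]

lemma sum_aeval_monomial {K : Type*} [CommRing K] [Algebra R K] (U : Finset K)
    (α : Fin n →₀ ℕ) (a : R) :
    ∑ z ∈ Fintype.piFinset (fun _ : Fin n => U), aeval z (monomial α a) =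
      a • ∏ i, ∑ x ∈ U, x ^ α i := by
  classical
  rw [Finset.prod_univ_sum, Finset.smul_sum]
  refine Finset.sum_congr rfl fun z _ => ?_
  rw [aeval_monomial, Finsupp.prod_fintype _ _ (by simp), Algebra.smul_def]

lemma sum_aeval_eq_Theta {K : Type*} [Field K] [Algebra F K] (c : Fin j → K) (U : Finset K)
    (hU : fpol (Fintype.card F) c = Lagrange.nodal U id) (u : MvPolynomial (Fin n) F) :
    ∑ z ∈ Fintype.piFinset (fun _ : Fin n => U), aeval z u =
      a0 c ^ n * Theta F n (Fintype.card F) c u := by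
  induction u using MvPolynomial.induction_on' with
  | monomial α a =>
    rw [sum_aeval_monomial, Theta_monomial]
    simp only [sum_pow_eq_tau c U hU, Finset.prod_mul_distrib, Finset.prod_const,
      Finset.card_univ, Fintype.card_fin, mul_smul_comm]
  | add p r hp hr => simp only [map_add, Finset.sum_add_distrib, hp, hr, mul_add]

lemma exists_sub_of_a0_ne {K : Type*} [Field K] [IsAlgClosed K] [Algebra F K] (c : Fin j → K)
    (hc : a0 c ≠ 0) : ∃ U : Finset K, IsSub F U ∧
      fpol (Fintype.card F) c = Lagrange.nodal U id := by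
  classical
  have hq := one_lt_q F
  have hm := fpol_monic hq c
  have hsep : (fpol (Fintype.card F) c).Separable := by
    rw [Polynomial.separable_def, fpol_derivative]
    refine ⟨0, Polynomial.C (a0 c)⁻¹, ?_⟩
    rw [zero_mul, zero_add, ← Polynomial.C_mul, inv_mul_cancel₀ hc, Polynomial.C_1]
  have hmem : ∀ x, x ∈ (fpol (Fintype.card F) c).roots.toFinset ↔
      x ^ (Fintype.card F ^ j) = ∑ l : Fin j, c l * x ^ (Fintype.card F ^ (l : ℕ)) := by
    intro x
    rw [Multiset.mem_toFinset, Polynomial.mem_roots hm.ne_zero, Polynomial.IsRoot.def, fpol_eval,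
      sub_eq_zero]
  refine ⟨(fpol (Fintype.card F) c).roots.toFinset, ⟨?_, ?_, ?_⟩, ?_⟩
  · rw [hmem]
    have : ∀ l : ℕ, (0 : K) ^ (Fintype.card F ^ l) = 0 := fun l => zero_pow (by positivity)
    simp [this]
  · intro x hx y hy
    rw [hmem] at hx hy ⊢
    simp only [add_pow_q F, mul_add, Finset.sum_add_distrib, hx, hy]
  · intro a x hx
    rw [hmem] at hx ⊢
    simp only [smul_pow_q F, hx, Finset.smul_sum, mul_smul_comm]
  · rw [Lagrange.nodal_eq, Finset.prod_eq_multiset_prod, Multiset.toFinset_val,
      Multiset.dedup_eq_self.mpr (Polynomial.nodup_roots hsep)]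
    exact (IsAlgClosed.splits _).eq_prod_roots_of_monic hm

lemma Theta_act_univ (g : Matrix.GeneralLinearGroup (Fin n) F) (u : MvPolynomial (Fin n) F) :
    Theta F n (Fintype.card F) (X : Fin j → MvPolynomial (Fin j) F)
      (act (g : Matrix (Fin n) (Fin n) F) u) =
    Theta F n (Fintype.card F) (X : Fin j → MvPolynomial (Fin j) F) u := by
  classical
  have hq := one_lt_q F
  let K := AlgebraicClosure F
  rw [← sub_eq_zero]
  set P := Theta F n (Fintype.card F) (X : Fin j → MvPolynomial (Fin j) F)
      (act (g : Matrix (Fin n) (Fin n) F) u) -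
    Theta F n (Fintype.card F) (X : Fin j → MvPolynomial (Fin j) F) u with hP
  have hne : a0 (X : Fin j → MvPolynomial (Fin j) F) ≠ 0 := by
    unfold a0
    split_ifs
    · exact neg_ne_zero.mpr (X_ne_zero _)
    · exact one_ne_zero
  have key : a0 (X : Fin j → MvPolynomial (Fin j) F) ^ (n + 1) * P = 0 := by
    apply map_injective (algebraMap F K) (algebraMap F K).injective
    apply MvPolynomial.funext
    intro c
    rw [eval_map, ← aeval_def, map_zero, map_zero, map_mul, map_pow]
    have h1 : aeval c (a0 (X : Fin j → MvPolynomial (Fin j) F)) = a0 c := by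
      unfold a0
      split_ifs <;> simp
    rw [h1]
    by_cases hc : a0 c = 0
    · simp [hc]
    obtain ⟨U, hU, hf⟩ := exists_sub_of_a0_ne (F := F) c hc
    rw [hP, map_sub, map_Theta hq, map_Theta hq]
    simp only [aeval_X]
    rw [pow_succ', mul_assoc, mul_sub, ← sum_aeval_eq_Theta c U hf, ← sum_aeval_eq_Theta c U hf]
    simp only [aeval_act]
    rw [sum_mv g _ (fun z hz => hU.mv_mem _ hz) (fun z => aeval z u), sub_self, mul_zero]
  exact (mul_eq_zero.mp key).resolve_left (pow_ne_zero _ hne)

lemma Theta_act [Algebra F A] (c : Fin j → A) (g : Matrix.GeneralLinearGroup (Fin n) F)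
    (u : MvPolynomial (Fin n) F) :
    Theta F n (Fintype.card F) c (act (g : Matrix (Fin n) (Fin n) F) u) =
      Theta F n (Fintype.card F) c u := by
  have h := congrArg (aeval c) (Theta_act_univ (j := j) g u)
  rw [map_Theta (one_lt_q F), map_Theta (one_lt_q F)] at h
  simpa using h

lemma coeff_top_act (j : ℕ) (g : Matrix.GeneralLinearGroup (Fin n) F)
    (u : MvPolynomial (Fin n) F) :
    coeff (top n (Fintype.card F ^ j - 1)) (act (g : Matrix (Fin n) (Fin n) F) u) =
      coeff (top n (Fintype.card F ^ j - 1)) u := by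
  rw [← Theta_zero (one_lt_q F), ← Theta_zero (one_lt_q F), Theta_act]

end Theta

end Pool.Agent.Work.MP_a1538a_al
end

-- merged part: Pool.Agent.Work.MP_a1538a_al.Red
section
/-!
Reduction modulo the augmentation submodule of the stabiliser of a line.
-/

set_option autoImplicit false

namespace Pool.Agent.Work.MP_a1538a_al

open Finset MvPolynomial

variable {F : Type*} [Field F] [Fintype F] {n : ℕ}

section PowerSums

variable (F) in
lemma sum_pow_of_pos {t : ℕ} (ht : 0 < t) :
    ∑ a : F, a ^ t = if Fintype.card F - 1 ∣ t then -1 else 0 := by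
  classical
  let φ : Fˣ ↪ F := ⟨fun x ↦ x, Units.val_injective⟩
  have : univ.map φ = univ \ {0} := by
    ext x
    simpa only [mem_map, mem_univ, Function.Embedding.coeFn_mk, true_and, mem_sdiff,
      mem_singleton, φ] using! isUnit_iff_ne_zero
  calc
    ∑ x : F, x ^ t = ∑ x ∈ univ \ {(0 : F)}, x ^ t := by
      rw [← sum_sdiff ({0} : Finset F).subset_univ, sum_singleton, zero_pow ht.ne', add_zero]
    _ = ∑ x : Fˣ, (x ^ t : F) := by simp [φ, ← this, univ.sum_map φ]
    _ = _ := FiniteField.sum_pow_units F t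

variable (F) in
lemma sum_pow_of_lt {t : ℕ} (ht : t < 2 * (Fintype.card F - 1)) :
    ∑ a : F, a ^ t = if t = Fintype.card F - 1 then -1 else 0 := by
  have hq := one_lt_q F
  rcases Nat.eq_zero_or_pos t with h | h
  · subst h
    rw [if_neg (by omega)]
    simp
  · rw [sum_pow_of_pos F h]
    congr 1
    apply propext
    constructor
    · rintro ⟨k, hk⟩
      have : k < 2 := by
        by_contra hc
        have : (Fintype.card F - 1) * 2 ≤ (Fintype.card F - 1) * k :=
          Nat.mul_le_mul_left _ (by omega)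
        omega
      interval_cases k <;> omega
    · rintro rfl; exact dvd_rfl

variable {A : Type*} [CommRing A] [IsDomain A] [Algebra F A]

variable (F) in
lemma sub_pow_pred (x y : A) : (x - y) ^ (Fintype.card F - 1) =
    ∑ i ∈ range (Fintype.card F), x ^ i * y ^ (Fintype.card F - 1 - i) := by
  have hq := one_lt_q F
  by_cases h : x - y = 0
  · have h0 : ((Fintype.card F : ℕ) : A) = 0 := by
      rw [← map_natCast (algebraMap F A), Nat.cast_card_eq_zero, map_zero]
    rw [h, zero_pow (by omega), sub_eq_zero.mp h, geom_sum₂_self, h0, zero_mul]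
  · apply mul_left_cancel₀ h
    rw [(Commute.all x y).mul_geom_sum₂, ← pow_succ', Nat.sub_add_cancel hq.le, sub_pow_q1 F]

lemma sum_shift (x t : A) {j : ℕ} (hj : j < Fintype.card F - 1) :
    ∑ a : F, a ^ j • (x + a • t) ^ (Fintype.card F - 1) =
      (-(-1 : F) ^ (Fintype.card F - 1 - j)) • (x ^ j * t ^ (Fintype.card F - 1 - j)) := by
  have h1 : ∀ a : F, a ^ j • (x + a • t) ^ (Fintype.card F - 1) =
      ∑ i ∈ range (Fintype.card F), ((-1 : F) ^ (Fintype.card F - 1 - i) *
        a ^ (j + (Fintype.card F - 1 - i))) • (x ^ i * t ^ (Fintype.card F - 1 - i)) := by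
    intro a
    have : x + a • t = x - (-a) • t := by simp
    rw [this, sub_pow_pred F, Finset.smul_sum]
    refine Finset.sum_congr rfl fun i _ => ?_
    rw [smul_pow, mul_smul_comm, smul_smul, neg_pow a, pow_add]
    congr 1; ring
  rw [Finset.sum_congr rfl fun a _ => h1 a, Finset.sum_comm]
  rw [Finset.sum_eq_single j]
  · rw [← Finset.sum_smul, ← Finset.mul_sum, sum_pow_of_lt F (by omega), if_pos (by omega)]
    simp
  · intro i hi hij
    rw [Finset.mem_range] at hi
    rw [← Finset.sum_smul, ← Finset.mul_sum, sum_pow_of_lt F (by omega), if_neg (by omega)]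
    simp
  · intro h
    rw [Finset.mem_range] at h
    omega

end PowerSums

section Mats

omit [Fintype F] in
lemma det_updateRow_one (k : Fin n) (l : Fin n → F) :
    (Matrix.updateRow (1 : Matrix (Fin n) (Fin n) F) k l).det = l k := by
  have h : l = ∑ i, l i • (1 : Matrix (Fin n) (Fin n) F) i := by
    funext j
    simp [Finset.sum_apply, Matrix.one_apply]
  conv_lhs => rw [h]
  rw [Matrix.det_updateRow_sum]
  simp

omit [Fintype F] in
lemma exists_row_GL (k : Fin n) (l : Fin n → F) (h : l k ≠ 0) :
    ∃ g : Matrix.GeneralLinearGroup (Fin n) F,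
      (g : Matrix (Fin n) (Fin n) F) = Matrix.updateRow 1 k l :=
  ⟨Matrix.GeneralLinearGroup.mkOfDetNeZero (Matrix.updateRow 1 k l)
    (by rwa [det_updateRow_one]), rfl⟩

omit [Fintype F] in
lemma act_updateRow (k : Fin n) (l : Fin n → F) (i : Fin n) :
    act (Matrix.updateRow 1 k l) (X i) = if i = k then ∑ j, l j • X j else X i := by
  rw [act_X]
  split_ifs with h
  · subst h; simp
  · simp [Matrix.updateRow_ne h, Matrix.one_apply]

omit [Fintype F] in
lemma exists_GL_inv_row (l : Fin (n + 1) → F) (h : l ≠ 0) :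
    ∃ g : Matrix.GeneralLinearGroup (Fin (n + 1)) F,
      ∀ j, ((g⁻¹ : Matrix.GeneralLinearGroup (Fin (n + 1)) F) :
        Matrix (Fin (n + 1)) (Fin (n + 1)) F) 0 j = l j := by
  obtain ⟨k, hk⟩ : ∃ k, l k ≠ 0 := Function.ne_iff.mp h
  refine ⟨(Matrix.GeneralLinearGroup.mkOfDetNeZero
    ((Matrix.updateRow 1 k l).submatrix (Equiv.swap 0 k) id) ?_)⁻¹, fun j => ?_⟩
  · rw [Matrix.det_permute, det_updateRow_one]
    refine mul_ne_zero ?_ hk
    rcases Int.units_eq_one_or (Equiv.Perm.sign (Equiv.swap 0 k)) with h | h <;> simp [h]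
  · rw [inv_inv]
    change ((Matrix.updateRow 1 k l).submatrix (Equiv.swap 0 k) id) 0 j = l j
    simp

/-- Block matrix `diag(1, g)`. -/
def blk (g : Matrix (Fin n) (Fin n) F) : Matrix (Fin (n + 1)) (Fin (n + 1)) F :=
  Matrix.of fun i j => Fin.cases (Fin.cases 1 (fun _ => 0) j)
    (fun i' => Fin.cases 0 (fun j' => g i' j') j) i

omit [Fintype F] in
lemma blk_mul (g h : Matrix (Fin n) (Fin n) F) : blk g * blk h = blk (g * h) := by
  ext i j
  refine Fin.cases ?_ (fun i' => ?_) i <;> refine Fin.cases ?_ (fun j' => ?_) j <;>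
    simp [blk, Matrix.mul_apply, Fin.sum_univ_succ]

omit [Fintype F] in
lemma blk_one : blk (1 : Matrix (Fin n) (Fin n) F) = 1 := by
  ext i j
  refine Fin.cases ?_ (fun i' => ?_) i <;> refine Fin.cases ?_ (fun j' => ?_) j <;>
    simp [blk, Matrix.one_apply, Fin.succ_ne_zero, (Fin.succ_ne_zero _).symm]

/-- Block matrix `diag(1, g)` as an invertible matrix. -/
def blkGL (g : Matrix.GeneralLinearGroup (Fin n) F) :
    Matrix.GeneralLinearGroup (Fin (n + 1)) F :=
  ⟨blk g, blk (g⁻¹ : Matrix.GeneralLinearGroup (Fin n) F),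
    by rw [blk_mul]; simp [blk_one], by rw [blk_mul]; simp [blk_one]⟩

omit [Fintype F] in
lemma act_blk_zero (g : Matrix (Fin n) (Fin n) F) : act (blk g) (X 0) = X 0 := by
  simp [act_X, blk, Fin.sum_univ_succ]

omit [Fintype F] in
lemma act_blk_succ (g : Matrix (Fin n) (Fin n) F) (i : Fin n) :
    act (blk g) (X i.succ) = ∑ j, g i j • X j.succ := by
  simp [act_X, blk, Fin.sum_univ_succ]

omit [Fintype F] in
lemma act_blk_rename (g : Matrix (Fin n) (Fin n) F) (v : MvPolynomial (Fin n) F) :
    act (blk g) (rename Fin.succ v) = rename Fin.succ (act g v) := by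
  have : (act (blk g)).comp (rename Fin.succ) = (rename Fin.succ).comp (act g) := by
    apply MvPolynomial.algHom_ext
    intro i
    simp only [AlgHom.comp_apply, rename_X, act_blk_succ]
    simp [act_X]
  exact DFunLike.congr_fun this v

end Mats

section Red

variable (F n) in
/-- The span of all `g u - u` with `g` in the stabiliser of the line through `X 0`. -/
noncomputable def IP : Submodule F (MvPolynomial (Fin (n + 1)) F) :=
  Submodule.span F {x | ∃ (g : Matrix.GeneralLinearGroup (Fin (n + 1)) F)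
    (u : MvPolynomial (Fin (n + 1)) F), (∀ j : Fin n, g 0 j.succ = 0) ∧
    x = act (g : Matrix (Fin (n + 1)) (Fin (n + 1)) F) u - u}

omit [Fintype F] in
lemma act_sub_mem_IP (g : Matrix.GeneralLinearGroup (Fin (n + 1)) F)
    (hg : ∀ j : Fin n, g 0 j.succ = 0) (u : MvPolynomial (Fin (n + 1)) F) :
    act (g : Matrix (Fin (n + 1)) (Fin (n + 1)) F) u - u ∈ IP F n :=
  Submodule.subset_span ⟨g, u, hg, rfl⟩

omit [Fintype F] in
lemma IP_le_IG : IP F n ≤ IG F (n + 1) :=
  Submodule.span_mono fun _ ⟨g, u, _, h⟩ => ⟨g, u, h⟩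

variable (F n) in
/-- The substitution `x_i ↦ x_{i+1}^q - x_0^(q-1) x_{i+1}`. -/
noncomputable def Yv : MvPolynomial (Fin n) F →ₐ[F] MvPolynomial (Fin (n + 1)) F :=
  aeval fun i : Fin n => X i.succ ^ (Fintype.card F) - X 0 ^ (Fintype.card F - 1) * X i.succ

lemma act_blk_Yv (g : Matrix (Fin n) (Fin n) F) (v : MvPolynomial (Fin n) F) :
    act (blk g) (Yv F n v) = Yv F n (act g v) := by
  have : (act (blk g)).comp (Yv F n) = (Yv F n).comp (act g) := by
    apply MvPolynomial.algHom_ext
    intro i
    rw [AlgHom.comp_apply, AlgHom.comp_apply, act_X]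
    simp only [Yv, aeval_X, map_sub, map_mul, map_pow, act_blk_succ,
      act_blk_zero, map_sum, map_smul, sum_pow_q1 F, smul_pow_q1 F, smul_sub,
      Finset.sum_sub_distrib, Finset.mul_sum, mul_smul_comm]
  exact DFunLike.congr_fun this v

lemma tor_mem {c : ℕ} (hc : ¬ Fintype.card F - 1 ∣ c) (v : MvPolynomial (Fin n) F)
    (α : Fin n → ℕ) : X 0 ^ c * Yv F n v * ∏ l, X l.succ ^ α l ∈ IP F n := by
  classical
  rw [← FiniteField.forall_pow_eq_one_iff] at hc
  push Not at hc
  obtain ⟨a, ha⟩ := hc
  obtain ⟨g, hg⟩ := exists_row_GL (0 : Fin (n + 1)) (Pi.single 0 (a : F)) (by simp)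
  have h0 : act g.val (X 0) = (a : F) • X 0 := by
    rw [hg, act_updateRow, if_pos rfl]; simp [Pi.single_apply]
  have h1 : ∀ i : Fin n, act g.val (X i.succ) = X i.succ := by
    intro i; rw [hg, act_updateRow, if_neg (Fin.succ_ne_zero i)]
  have h2 : act g.val (Yv F n v) = Yv F n v := by
    have : (act g.val).comp (Yv F n) = Yv F n := by
      apply MvPolynomial.algHom_ext
      intro i
      simp only [Yv, AlgHom.comp_apply, aeval_X, map_sub, map_mul, map_pow, h0, h1, smul_pow,
        FiniteField.pow_card_sub_one_eq_one (a : F) a.ne_zero, one_smul]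
    exact DFunLike.congr_fun this v
  have h3 := act_sub_mem_IP g (fun j => by
    rw [hg]; simp) (X 0 ^ c * Yv F n v * ∏ l, X l.succ ^ α l)
  simp only [map_mul, map_pow, map_prod, h0, h1, h2, smul_pow, smul_mul_assoc] at h3
  have h4 : (a : F) ^ c - 1 ≠ 0 := by
    rw [sub_ne_zero]
    intro h
    exact ha (Units.ext (by simpa using h))
  rw [← Submodule.smul_mem_iff _ h4, sub_smul, one_smul]
  exact h3

lemma red_mem {c : ℕ} (hc : Fintype.card F - 1 ≤ c) (v : MvPolynomial (Fin n) F)
    (α : Fin n → ℕ) (i : Fin n) (hi : α i < Fintype.card F - 1) :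
    X 0 ^ c * Yv F n v * ∏ l, X l.succ ^ α l ∈ IP F n := by
  classical
  have hq := one_lt_q F
  set h : MvPolynomial (Fin (n + 1)) F := X 0 ^ (c - (Fintype.card F - 1 - α i)) * Yv F n v *
    ∏ l ∈ univ.erase i, X l.succ ^ α l with hh
  have key : ∀ a : F, h * (X i.succ + a • X 0) ^ (Fintype.card F - 1) -
      h * X i.succ ^ (Fintype.card F - 1) ∈ IP F n := by
    intro a
    obtain ⟨g, hg⟩ := exists_row_GL i.succ 
      ((Pi.single i.succ 1 : Fin (n + 1) → F) + (Pi.single 0 a : Fin (n + 1) → F)) (by simp)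
    have h0 : act g.val (X 0) = X 0 := by
      rw [hg, act_updateRow, if_neg (Fin.succ_ne_zero i).symm]
    have h1 : ∀ l : Fin n, act g.val (X l.succ) =
        X l.succ + (if l = i then a else 0) • X 0 := by
      intro l; rw [hg, act_updateRow]
      by_cases hl : l = i
      · subst hl
        simp [add_smul, Finset.sum_add_distrib, Pi.single_apply]
      · simp [hl]
    have h2 : act g.val (Yv F n v) = Yv F n v := by
      have : (act g.val).comp (Yv F n) = Yv F n := by
        apply MvPolynomial.algHom_ext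
        intro l
        simp only [Yv, AlgHom.comp_apply, aeval_X, map_sub, map_mul, map_pow, h0, h1,
          add_pow_q1 F, smul_pow_q1 F, mul_add, mul_smul_comm, ← pow_succ,
          Nat.sub_add_cancel hq.le]
        ring
      exact DFunLike.congr_fun this v
    have h3 := act_sub_mem_IP g (fun j => by
      rw [hg, Matrix.updateRow_ne (Fin.succ_ne_zero i).symm,
        Matrix.one_apply_ne (Fin.succ_ne_zero j).symm]) (h * X i.succ ^ (Fintype.card F - 1))
    have h4 : act g.val h = h := by
      simp only [hh, map_mul, map_pow, map_prod, h0, h2]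
      congr 1
      refine Finset.prod_congr rfl fun l hl => ?_
      rw [h1, if_neg (Finset.ne_of_mem_erase hl), zero_smul, add_zero]
    rwa [map_mul, h4, map_pow, h1, if_pos rfl] at h3
  have key2 := Submodule.sum_mem (IP F n) (t := univ)
    fun a _ => Submodule.smul_mem _ (a ^ α i) (key a)
  simp only [smul_sub, Finset.sum_sub_distrib, ← mul_smul_comm, ← Finset.mul_sum] at key2
  rw [sum_shift _ _ hi, ← Finset.sum_smul, FiniteField.sum_pow_lt_card_sub_one F _ hi, zero_smul,
    mul_zero, sub_zero, mul_smul_comm, Submodule.smul_mem_iff _ (by simp)] at key2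
  convert key2 using 1
  rw [hh, ← Finset.mul_prod_erase univ _ (mem_univ i)]
  have : c = c - (Fintype.card F - 1 - α i) + (Fintype.card F - 1 - α i) := by omega
  conv_lhs => rw [this, pow_add]
  ring

lemma mem_span_gen (u : MvPolynomial (Fin (n + 1)) F) :
    u ∈ Submodule.span F {x | ∃ (b : ℕ) (v : MvPolynomial (Fin n) F) (α : Fin n → ℕ),
      (∀ l, α l ≤ Fintype.card F - 1) ∧ x = X 0 ^ b * Yv F n v * ∏ l, X l.succ ^ α l} := by
  classical
  have hq := one_lt_q F
  induction u using MvPolynomial.induction_on with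
  | C a =>
    refine Submodule.subset_span ⟨0, C a, 0, fun l => by simp, ?_⟩
    simp [Yv]
  | add p r hp hr => exact Submodule.add_mem _ hp hr
  | mul_X p k hp =>
    induction hp using Submodule.span_induction with
    | zero => simp
    | add x y _ _ hx hy => rw [add_mul]; exact Submodule.add_mem _ hx hy
    | smul a x _ hx => rw [smul_mul_assoc]; exact Submodule.smul_mem _ _ hx
    | mem x hx =>
      obtain ⟨b, v, α, hα, rfl⟩ := hx
      refine Fin.cases ?_ (fun i => ?_) k
      · exact Submodule.subset_span ⟨b + 1, v, α, hα, by ring⟩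
      have hprod : ∀ e : ℕ, ∏ l, (X l.succ : MvPolynomial (Fin (n + 1)) F) ^
          (Function.update α i e l) = X i.succ ^ e * ∏ l ∈ univ.erase i, X l.succ ^ α l := by
        intro e
        rw [← Finset.mul_prod_erase univ _ (mem_univ i), Function.update_self]
        congr 1
        refine Finset.prod_congr rfl fun l hl => ?_
        rw [Function.update_of_ne (Finset.ne_of_mem_erase hl)]
      have hupd : ∀ e : ℕ, e ≤ Fintype.card F - 1 →
          ∀ l, Function.update α i e l ≤ Fintype.card F - 1 := by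
        intro e he l
        by_cases hl : l = i
        · subst hl; simpa using he
        · rw [Function.update_of_ne hl]; exact hα l
      rw [← Finset.mul_prod_erase univ _ (mem_univ i)]
      by_cases hi : α i < Fintype.card F - 1
      · refine Submodule.subset_span ⟨b, v, Function.update α i (α i + 1), hupd _ hi, ?_⟩
        rw [hprod]; ring
      · have hi' : α i = Fintype.card F - 1 := le_antisymm (hα i) (not_lt.mp hi)
        have e1 := Submodule.subset_span (R := F) (s := {x | ∃ (b : ℕ)
          (v : MvPolynomial (Fin n) F) (α : Fin n → ℕ), (∀ l, α l ≤ Fintype.card F - 1) ∧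
            x = X 0 ^ b * Yv F n v * ∏ l, X l.succ ^ α l})
          ⟨b, X i * v, Function.update α i 0, hupd _ (by omega), rfl⟩
        have e2 := Submodule.subset_span (R := F) (s := {x | ∃ (b : ℕ)
          (v : MvPolynomial (Fin n) F) (α : Fin n → ℕ), (∀ l, α l ≤ Fintype.card F - 1) ∧
            x = X 0 ^ b * Yv F n v * ∏ l, X l.succ ^ α l})
          ⟨b + (Fintype.card F - 1), v, Function.update α i 1, hupd _ (by omega), rfl⟩
        convert Submodule.add_mem _ e1 e2 using 1
        rw [hprod, hprod, map_mul, hi']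
        have hY : Yv F n (X i) =
            X i.succ ^ (Fintype.card F) - X 0 ^ (Fintype.card F - 1) * X i.succ := by simp [Yv]
        rw [hY]
        obtain ⟨r, hr⟩ : ∃ r, Fintype.card F = r + 1 := ⟨Fintype.card F - 1, by omega⟩
        rw [hr, Nat.add_sub_cancel]
        ring

variable (F n) in
/-- One graded piece of the surviving part. -/
noncomputable def gam (b : ℕ) : MvPolynomial (Fin n) F →ₗ[F] MvPolynomial (Fin (n + 1)) F where
  toFun v := X 0 ^ ((Fintype.card F - 1) * (b + 1)) * Yv F n v *
    ∏ l : Fin n, X l.succ ^ (Fintype.card F - 1)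
  map_add' v w := by simp only [map_add]; ring
  map_smul' a v := by simp

lemma gam_apply (b : ℕ) (v : MvPolynomial (Fin n) F) :
    gam F n b v = X 0 ^ ((Fintype.card F - 1) * (b + 1)) * Yv F n v *
      ∏ l : Fin n, X l.succ ^ (Fintype.card F - 1) := rfl

variable (F n) in
/-- The surviving part. -/
noncomputable def Gam : (ℕ →₀ MvPolynomial (Fin n) F) →ₗ[F] MvPolynomial (Fin (n + 1)) F :=
  Finsupp.lsum F (gam F n)

lemma X_mul_mem (u : MvPolynomial (Fin (n + 1)) F) :
    X 0 * u ∈ LinearMap.range (Gam F n) ⊔ IP F n := by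
  have hq := one_lt_q F
  have hu := mem_span_gen u
  induction hu using Submodule.span_induction with
  | zero => simp
  | add x y _ _ hx hy => rw [mul_add]; exact Submodule.add_mem _ hx hy
  | smul a x _ hx => rw [mul_smul_comm]; exact Submodule.smul_mem _ _ hx
  | mem x hx =>
    obtain ⟨b, v, α, hα, rfl⟩ := hx
    rw [← mul_assoc, ← mul_assoc, ← pow_succ']
    by_cases h1 : Fintype.card F - 1 ∣ b + 1
    · by_cases h2 : ∃ i, α i < Fintype.card F - 1
      · obtain ⟨i, hi⟩ := h2
        exact Submodule.mem_sup_right (red_mem (Nat.le_of_dvd (by omega) h1) v α i hi)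
      · push Not at h2
        obtain ⟨k, hk⟩ := h1
        obtain ⟨k, rfl⟩ : ∃ k', k = k' + 1 := ⟨k - 1, by
          rcases k with _ | k
          · simp at hk
          · simp⟩
        refine Submodule.mem_sup_left ⟨Finsupp.single k v, ?_⟩
        rw [Gam, Finsupp.lsum_single, hk, gam_apply]
        congr 1
        exact Finset.prod_congr rfl fun l _ => by rw [le_antisymm (hα l) (h2 l)]
    · exact Submodule.mem_sup_right (tor_mem h1 v α)

omit [Fintype F] in
lemma exists_rename_add (u : MvPolynomial (Fin (n + 1)) F) :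
    ∃ (u0 : MvPolynomial (Fin n) F) (u' : MvPolynomial (Fin (n + 1)) F),
      u = rename Fin.succ u0 + X 0 * u' := by
  induction u using MvPolynomial.induction_on with
  | C a => exact ⟨C a, 0, by simp⟩
  | add p r hp hr =>
    obtain ⟨a, b, rfl⟩ := hp
    obtain ⟨c, d, rfl⟩ := hr
    exact ⟨a + c, b + d, by simp only [map_add]; ring⟩
  | mul_X p k hp =>
    obtain ⟨a, b, rfl⟩ := hp
    refine Fin.cases ?_ (fun i => ?_) k
    · exact ⟨0, rename Fin.succ a + X 0 * b, by simp only [map_zero]; ring⟩
    · exact ⟨a * X i, b * X i.succ, by simp only [map_mul, rename_X]; ring⟩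

lemma exists_decomp (u : MvPolynomial (Fin (n + 1)) F) :
    ∃ (u0 : MvPolynomial (Fin n) F) (V : ℕ →₀ MvPolynomial (Fin n) F),
      u - rename Fin.succ u0 - Gam F n V ∈ IP F n := by
  obtain ⟨u0, u', rfl⟩ := exists_rename_add u
  obtain ⟨y, ⟨V, rfl⟩, z, hz, h⟩ := Submodule.mem_sup.mp (X_mul_mem u')
  refine ⟨u0, V, ?_⟩
  rw [← h]
  convert hz using 1
  ring

omit [Fintype F] in
lemma rename_mem_IP {v : MvPolynomial (Fin n) F} (hv : v ∈ IG F n) :
    rename Fin.succ v ∈ IP F n := by
  induction hv using Submodule.span_induction with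
  | zero => simp
  | add x y _ _ hx hy => rw [map_add]; exact Submodule.add_mem _ hx hy
  | smul a x _ hx => rw [map_smul]; exact Submodule.smul_mem _ _ hx
  | mem x hx =>
    obtain ⟨g, u, rfl⟩ := hx
    rw [map_sub, ← act_blk_rename]
    exact act_sub_mem_IP (blkGL g) (fun j => by simp [blkGL, blk]) _

lemma gam_mem_IP (b : ℕ) {v : MvPolynomial (Fin n) F} (hv : v ∈ IG F n) :
    gam F n b v ∈ IP F n := by
  classical
  have hq := one_lt_q F
  induction hv using Submodule.span_induction with
  | zero => simp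
  | add x y _ _ hx hy => rw [map_add]; exact Submodule.add_mem _ hx hy
  | smul a x _ hx => rw [map_smul]; exact Submodule.smul_mem _ _ hx
  | mem x hx =>
    obtain ⟨g, u, rfl⟩ := hx
    set E : MvPolynomial (Fin n) F := monomial (top n (Fintype.card F - 1)) 1 with hE
    have hE1 : rename Fin.succ E = ∏ l : Fin n, X l.succ ^ (Fintype.card F - 1) := by
      rw [hE, monomial_eq, Finsupp.prod_fintype _ _ (by simp)]
      simp
    have h1 := act_sub_mem_IP (blkGL g) (fun j => by simp [blkGL, blk]) (gam F n b u)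
    have h2 : act (blkGL g).val (gam F n b u) =
        X 0 ^ ((Fintype.card F - 1) * (b + 1)) * Yv F n (act g.val u) *
          rename Fin.succ (act g.val E) := by
      have h0 : (blkGL g).val = blk g.val := rfl
      rw [h0, gam_apply, ← hE1, map_mul, map_mul, map_pow, act_blk_zero, act_blk_Yv, act_blk_rename]
    have h3 : X 0 ^ ((Fintype.card F - 1) * (b + 1)) * Yv F n (act g.val u) *
          rename Fin.succ (act g.val E - E) ∈ IP F n := by
      set D := act g.val E - E with hD
      have hEh : E.IsWeightedHomogeneous (1 : Fin n → ℕ) (n * (Fintype.card F - 1)) := by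
        apply isWeightedHomogeneous_monomial
        rw [Finsupp.weight_apply, Finsupp.sum_fintype _ _ (by simp)]
        simp
      have hDh : D.IsWeightedHomogeneous (1 : Fin n → ℕ) (n * (Fintype.card F - 1)) :=
        (isWH_act _ hEh).sub hEh
      have hD0 : coeff (top n (Fintype.card F - 1)) D = 0 := by
        have := coeff_top_act 1 g E
        rw [pow_one] at this
        rw [hD, coeff_sub, this, sub_self]
      rw [D.as_sum, map_sum, Finset.mul_sum]
      refine Submodule.sum_mem _ fun α hα => ?_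
      have hα' := mem_support_iff.mp hα
      obtain ⟨i, hi⟩ : ∃ i, α i < Fintype.card F - 1 := by
        by_contra hc
        push Not at hc
        have hw := hDh hα'
        rw [Finsupp.weight_apply, Finsupp.sum_fintype _ _ (by simp)] at hw
        simp only [Pi.one_apply, smul_eq_mul, mul_one] at hw
        have : α = top n (Fintype.card F - 1) := by
          ext i
          rw [top_apply]
          have h5 : ∑ l : Fin n, (Fintype.card F - 1) = ∑ l, α l := by rw [hw]; simp
          exact ((Finset.sum_eq_sum_iff_of_le fun l _ => hc l).mp h5 i (mem_univ i)).symm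
        exact hα' (this ▸ hD0)
      rw [monomial_eq, Finsupp.prod_fintype _ _ (by simp), map_mul, rename_C, map_prod,
        ← smul_eq_C_mul, mul_smul_comm]
      simp only [map_pow, rename_X]
      exact Submodule.smul_mem _ _ (red_mem (Nat.le_mul_of_pos_right _ (by omega)) _ _ i hi)
    convert Submodule.sub_mem _ h1 h3 using 1
    rw [h2, gam_apply, gam_apply, ← hE1]
    simp only [map_sub]
    ring

end Red

end Pool.Agent.Work.MP_a1538a_al
end

-- merged part: Pool.Agent.Work.MP_a1538a_al.Coinv
section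
/-!
A polynomial whose sums over all `U^n` vanish lies in the augmentation submodule.
-/

set_option autoImplicit false

namespace Pool.Agent.Work.MP_a1538a_al

open Finset MvPolynomial

variable {F : Type*} [Field F] [Fintype F] {n : ℕ} {K : Type*} [Field K] [Algebra F K]

open Classical in
variable (F) in
/-- The `F`-span of a tuple, as a finset. -/
noncomputable def spanF (z : Fin n → K) : Finset K :=
  univ.image fun l : Fin n → F => ∑ i, l i • z i

lemma mem_spanF {z : Fin n → K} {x : K} : x ∈ spanF F z ↔ ∃ l : Fin n → F, ∑ i, l i • z i = x := by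
  simp [spanF]

lemma isSub_spanF (z : Fin n → K) : IsSub F (spanF F z) := by
  refine ⟨mem_spanF.mpr ⟨0, by simp⟩, fun x hx y hy => ?_, fun a x hx => ?_⟩
  · obtain ⟨l, rfl⟩ := mem_spanF.mp hx
    obtain ⟨l', rfl⟩ := mem_spanF.mp hy
    exact mem_spanF.mpr ⟨l + l', by simp [add_smul, Finset.sum_add_distrib]⟩
  · obtain ⟨l, rfl⟩ := mem_spanF.mp hx
    exact mem_spanF.mpr ⟨a • l, by simp [mul_smul, Finset.smul_sum]⟩

lemma self_mem_spanF (z : Fin n → K) (i : Fin n) : z i ∈ spanF F z :=
  mem_spanF.mpr ⟨Pi.single i 1, by simp [Pi.single_apply]⟩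

lemma spanF_subset {U : Finset K} (hU : IsSub F U) {z : Fin n → K}
    (hz : z ∈ Fintype.piFinset fun _ : Fin n => U) : spanF F z ⊆ U := by
  intro x hx
  obtain ⟨l, rfl⟩ := mem_spanF.mp hx
  exact hU.sum_mem _ _ fun i _ => hU.smul_mem _ _ (Fintype.mem_piFinset.mp hz i)

variable (K) in
/-- All sums over `U^n`, `U` spanned by `n` elements, vanish. -/
def Null (u : MvPolynomial (Fin n) F) : Prop :=
  ∀ y : Fin n → K, ∑ z ∈ Fintype.piFinset (fun _ : Fin n => spanF F y), aeval z u = 0

open Classical in
lemma Null.orbit {u : MvPolynomial (Fin n) F} (hu : Null K u) (V : Finset K) (hV : IsSub F V) :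
    ∑ z ∈ (Fintype.piFinset (fun _ : Fin n => V)).filter (fun z => spanF F z = V),
      aeval z u = 0 := by
  induction V using Finset.strongInduction with
  | H V ih =>
    by_cases h : ∃ y : Fin n → K, spanF F y = V
    · obtain ⟨y, hy⟩ := h
      have h1 := hu y
      rw [hy, ← Finset.sum_fiberwise_of_maps_to (t := V.powerset) (g := fun z => spanF F z)
        (fun z hz => Finset.mem_powerset.mpr (spanF_subset hV hz)),
        Finset.sum_eq_single V] at h1
      · exact h1
      · intro W hW hWV
        by_cases hs : IsSub F W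
        · have hWV' : W ⊆ V := Finset.mem_powerset.mp hW
          rw [← ih W (Finset.ssubset_iff_subset_ne.mpr ⟨hWV', hWV⟩) hs]
          refine Finset.sum_congr ?_ fun _ _ => rfl
          ext z
          simp only [Finset.mem_filter, Fintype.mem_piFinset]
          constructor
          · rintro ⟨_, h2⟩
            exact ⟨fun i => h2 ▸ self_mem_spanF z i, h2⟩
          · rintro ⟨h1, h2⟩
            exact ⟨fun i => hWV' (h1 i), h2⟩
        · refine Finset.sum_eq_zero fun z hz => ?_
          exact absurd ((Finset.mem_filter.mp hz).2 ▸ isSub_spanF z) hs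
      · intro h; exact absurd (Finset.mem_powerset_self V) h
    · refine Finset.sum_eq_zero fun z hz => ?_
      exact absurd ⟨z, (Finset.mem_filter.mp hz).2⟩ h

lemma Null.weighted {u : MvPolynomial (Fin n) F} (hu : Null K u) {U : Finset K} (hU : IsSub F U)
    (φ : Finset K → K) :
    ∑ z ∈ Fintype.piFinset (fun _ : Fin n => U), φ (spanF F z) * aeval z u = 0 := by
  classical
  rw [← Finset.sum_fiberwise_of_maps_to (t := U.powerset) (g := fun z => spanF F z)
    (fun z hz => Finset.mem_powerset.mpr (spanF_subset hU hz))]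
  refine Finset.sum_eq_zero fun W hW => ?_
  by_cases hs : IsSub F W
  · have hWU : W ⊆ U := Finset.mem_powerset.mp hW
    have h1 := congrArg (fun t => φ W * t) (hu.orbit W hs)
    simp only [Finset.mul_sum, mul_zero] at h1
    rw [← h1]
    refine Finset.sum_congr ?_ fun z hz => ?_
    · ext z
      simp only [Finset.mem_filter, Fintype.mem_piFinset]
      constructor
      · rintro ⟨_, h2⟩
        exact ⟨fun i => h2 ▸ self_mem_spanF z i, h2⟩
      · rintro ⟨h1, h2⟩
        exact ⟨fun i => hWU (h1 i), h2⟩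
    · rw [(Finset.mem_filter.mp hz).2]
  · refine Finset.sum_eq_zero fun z hz => ?_
    exact absurd ((Finset.mem_filter.mp hz).2 ▸ isSub_spanF z) hs

lemma Null.sum_eq_zero {u : MvPolynomial (Fin n) F} (hu : Null K u) {U : Finset K}
    (hU : IsSub F U) : ∑ z ∈ Fintype.piFinset (fun _ : Fin n => U), aeval z u = 0 := by
  simpa using hu.weighted hU (fun _ => 1)

open Classical in
lemma card_fiber (y : Fin n → K) (w : K) :
    #{l : Fin n → F | ∑ i, l i • y i = w} =
      if w ∈ spanF F y then Fintype.card F ^ n / #(spanF F y) else 0 := by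
  have h1 : ∀ w ∈ spanF F y, #{l : Fin n → F | ∑ i, l i • y i = w} =
      #{l : Fin n → F | ∑ i, l i • y i = 0} := by
    intro w hw
    obtain ⟨l0, rfl⟩ := mem_spanF.mp hw
    refine Finset.card_nbij' (fun l => l - l0) (fun l => l + l0) ?_ ?_ ?_ ?_
    · intro l hl
      simp only [coe_filter, mem_univ, true_and, Set.mem_ofPred_eq] at hl ⊢
      simp [sub_smul, Finset.sum_sub_distrib, hl]
    · intro l hl
      simp only [coe_filter, mem_univ, true_and, Set.mem_ofPred_eq] at hl ⊢
      simp [add_smul, Finset.sum_add_distrib, hl]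
    · intro l _; simp
    · intro l _; simp
  split_ifs with hw
  · have h2 := Finset.card_eq_sum_card_image (fun l : Fin n → F => ∑ i, l i • y i) univ
    have h3 : univ.image (fun l : Fin n → F => ∑ i, l i • y i) = spanF F y := by
      ext x; simp [spanF]
    rw [h3, Finset.sum_congr rfl h1, Finset.sum_const, smul_eq_mul, Finset.card_univ,
      Fintype.card_fun, Fintype.card_fin] at h2
    rw [h1 w hw, h2, Nat.mul_div_cancel_left _ (Finset.card_pos.mpr ⟨w, hw⟩)]
  · rw [Finset.card_eq_zero, Finset.filter_eq_empty_iff]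
    intro l _ hl
    exact hw (mem_spanF.mpr ⟨l, hl⟩)

open Classical in
lemma exists_transfer {u : MvPolynomial (Fin (n + 1)) F} (hu : Null K u) :
    ∃ u' : MvPolynomial (Fin (n + 1)) F, u' + u ∈ IG F (n + 1) ∧
      ∀ U : Finset K, IsSub F U → ∀ w : K,
        ∑ z ∈ (Fintype.piFinset (fun _ : Fin (n + 1) => U)).filter (fun z => z 0 = w),
          aeval z u' = 0 := by
  have hex : ∀ l : Fin (n + 1) → F, ∃ g : Matrix.GeneralLinearGroup (Fin (n + 1)) F,
      l ≠ 0 → ∀ j, (g⁻¹).val 0 j = l j := by
    intro l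
    by_cases h : l = 0
    · exact ⟨1, fun h' => absurd h h'⟩
    · obtain ⟨g, hg⟩ := exists_GL_inv_row l h
      exact ⟨g, fun _ => hg⟩
  choose g hg using hex
  refine ⟨∑ l ∈ univ.erase 0, act (g l).val u, ?_, fun U hU w => ?_⟩
  · have h1 := Submodule.sum_mem (IG F (n + 1)) (t := univ.erase 0)
      fun l _ => act_sub_mem_IG (g l) u
    convert h1 using 1
    rw [Finset.sum_sub_distrib, Finset.sum_const, Finset.card_erase_of_mem (mem_univ _),
      Finset.card_univ, Fintype.card_fun, Fintype.card_fin, ← Nat.cast_smul_eq_nsmul F,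
      Nat.cast_sub (Nat.one_le_pow _ _ Fintype.card_pos), Nat.cast_pow, Nat.cast_card_eq_zero]
    simp
  · simp only [map_sum]
    rw [Finset.sum_comm]
    have h2 : ∀ l ∈ (univ : Finset (Fin (n + 1) → F)).erase 0,
        ∑ z ∈ (Fintype.piFinset (fun _ : Fin (n + 1) => U)).filter (fun z => z 0 = w),
          aeval z (act (g l).val u) =
        ∑ y ∈ Fintype.piFinset (fun _ : Fin (n + 1) => U),
          if ∑ i, l i • y i = w then aeval y u else 0 := by
      intro l hl
      rw [← sum_mv (g l) _ (fun z hz => hU.mv_mem _ hz), Finset.sum_filter]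
      refine Finset.sum_congr rfl fun z _ => ?_
      have h3 : ∑ i, l i • mv (g l).val z i = z 0 := by
        have h4 : mv ((g l)⁻¹).val (mv (g l).val z) 0 = z 0 := by
          rw [← mv_mul]; simp
        rw [← h4]
        conv_rhs => rw [mv]
        exact Finset.sum_congr rfl fun i _ => by rw [hg l (Finset.ne_of_mem_erase hl)]
      rw [h3, aeval_act]
    rw [Finset.sum_congr rfl h2, Finset.sum_comm]
    refine Eq.trans (Finset.sum_congr rfl fun y _ => ?_) (hu.weighted hU
      (fun V => ((if w ∈ V then Fintype.card F ^ (n + 1) / #V else 0 : ℕ) : K) -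
      if 0 = w then 1 else 0))
    rw [Finset.sum_erase_eq_sub (mem_univ _), ← card_fiber, ← Finset.sum_filter,
      Finset.sum_const, sub_mul, nsmul_eq_mul]
    simp

variable (F) in
/-- Sum of the values over a finite set of points. -/
noncomputable def sumL (T : Finset (Fin n → K)) : MvPolynomial (Fin n) F →ₗ[F] K :=
  ∑ z ∈ T, (aeval z).toLinearMap

omit [Fintype F] in
lemma sumL_apply (T : Finset (Fin n → K)) (u : MvPolynomial (Fin n) F) :
    sumL F T u = ∑ z ∈ T, aeval z u := by
  simp [sumL, LinearMap.sum_apply]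

open Classical in
lemma sumL_IP {U : Finset K} (hU : IsSub F U) (W : K) {u : MvPolynomial (Fin (n + 1)) F}
    (hu : u ∈ IP F n) : sumL F ((Fintype.piFinset (fun _ : Fin (n + 1) => U)).filter
      (fun z => z 0 ^ (Fintype.card F - 1) = W)) u = 0 := by
  revert u
  change IP F n ≤ LinearMap.ker _
  rw [IP, Submodule.span_le]
  rintro _ ⟨g, u, hg, rfl⟩
  simp only [SetLike.mem_coe, LinearMap.mem_ker, map_sub, sumL_apply, aeval_act]
  rw [sum_mv g _ _ (fun z => aeval z u), sub_self]
  intro z hz
  rw [Finset.mem_filter] at hz ⊢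
  refine ⟨hU.mv_mem _ hz.1, ?_⟩
  have h0 : g.val 0 0 ≠ 0 := by
    intro h
    apply g.det_ne_zero
    exact Matrix.det_eq_zero_of_row_eq_zero 0 fun j => Fin.cases h (fun j' => hg j') j
  have h1 : mv g.val z 0 = g.val 0 0 • z 0 := by
    rw [mv, Fin.sum_univ_succ, Finset.sum_eq_zero, add_zero]
    intro j _
    rw [hg j, zero_smul]
  rw [h1, smul_pow, FiniteField.pow_card_sub_one_eq_one _ h0, one_smul, hz.2]

omit [Fintype F] [Algebra F K] in
open Classical in
lemma sum_split (U : Finset K) (p : K → Prop) (Φ : (Fin (n + 1) → K) → K) :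
    ∑ z ∈ (Fintype.piFinset (fun _ : Fin (n + 1) => U)).filter (fun z => p (z 0)), Φ z =
      ∑ w ∈ U.filter p, ∑ z' ∈ Fintype.piFinset (fun _ : Fin n => U), Φ (Fin.cons w z') := by
  rw [← Finset.sum_product']
  refine Finset.sum_nbij' (fun z => (z 0, Fin.tail z)) (fun x => Fin.cons x.1 x.2) ?_ ?_ ?_ ?_ ?_
  · intro z hz
    simp only [mem_filter, Fintype.mem_piFinset, mem_product] at hz ⊢
    exact ⟨⟨hz.1 0, hz.2⟩, fun i => hz.1 i.succ⟩
  · intro x hx
    simp only [mem_filter, Fintype.mem_piFinset, mem_product] at hx ⊢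
    exact ⟨fun i => Fin.cases hx.1.1 (fun i' => hx.2 i') i, hx.1.2⟩
  · intro z _; simp
  · intro x _; simp
  · intro z _; simp

lemma exists_of_pow_card_eq {x : K} (hx : x ^ Fintype.card F = x) :
    ∃ a : F, algebraMap F K a = x := by
  classical
  have hq := one_lt_q F
  have hm : (Polynomial.X ^ Fintype.card F - Polynomial.X : Polynomial F).Monic :=
    Polynomial.monic_X_pow_sub (by rw [Polynomial.degree_X]; exact_mod_cast hq)
  have h1 := Polynomial.prod_multiset_X_sub_C_of_monic_of_roots_card_eq hm (by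
    rw [FiniteField.roots_X_pow_card_sub_X, FiniteField.X_pow_card_sub_X_natDegree_eq F hq]
    rfl)
  rw [FiniteField.roots_X_pow_card_sub_X, ← Finset.prod_eq_multiset_prod] at h1
  have h2 := congrArg (Polynomial.aeval x) h1
  simp only [map_prod, map_sub, Polynomial.aeval_X, Polynomial.aeval_C, map_pow, hx,
    sub_self, Finset.prod_eq_zero_iff] at h2
  obtain ⟨a, _, ha⟩ := h2
  exact ⟨a, (sub_eq_zero.mp ha).symm⟩

lemma exists_smul_of_phi {w x : K} (hw : w ≠ 0)
    (hx : x ^ Fintype.card F - w ^ (Fintype.card F - 1) * x = 0) : ∃ a : F, x = a • w := by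
  have hq := one_lt_q F
  obtain ⟨a, ha⟩ := exists_of_pow_card_eq (F := F) (x := x / w) (by
    rw [div_pow, sub_eq_zero.mp hx]
    obtain ⟨r, hr⟩ : ∃ r, Fintype.card F = r + 1 := ⟨Fintype.card F - 1, by omega⟩
    rw [hr, Nat.add_sub_cancel]
    field_simp
    ring)
  exact ⟨a, by rw [Algebra.smul_def, ha, div_mul_cancel₀ _ hw]⟩

lemma phi_add_smul (w x : K) (a : F) :
    (x + a • w) ^ Fintype.card F - w ^ (Fintype.card F - 1) * (x + a • w) =
      x ^ Fintype.card F - w ^ (Fintype.card F - 1) * x := by
  rw [add_pow_q1 F, smul_pow_q1 F, mul_add, mul_smul_comm, ← pow_succ,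
    Nat.sub_add_cancel (one_lt_q F).le]
  ring

open Classical in
lemma exists_preimage [IsAlgClosed K] {w : K} (hw : w ≠ 0) {U' : Finset K} (hU' : IsSub F U') :
    ∃ U : Finset K, IsSub F U ∧ w ∈ U ∧ ∃ κ : K, κ ≠ 0 ∧ ∀ G : K → K,
      ∑ x ∈ U, G (x ^ Fintype.card F - w ^ (Fintype.card F - 1) * x) * x ^ (Fintype.card F - 1) =
        κ * ∑ y ∈ U', G y := by
  have hq := one_lt_q F
  have hs : ∀ y : K, ∃ x : K, x ^ Fintype.card F - w ^ (Fintype.card F - 1) * x = y := by
    intro y
    have hlt : (Polynomial.C (w ^ (Fintype.card F - 1)) * Polynomial.X + Polynomial.C y).degree <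
        (Polynomial.X ^ Fintype.card F : Polynomial K).degree := by
      rw [Polynomial.degree_X_pow]
      exact lt_of_le_of_lt Polynomial.degree_linear_le (by exact_mod_cast hq)
    obtain ⟨x, hx⟩ := IsAlgClosed.exists_root (Polynomial.X ^ Fintype.card F -
      (Polynomial.C (w ^ (Fintype.card F - 1)) * Polynomial.X + Polynomial.C y)) (by
        rw [Polynomial.degree_sub_eq_left_of_degree_lt hlt, Polynomial.degree_X_pow]
        exact_mod_cast (by omega : Fintype.card F ≠ 0))
    refine ⟨x, ?_⟩
    simp only [Polynomial.IsRoot.def, Polynomial.eval_sub, Polynomial.eval_pow, Polynomial.eval_X,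
      Polynomial.eval_add, Polynomial.eval_mul, Polynomial.eval_C] at hx
    linear_combination hx
  choose s hs using hs
  let ι : K × F → K := fun x => s x.1 + x.2 • w
  have hι : Function.Injective ι := by
    rintro ⟨y, a⟩ ⟨y', a'⟩ h
    have h1 : y = y' := by
      rw [← hs y, ← hs y', ← phi_add_smul w (s y) a, ← phi_add_smul w (s y') a']
      change ι (y, a) ^ _ - _ * ι (y, a) = ι (y', a') ^ _ - _ * ι (y', a')
      rw [h]
    subst h1
    have h2 : a • w = a' • w := add_left_cancel h
    rw [smul_left_injective F hw h2]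
  have hmem : ∀ x, x ∈ (U' ×ˢ univ).image ι ↔
      x ^ Fintype.card F - w ^ (Fintype.card F - 1) * x ∈ U' := by
    intro x
    rw [Finset.mem_image]
    constructor
    · rintro ⟨⟨y, a⟩, h, rfl⟩
      change (s y + a • w) ^ _ - _ * (s y + a • w) ∈ U'
      rw [phi_add_smul, hs]
      exact (Finset.mem_product.mp h).1
    · intro h
      set y := x ^ Fintype.card F - w ^ (Fintype.card F - 1) * x with hy
      obtain ⟨a, ha⟩ := exists_smul_of_phi (F := F) (x := x - s y) hw (by
        rw [sub_pow_q1 F]
        linear_combination - hs y - hy)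
      exact ⟨(y, a), by simpa using h, by simp only [ι]; rw [← ha]; ring⟩
  refine ⟨(U' ×ˢ univ).image ι, ⟨?_, ?_, ?_⟩, ?_,
    (-(-1 : F) ^ (Fintype.card F - 1)) • w ^ (Fintype.card F - 1), ?_, fun G => ?_⟩
  · rw [hmem, zero_pow (by omega), mul_zero, sub_zero]; exact hU'.zero_mem
  · intro x hx y hy
    rw [hmem] at hx hy ⊢
    convert hU'.add_mem _ hx _ hy using 1
    rw [add_pow_q1 F]; ring
  · intro a x hx
    rw [hmem] at hx ⊢
    convert hU'.smul_mem a _ hx using 1
    rw [smul_pow_q1 F, smul_sub, mul_smul_comm]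
  · rw [hmem, ← pow_succ, Nat.sub_add_cancel hq.le, sub_self]; exact hU'.zero_mem
  · exact smul_ne_zero (by simp) (pow_ne_zero _ hw)
  · rw [Finset.sum_image fun a _ b _ h => hι h, Finset.sum_product, Finset.mul_sum]
    refine Finset.sum_congr rfl fun y _ => ?_
    simp only [ι, phi_add_smul, hs]
    have := sum_shift (F := F) (s y) w (j := 0) (by omega)
    simp only [pow_zero, one_smul, Nat.sub_zero, one_mul] at this
    rw [← Finset.mul_sum, this, mul_comm]

lemma sum_phi {U U' : Finset K} {κ : K} {φ : K → K}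
    (h : ∀ G : K → K, ∑ x ∈ U, G (φ x) * x ^ (Fintype.card F - 1) = κ * ∑ y ∈ U', G y)
    (v : MvPolynomial (Fin n) F) :
    ∑ z ∈ Fintype.piFinset (fun _ : Fin n => U),
      aeval (fun i => φ (z i)) v * ∏ i, z i ^ (Fintype.card F - 1) =
    κ ^ n * ∑ y ∈ Fintype.piFinset (fun _ : Fin n => U'), aeval y v := by
  classical
  induction v using MvPolynomial.induction_on' with
  | monomial α a =>
    rw [sum_aeval_monomial]
    have h1 : ∏ i, (κ * ∑ y ∈ U', y ^ α i) = ∑ z ∈ Fintype.piFinset (fun _ : Fin n => U),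
        ∏ i, (φ (z i) ^ α i * z i ^ (Fintype.card F - 1)) := by
      rw [← Finset.prod_univ_sum (fun _ => U)
        (fun i x => φ x ^ α i * x ^ (Fintype.card F - 1))]
      exact Finset.prod_congr rfl fun i _ => (h (fun y => y ^ α i)).symm
    rw [Finset.prod_mul_distrib, Finset.prod_const, Finset.card_univ, Fintype.card_fin] at h1
    rw [mul_smul_comm, h1, Finset.smul_sum]
    refine Finset.sum_congr rfl fun z _ => ?_
    rw [aeval_monomial, Finsupp.prod_fintype _ _ (by simp), Algebra.smul_def,
      Finset.prod_mul_distrib, mul_assoc]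
  | add p r hp hr => simp only [map_add, add_mul, Finset.sum_add_distrib, hp, hr, mul_add]

lemma aeval_cons_gam (w : K) (z : Fin n → K) (b : ℕ) (v : MvPolynomial (Fin n) F) :
    aeval (Fin.cons w z : Fin (n + 1) → K) (gam F n b v) =
      (w ^ (Fintype.card F - 1)) ^ (b + 1) *
        (aeval (fun i => z i ^ Fintype.card F - w ^ (Fintype.card F - 1) * z i) v *
          ∏ i, z i ^ (Fintype.card F - 1)) := by
  rw [gam_apply, map_mul, map_mul, Yv, comp_aeval_apply]
  simp [pow_mul, mul_assoc]

omit [Fintype F] in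
lemma aeval_cons_rename (w : K) (z : Fin n → K) (v : MvPolynomial (Fin n) F) :
    aeval (Fin.cons w z : Fin (n + 1) → K) (rename Fin.succ v) = aeval z v := by
  rw [aeval_rename]; rfl

theorem mem_IG_of_null [IsAlgClosed K] {u : MvPolynomial (Fin n) F} (hu : Null K u) :
    u ∈ IG F n := by
  classical
  have hq := one_lt_q F
  induction n with
  | zero =>
    have h1 := hu 0
    rw [eq_C_of_isEmpty u] at h1 ⊢
    simp only [aeval_C, Finset.sum_const, Fintype.card_piFinset, Finset.univ_eq_empty,
      Finset.prod_empty, one_smul, map_eq_zero] at h1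
    rw [h1]; simp
  | succ n ih =>
    obtain ⟨u', hu', hnull⟩ := exists_transfer hu
    obtain ⟨u0, V, hV⟩ := exists_decomp u'
    have key : ∀ U : Finset K, IsSub F U → ∀ W : K,
        ∑ w ∈ U.filter (fun w => w ^ (Fintype.card F - 1) = W),
          ∑ z ∈ Fintype.piFinset (fun _ : Fin n => U), (aeval z u0 +
            ∑ b ∈ V.support, W ^ (b + 1) *
              (aeval (fun i => z i ^ Fintype.card F - W * z i) (V b) *
                ∏ i, z i ^ (Fintype.card F - 1))) = 0 := by
      intro U hU W
      have h1 := sumL_IP hU W hV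
      have h2 : sumL F ((Fintype.piFinset (fun _ : Fin (n + 1) => U)).filter
          (fun z => z 0 ^ (Fintype.card F - 1) = W)) u' = 0 := by
        rw [sumL_apply, sum_split U (fun w => w ^ (Fintype.card F - 1) = W)]
        refine Finset.sum_eq_zero fun w hw => ?_
        have h3 := hnull U hU w
        rw [sum_split U (fun x => x = w), Finset.sum_filter, Finset.sum_ite_eq',
          if_pos (Finset.mem_filter.mp hw).1] at h3
        exact h3
      rw [sub_sub, map_sub, h2, zero_sub, neg_eq_zero, sumL_apply,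
        sum_split U (fun w => w ^ (Fintype.card F - 1) = W)] at h1
      rw [← h1]
      refine Finset.sum_congr rfl fun w hw => Finset.sum_congr rfl fun z _ => ?_
      rw [map_add, aeval_cons_rename, Gam, Finsupp.lsum_apply, Finsupp.sum, map_sum]
      simp only [aeval_cons_gam, (Finset.mem_filter.mp hw).2]
    have hu0 : Null K u0 := by
      intro y
      have h1 := key _ (isSub_spanF y) 0
      have h2 : (spanF F y).filter (fun w => w ^ (Fintype.card F - 1) = 0) = {0} := by
        ext x
        simp only [mem_filter, mem_singleton, pow_eq_zero_iff (by omega : Fintype.card F - 1 ≠ 0)]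
        exact ⟨fun h => h.2, fun h => ⟨h ▸ (isSub_spanF y).zero_mem, h⟩⟩
      rw [h2] at h1
      simpa using h1
    have hVb : ∀ b, Null K (V b) := by
      intro b y
      let P : Polynomial K := ∑ b ∈ V.support, Polynomial.monomial b
        (∑ z ∈ Fintype.piFinset (fun _ : Fin n => spanF F y), aeval z (V b))
      have hP : P = 0 := by
        apply Polynomial.eq_zero_of_infinite_isRoot
        refine Set.Infinite.mono (s := ({0} : Set K)ᶜ) ?_ (Set.finite_singleton 0).infinite_compl
        intro W hW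
        obtain ⟨w, rfl⟩ := IsAlgClosed.exists_pow_nat_eq W (by omega : 0 < Fintype.card F - 1)
        have hw : w ≠ 0 := by
          rintro rfl
          exact hW (zero_pow (by omega))
        obtain ⟨U, hU, hwU, κ, hκ, hG⟩ := exists_preimage (F := F) hw (isSub_spanF y)
        have h1 := key U hU (w ^ (Fintype.card F - 1))
        rw [Finset.sum_const, Finset.sum_add_distrib, hu0.sum_eq_zero hU, zero_add,
          Finset.sum_comm] at h1
        simp only [← Finset.mul_sum, sum_phi hG] at h1
        have h2 : U.filter (fun x => x ^ (Fintype.card F - 1) = w ^ (Fintype.card F - 1)) =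
            (univ.erase (0 : F)).image (fun a => a • w) := by
          ext x
          simp only [mem_filter, mem_image, mem_erase, mem_univ, and_true]
          constructor
          · rintro ⟨_, h⟩
            obtain ⟨a, ha⟩ := exists_smul_of_phi (F := F) (x := x) hw (by
              rw [← h, ← pow_succ, Nat.sub_add_cancel hq.le, sub_self])
            refine ⟨a, ?_, ha.symm⟩
            rintro rfl
            rw [ha, zero_smul, zero_pow (by omega)] at h
            exact pow_ne_zero _ hw h.symm
          · rintro ⟨a, ha, rfl⟩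
            exact ⟨hU.smul_mem _ _ hwU, by
              rw [smul_pow, FiniteField.pow_card_sub_one_eq_one _ ha, one_smul]⟩
        have h0 : ((Fintype.card F : ℕ) : K) = 0 := by
          rw [← map_natCast (algebraMap F K), Nat.cast_card_eq_zero, map_zero]
        rw [h2, Finset.card_image_of_injective _ (smul_left_injective F hw),
          Finset.card_erase_of_mem (mem_univ _), Finset.card_univ, nsmul_eq_mul,
          Nat.cast_sub hq.le, h0, mul_eq_zero] at h1
        have h3 := h1.resolve_left (by simp)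
        have h4 : w ^ (Fintype.card F - 1) * κ ^ n * P.eval (w ^ (Fintype.card F - 1)) = 0 := by
          rw [← h3]
          simp only [P, Polynomial.eval_finsetSum, Polynomial.eval_monomial, Finset.mul_sum]
          exact Finset.sum_congr rfl fun b _ => by
            simp only [← Finset.mul_sum]; ring
        exact (mul_eq_zero.mp h4).resolve_left
          (mul_ne_zero (pow_ne_zero _ hw) (pow_ne_zero _ hκ))
      by_cases hb : b ∈ V.support
      · have := congrArg (fun p => Polynomial.coeff p b) hP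
        simpa [P, Polynomial.finsetSum_coeff, Polynomial.coeff_monomial, hb,
          Finsupp.mem_support_iff.mp hb] using this
      · simp [Finsupp.notMem_support_iff.mp hb]
    have h1 : u' ∈ IP F n := by
      have h2 : Gam F n V ∈ IP F n := by
        rw [Gam, Finsupp.lsum_apply, Finsupp.sum]
        exact Submodule.sum_mem _ fun b _ => gam_mem_IP b (ih (hVb b))
      have := Submodule.add_mem _ (Submodule.add_mem _ hV h2) (rename_mem_IP (ih hu0))
      simpa using this
    simpa using Submodule.sub_mem _ hu' (IP_le_IG h1)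

end Pool.Agent.Work.MP_a1538a_al
end

-- merged part: Pool.Agent.Work.MP_a1538a_al.Hilb
section
/-!
Hilbert functions of quotients of weighted polynomial rings; freeness over a homogeneous system
of parameters whose quotient is spanned by a box of monomials.
-/

set_option autoImplicit false

namespace Pool.Agent.Work.MP_a1538a_al

open Finset MvPolynomial Module

section LinAlg

variable {F : Type*} [Field F] {V W W' : Type*} [AddCommGroup V] [Module F V]
  [AddCommGroup W] [Module F W] [AddCommGroup W'] [Module F W']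

lemma finrank_map_eq_of_ker (f : V →ₗ[F] W) (g : V →ₗ[F] W') (N : Submodule F V)
    [FiniteDimensional F N] (h : ∀ x ∈ N, f x = 0 ↔ g x = 0) :
    finrank F (N.map f) = finrank F (N.map g) := by
  have h1 := LinearMap.finrank_range_add_finrank_ker (f.domRestrict N)
  have h2 := LinearMap.finrank_range_add_finrank_ker (g.domRestrict N)
  have h3 : LinearMap.ker (f.domRestrict N) = LinearMap.ker (g.domRestrict N) := by
    ext x
    simpa using h x.1 x.2
  rw [LinearMap.range_domRestrict] at h1 h2
  rw [h3] at h1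
  omega

/-- A product of submodules as a product of types. -/
def piSubEquiv {ι : Type*} {M : ι → Type*} [∀ i, AddCommGroup (M i)] [∀ i, Module F (M i)]
    (N : ∀ i, Submodule F (M i)) : Submodule.pi Set.univ N ≃ₗ[F] ∀ i, N i where
  toFun x i := ⟨x.1 i, x.2 i trivial⟩
  map_add' _ _ := rfl
  map_smul' _ _ := rfl
  invFun x := ⟨fun i => x i, fun i _ => (x i).2⟩
  left_inv _ := rfl
  right_inv _ := rfl

lemma finrank_pi_sub {ι : Type*} [Fintype ι] {M : ι → Type*} [∀ i, AddCommGroup (M i)]
    [∀ i, Module F (M i)] (N : ∀ i, Submodule F (M i)) [∀ i, FiniteDimensional F (N i)] :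
    finrank F (Submodule.pi Set.univ N) = ∑ i, finrank F (N i) := by
  rw [(piSubEquiv N).finrank_eq, Module.finrank_pi_fintype]

instance finite_pi_sub {ι : Type*} [Finite ι] {M : ι → Type*} [∀ i, AddCommGroup (M i)]
    [∀ i, Module F (M i)] (N : ∀ i, Submodule F (M i)) [∀ i, FiniteDimensional F (N i)] :
    FiniteDimensional F (Submodule.pi Set.univ N) :=
  (piSubEquiv N).symm.finiteDimensional

lemma map_piMap {ι : Type*} {M M' : ι → Type*} [∀ i, AddCommGroup (M i)]
    [∀ i, Module F (M i)] [∀ i, AddCommGroup (M' i)] [∀ i, Module F (M' i)]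
    (f : ∀ i, M i →ₗ[F] M' i) (N : ∀ i, Submodule F (M i)) :
    (Submodule.pi Set.univ N).map (LinearMap.pi fun i => (f i).comp (LinearMap.proj i)) =
      Submodule.pi Set.univ fun i => (N i).map (f i) := by
  ext y
  simp only [Submodule.mem_map, Submodule.mem_pi, Set.mem_univ, forall_true_left]
  constructor
  · rintro ⟨x, hx, rfl⟩ i
    exact ⟨x i, hx i, rfl⟩
  · intro h
    choose x hx hy using h
    exact ⟨x, hx, funext hy⟩

end LinAlg

section Graded

variable {F : Type*} [Field F] {σ τ : Type*}

lemma comp_mul {w : σ → ℕ} {θ : MvPolynomial σ F} {k : ℕ} (hθ : θ.IsWeightedHomogeneous w k)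
    (v : MvPolynomial σ F) (d : ℕ) :
    weightedHomogeneousComponent w d (v * θ) =
      if k ≤ d then weightedHomogeneousComponent w (d - k) v * θ else 0 := by
  induction v using MvPolynomial.induction_on' with
  | monomial α a =>
    have h1 := isWeightedHomogeneous_monomial w α a rfl
    rw [weightedHomogeneousComponent_of_mem (h1.mul hθ), weightedHomogeneousComponent_of_mem h1]
    split_ifs with h2 h3 h4 h5 h6
    all_goals first | rfl | omega
  | add p r hp hr =>
    rw [add_mul, map_add, hp, hr, map_add]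
    split_ifs
    · ring
    · simp

lemma comp_aeval {w : σ → ℕ} {w' : τ → ℕ} {θ : σ → MvPolynomial τ F}
    (hθ : ∀ i, (θ i).IsWeightedHomogeneous w' (w i)) (v : MvPolynomial σ F) (d : ℕ) :
    weightedHomogeneousComponent w' d (aeval θ v) =
      aeval θ (weightedHomogeneousComponent w d v) := by
  induction v using MvPolynomial.induction_on' with
  | monomial α a =>
    have h1 := isWeightedHomogeneous_monomial w α a rfl
    rw [weightedHomogeneousComponent_of_mem (isWH_aeval hθ h1),
      weightedHomogeneousComponent_of_mem h1]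
    split_ifs <;> simp
  | add p r hp hr => simp only [map_add, hp, hr]

lemma eq_zero_of_comp {w : σ → ℕ} {v : MvPolynomial σ F}
    (h : ∀ d, weightedHomogeneousComponent w d v = 0) : v = 0 := by
  ext β
  have := congrArg (coeff β) (h (Finsupp.weight w β))
  rwa [coeff_weightedHomogeneousComponent, if_pos rfl] at this

variable (F) in
/-- The homogeneous piece of degree `d - s`, or zero if `d < s`. -/
noncomputable def Csh (w : σ → ℕ) (s d : ℕ) : Submodule F (MvPolynomial σ F) :=
  if s ≤ d then weightedHomogeneousSubmodule F w (d - s) else ⊥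

lemma mem_Csh {w : σ → ℕ} {s d : ℕ} {p : MvPolynomial σ F} :
    p ∈ Csh F w s d ↔ (s ≤ d ∧ p.IsWeightedHomogeneous w (d - s)) ∨ p = 0 := by
  unfold Csh
  split_ifs with h
  · simp only [mem_weightedHomogeneousSubmodule, h, true_and]
    exact ⟨Or.inl, fun h => h.elim id fun h => h ▸ isWeightedHomogeneous_zero _ _ _⟩
  · simp [h]

lemma finite_WH [Finite σ] {w : σ → ℕ} (hw : ∀ i, w i ≠ 0) (d : ℕ) :
    FiniteDimensional F (weightedHomogeneousSubmodule F w d) :=
  Module.Finite.iff_fg.mpr (weightedHomogeneousSubmodule_fg F w hw d)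

lemma finite_Csh [Finite σ] {w : σ → ℕ} (hw : ∀ i, w i ≠ 0) (s d : ℕ) :
    FiniteDimensional F (Csh F w s d) := by
  by_cases h : s ≤ d
  · rw [Csh, if_pos h]; exact finite_WH hw _
  · rw [Csh, if_neg h]; infer_instance

/-- The Hilbert function of a quotient of a weighted polynomial ring. -/
noncomputable def hf (w : σ → ℕ) (I : Ideal (MvPolynomial σ F)) (d : ℕ) : ℕ :=
  finrank F ((weightedHomogeneousSubmodule F w d).map (Ideal.Quotient.mkₐ F I).toLinearMap)

lemma finrank_map_Csh (w : σ → ℕ) (I : Ideal (MvPolynomial σ F)) (s d : ℕ) :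
    finrank F ((Csh F w s d).map (Ideal.Quotient.mkₐ F I).toLinearMap) =
      if s ≤ d then hf w I (d - s) else 0 := by
  by_cases h : s ≤ d
  · rw [Csh, if_pos h, if_pos h]; rfl
  · rw [Csh, if_neg h, if_neg h]; simp

lemma hf_top (w : σ → ℕ) (d : ℕ) : hf w (⊤ : Ideal (MvPolynomial σ F)) d = 0 := by
  rw [hf, Module.finrank_zero_of_subsingleton]

lemma hf_irrelevant [Finite σ] {w : σ → ℕ} (hw : ∀ i, w i ≠ 0) (d : ℕ) :
    hf w (Ideal.span (Set.range (X : σ → MvPolynomial σ F))) d = if d = 0 then 1 else 0 := by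
  classical
  have := finite_WH (F := F) hw d
  rw [hf, finrank_map_eq_of_ker _ (lcoeff F 0)]
  · split_ifs with h
    · subst h
      have : (weightedHomogeneousSubmodule F w 0).map (lcoeff F (0 : σ →₀ ℕ)) = ⊤ := by
        rw [eq_top_iff]
        intro a _
        exact ⟨C a, isWeightedHomogeneous_C _ _, by simp⟩
      rw [this]; simp
    · have : (weightedHomogeneousSubmodule F w d).map (lcoeff F (0 : σ →₀ ℕ)) = ⊥ := by
        rw [eq_bot_iff]
        rintro _ ⟨p, hp, rfl⟩
        exact IsWeightedHomogeneous.coeff_eq_zero hp 0 (by simpa using Ne.symm h)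
      rw [this]; simp
  · intro p _
    simp only [AlgHom.toLinearMap_apply, Ideal.Quotient.mkₐ_eq_mk, Ideal.Quotient.eq_zero_iff_mem,
      lcoeff_apply]
    rw [← Set.image_univ, mem_ideal_span_X_image]
    constructor
    · intro h
      by_contra hc
      obtain ⟨i, _, hi⟩ := h 0 (mem_support_iff.mpr hc)
      simp at hi
    · intro h m hm
      by_contra hc
      push Not at hc
      have : m = 0 := by ext i; simpa using hc i trivial
      exact mem_support_iff.mp hm (this ▸ h)

end Graded

section Box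

variable {F : Type*} [Field F] {j : ℕ}

/-- Exponent vectors in a box. -/
abbrev Box (e : Fin j → ℕ) := (i : Fin j) → Fin (e i)

/-- Weighted degree of a box monomial. -/
def bdeg (w : Fin j → ℕ) {e : Fin j → ℕ} (a : Box e) : ℕ := ∑ i, (a i : ℕ) * w i

variable (F) in
/-- A box monomial. -/
noncomputable def bmon {e : Fin j → ℕ} (a : Box e) : MvPolynomial (Fin j) F :=
  ∏ i, X i ^ (a i : ℕ)

lemma isWH_bmon (w : Fin j → ℕ) {e : Fin j → ℕ} (a : Box e) :
    (bmon F a).IsWeightedHomogeneous w (bdeg w a) :=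
  IsWeightedHomogeneous.prod _ _ _ fun i _ => (isWeightedHomogeneous_X F w i).pow _

/-- The map `(p_a) ↦ ∑ p_a(θ) x^a`. -/
noncomputable def Phi (e : Fin j → ℕ) (θ : Fin j → MvPolynomial (Fin j) F) :
    (Box e → MvPolynomial (Fin j) F) →ₗ[F] MvPolynomial (Fin j) F where
  toFun p := ∑ a, aeval θ (p a) * bmon F a
  map_add' p r := by simp [add_mul, Finset.sum_add_distrib]
  map_smul' c p := by simp [Finset.smul_sum]

lemma Phi_apply (e : Fin j → ℕ) (θ : Fin j → MvPolynomial (Fin j) F)
    (p : Box e → MvPolynomial (Fin j) F) : Phi e θ p = ∑ a, aeval θ (p a) * bmon F a := rfl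

lemma Phi_mul (e : Fin j → ℕ) (θ : Fin j → MvPolynomial (Fin j) F)
    (p : Box e → MvPolynomial (Fin j) F) (x : MvPolynomial (Fin j) F) :
    Phi e θ (fun a => p a * x) = Phi e θ p * aeval θ x := by
  simp only [Phi_apply, map_mul, Finset.sum_mul]
  exact Finset.sum_congr rfl fun a _ => by ring

lemma Phi_single (e : Fin j → ℕ) (θ : Fin j → MvPolynomial (Fin j) F) (a : Box e) :
    Phi e θ (Pi.single a 1) = bmon F a := by
  rw [Phi_apply, Finset.sum_eq_single a]
  · simp
  · intro b _ hb; simp [Pi.single_eq_of_ne hb]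
  · simp

variable (F) in
/-- Degree `d` part of the source of `Phi`. -/
noncomputable def Pd (w e : Fin j → ℕ) (d : ℕ) : Submodule F (Box e → MvPolynomial (Fin j) F) :=
  Submodule.pi Set.univ fun a => Csh F (fun i => e i * w i) (bdeg w a) d

variable {w e : Fin j → ℕ} {θ : Fin j → MvPolynomial (Fin j) F}

lemma Phi_mem (hθ : ∀ i, (θ i).IsWeightedHomogeneous w (e i * w i)) {d : ℕ}
    {p : Box e → MvPolynomial (Fin j) F} (hp : p ∈ Pd F w e d) :
    Phi e θ p ∈ weightedHomogeneousSubmodule F w d := by
  refine IsWeightedHomogeneous.sum _ _ _ fun a _ => ?_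
  rcases mem_Csh.mp (hp a trivial) with ⟨h1, h2⟩ | h
  · exact isWH_congr ((isWH_aeval hθ h2).mul (isWH_bmon w a)) (by omega)
  · rw [h]; simpa using isWeightedHomogeneous_zero _ _ _

/-- The quotient by `θ` is spanned by the box monomials. -/
def Spans (e : Fin j → ℕ) (θ : Fin j → MvPolynomial (Fin j) F) : Prop :=
  ∀ u : MvPolynomial (Fin j) F, ∃ b ∈ Submodule.span F (Set.range (bmon F (e := e))),
    u - b ∈ Ideal.span (Set.range θ)

lemma mem_map_Phi (hw : ∀ i, w i ≠ 0) (he : ∀ i, e i ≠ 0)
    (hθ : ∀ i, (θ i).IsWeightedHomogeneous w (e i * w i)) (hs : Spans e θ) (d : ℕ) :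
    weightedHomogeneousSubmodule F w d ≤ (Pd F w e d).map (Phi e θ) := by
  induction d using Nat.strong_induction_on with
  | _ d ih =>
    intro u hu
    obtain ⟨b, hb, hub⟩ := hs u
    obtain ⟨β, rfl⟩ := (Submodule.mem_span_range_iff_exists_fun F).mp hb
    obtain ⟨v, hv⟩ := Ideal.mem_span_range_iff_exists_fun.mp hub
    have h1 : u = ∑ a, β a • bmon F a + ∑ i, v i * θ i := by rw [hv]; ring
    rw [← weightedHomogeneousComponent_eq_self hu, h1, map_add, map_sum, map_sum]
    refine Submodule.add_mem _ (Submodule.sum_mem _ fun a _ => ?_)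
      (Submodule.sum_mem _ fun i _ => ?_)
    · rw [map_smul, weightedHomogeneousComponent_of_mem (isWH_bmon w a)]
      refine Submodule.smul_mem _ _ ?_
      split_ifs with h
      · refine ⟨Pi.single a 1, fun a' _ => ?_, Phi_single e θ a⟩
        by_cases ha : a' = a
        · subst ha
          refine mem_Csh.mpr (Or.inl ⟨h.ge, ?_⟩)
          rw [Pi.single_eq_same]
          exact isWH_congr (isWeightedHomogeneous_one _ _) (by omega)
        · exact mem_Csh.mpr (Or.inr (Pi.single_eq_of_ne ha _))
      · exact Submodule.zero_mem _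
    · rw [comp_mul (hθ i)]
      split_ifs with h
      · have hpos : 0 < e i * w i := Nat.mul_pos (Nat.pos_of_ne_zero (he i))
          (Nat.pos_of_ne_zero (hw i))
        obtain ⟨p, hp, hp'⟩ := ih (d - e i * w i) (by omega)
          (weightedHomogeneousComponent_mem w (v i) _)
        refine ⟨fun a => p a * X i, fun a _ => ?_, by rw [Phi_mul, hp', aeval_X]⟩
        rcases mem_Csh.mp (hp a trivial) with ⟨h1, h2⟩ | h
        · refine mem_Csh.mpr (Or.inl ⟨by omega, ?_⟩)
          exact isWH_congr (h2.mul (isWeightedHomogeneous_X F _ i)) (by omega)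
        · exact mem_Csh.mpr (Or.inr (by simp [h]))
      · exact Submodule.zero_mem _

lemma map_Phi_Pd (hw : ∀ i, w i ≠ 0) (he : ∀ i, e i ≠ 0)
    (hθ : ∀ i, (θ i).IsWeightedHomogeneous w (e i * w i)) (hs : Spans e θ) (d : ℕ) :
    (Pd F w e d).map (Phi e θ) = weightedHomogeneousSubmodule F w d :=
  le_antisymm (by rintro _ ⟨p, hp, rfl⟩; exact Phi_mem hθ hp) (mem_map_Phi hw he hθ hs d)

lemma finite_Pd (hw : ∀ i, w i ≠ 0) (he : ∀ i, e i ≠ 0) (d : ℕ) :
    FiniteDimensional F (Pd F w e d) := by
  have := fun a : Box e => finite_Csh (F := F) (w := fun i => e i * w i)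
    (fun i => Nat.mul_ne_zero (he i) (hw i)) (bdeg w a) d
  unfold Pd
  infer_instance

lemma spans_pow (e : Fin j → ℕ) :
    Spans e (fun i => (X i : MvPolynomial (Fin j) F) ^ e i) := by
  classical
  intro u
  induction u using MvPolynomial.induction_on' with
  | monomial α a =>
    by_cases h : ∀ i, α i < e i
    · refine ⟨monomial α a, ?_, by simp⟩
      rw [monomial_eq, Finsupp.prod_fintype _ _ (by simp), ← smul_eq_C_mul]
      exact Submodule.smul_mem _ _ (Submodule.subset_span ⟨fun i => ⟨α i, h i⟩, rfl⟩)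
    · push Not at h
      obtain ⟨i, hi⟩ := h
      refine ⟨0, Submodule.zero_mem _, ?_⟩
      have : monomial α a = monomial (α - Finsupp.single i (e i)) a * X i ^ e i := by
        rw [X_pow_eq_monomial, monomial_mul, mul_one, tsub_add_cancel_of_le]
        exact Finsupp.single_le_iff.mpr hi
      rw [sub_zero, this]
      exact Ideal.mul_mem_left _ _ (Ideal.subset_span ⟨i, rfl⟩)
  | add p r hp hr =>
    obtain ⟨b, hb, h⟩ := hp
    obtain ⟨b', hb', h'⟩ := hr
    refine ⟨b + b', Submodule.add_mem _ hb hb', ?_⟩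
    convert Ideal.add_mem _ h h' using 1
    ring

lemma Phi_pow_injective (e : Fin j → ℕ) :
    Function.Injective (Phi e (fun i => (X i : MvPolynomial (Fin j) F) ^ e i)) := by
  classical
  let κ : Box e → (Fin j →₀ ℕ) → (Fin j →₀ ℕ) := fun a β =>
    Finsupp.equivFunOnFinite.symm fun i => e i * β i + a i
  have hκ : ∀ a a' β β', κ a' β' = κ a β → a' = a ∧ β' = β := by
    intro a a' β β' h
    have h1 : ∀ i, e i * β' i + a' i = e i * β i + a i := fun i => by
      simpa [κ] using DFunLike.congr_fun h i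
    have h2 : ∀ i, a' i = a i := fun i => by
      have := congrArg (· % e i) (h1 i)
      simp only [Nat.mul_add_mod, Nat.mod_eq_of_lt (a i).2, Nat.mod_eq_of_lt (a' i).2] at this
      exact Fin.ext this
    refine ⟨funext h2, Finsupp.ext fun i => ?_⟩
    have h3 := h1 i
    rw [h2 i, Nat.add_right_cancel_iff] at h3
    exact Nat.eq_of_mul_eq_mul_left (a i).pos h3
  have h1 : ∀ (a : Box e) (β : Fin j →₀ ℕ) (c : F),
      aeval (fun i => (X i : MvPolynomial (Fin j) F) ^ e i) (monomial β c) * bmon F a =
        monomial (κ a β) c := by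
    intro a β c
    rw [aeval_monomial, monomial_eq, Finsupp.prod_fintype _ _ (by simp),
      Finsupp.prod_fintype _ _ (by simp), bmon, algebraMap_eq, mul_assoc,
      ← Finset.prod_mul_distrib]
    congr 1
    exact Finset.prod_congr rfl fun i _ => by simp [κ, pow_add, pow_mul]
  have h2 : ∀ (a a' : Box e) (β : Fin j →₀ ℕ) (v : MvPolynomial (Fin j) F),
      coeff (κ a β) (aeval (fun i => (X i : MvPolynomial (Fin j) F) ^ e i) v * bmon F a') =
        if a' = a then coeff β v else 0 := by
    intro a a' β v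
    induction v using MvPolynomial.induction_on' with
    | monomial β' c =>
      rw [h1, coeff_monomial, coeff_monomial]
      by_cases h : κ a' β' = κ a β
      · obtain ⟨rfl, rfl⟩ := hκ _ _ _ _ h
        simp
      · rw [if_neg h]
        split_ifs with h3 h4
        · subst h3 h4; exact absurd rfl h
        · rfl
        · rfl
    | add p r hp hr =>
      rw [map_add, add_mul, coeff_add, hp, hr]
      split_ifs <;> simp
  rw [injective_iff_map_eq_zero]
  intro p hp
  ext a β
  have := congrArg (coeff (κ a β)) hp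
  rw [Phi_apply, coeff_sum] at this
  simp only [h2] at this
  simpa using this

lemma finrank_Pd (hw : ∀ i, w i ≠ 0) (he : ∀ i, e i ≠ 0) (d : ℕ) :
    finrank F (Pd F w e d) = finrank F (weightedHomogeneousSubmodule F w d) := by
  rw [← map_Phi_Pd hw he (fun i => by
    simpa using (isWeightedHomogeneous_X F w i).pow (e i)) (spans_pow e) d]
  exact LinearEquiv.finrank_eq (Submodule.equivMapOfInjective _ (Phi_pow_injective e) _)

lemma Phi_injective (hw : ∀ i, w i ≠ 0) (he : ∀ i, e i ≠ 0)
    (hθ : ∀ i, (θ i).IsWeightedHomogeneous w (e i * w i)) (hs : Spans e θ) :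
    Function.Injective (Phi e θ) := by
  have h1 : ∀ d, ∀ p ∈ Pd F w e d, Phi e θ p = 0 → p = 0 := by
    intro d p hp h0
    have := finite_Pd (F := F) hw he d
    have h2 := LinearMap.finrank_range_add_finrank_ker ((Phi e θ).domRestrict (Pd F w e d))
    rw [LinearMap.range_domRestrict, map_Phi_Pd hw he hθ hs, finrank_Pd hw he,
      Nat.add_eq_left, Submodule.finrank_eq_zero] at h2
    have h3 : (⟨p, hp⟩ : Pd F w e d) ∈ LinearMap.ker ((Phi e θ).domRestrict (Pd F w e d)) := h0
    rw [h2] at h3
    simpa using h3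
  rw [injective_iff_map_eq_zero]
  intro p hp
  funext a
  refine eq_zero_of_comp (w := fun i => e i * w i) fun k => ?_
  have h2 := h1 (k + bdeg w a) (fun a' => if bdeg w a' ≤ k + bdeg w a then
    weightedHomogeneousComponent (fun i => e i * w i) (k + bdeg w a - bdeg w a') (p a') else 0)
    (fun a' _ => by
      rw [SetLike.mem_coe, mem_Csh]
      by_cases h : bdeg w a' ≤ k + bdeg w a
      · simp only [h, if_true]
        exact Or.inl ⟨trivial, weightedHomogeneousComponent_mem _ _ _⟩
      · simp [h]) (by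
      have h3 := congrArg (weightedHomogeneousComponent w (k + bdeg w a)) hp
      rw [Phi_apply, map_sum, map_zero] at h3
      rw [Phi_apply]
      refine Eq.trans (Finset.sum_congr rfl fun a' _ => ?_) h3
      rw [comp_mul (isWH_bmon w a'), comp_aeval hθ]
      split_ifs <;> simp)
  simpa using congrFun h2 a

lemma Phi_surjective (hw : ∀ i, w i ≠ 0) (he : ∀ i, e i ≠ 0)
    (hθ : ∀ i, (θ i).IsWeightedHomogeneous w (e i * w i)) (hs : Spans e θ) :
    Function.Surjective (Phi e θ) := by
  rw [← LinearMap.range_eq_top, eq_top_iff]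
  intro u _
  induction u using MvPolynomial.induction_on' with
  | monomial α a =>
    obtain ⟨p, _, hp⟩ := mem_map_Phi hw he hθ hs _ (isWeightedHomogeneous_monomial w α a rfl)
    exact ⟨p, hp⟩
  | add p r hp hr => exact Submodule.add_mem _ (hp trivial) (hr trivial)

lemma Phi_mem_map_iff (hw : ∀ i, w i ≠ 0) (he : ∀ i, e i ≠ 0)
    (hθ : ∀ i, (θ i).IsWeightedHomogeneous w (e i * w i)) (hs : Spans e θ)
    (I : Ideal (MvPolynomial (Fin j) F)) (p : Box e → MvPolynomial (Fin j) F) :
    Phi e θ p ∈ I.map (aeval θ) ↔ ∀ a, p a ∈ I := by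
  constructor
  · intro h
    have key : ∀ y ∈ I.map (aeval θ), ∀ z, ∃ p' : Box e → MvPolynomial (Fin j) F,
        (∀ a, p' a ∈ I) ∧ Phi e θ p' = z * y := by
      intro y hy
      induction hy using Submodule.span_induction with
      | zero => exact fun z => ⟨0, fun _ => I.zero_mem, by simp⟩
      | add x y _ _ hx hy =>
        intro z
        obtain ⟨p1, h1, h1'⟩ := hx z
        obtain ⟨p2, h2, h2'⟩ := hy z
        exact ⟨p1 + p2, fun a => I.add_mem (h1 a) (h2 a), by rw [map_add, h1', h2', mul_add]⟩
      | smul a x _ hx =>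
        intro z
        obtain ⟨p1, h1, h1'⟩ := hx (z * a)
        exact ⟨p1, h1, by rw [h1', smul_eq_mul, mul_assoc]⟩
      | mem x hx =>
        intro z
        obtain ⟨x, hx, rfl⟩ := hx
        obtain ⟨p1, rfl⟩ := Phi_surjective hw he hθ hs z
        exact ⟨fun a => p1 a * x, fun a => I.mul_mem_left _ hx, Phi_mul _ _ _ _⟩
    obtain ⟨p', h1, h2⟩ := key _ h 1
    rw [one_mul] at h2
    rw [← Phi_injective hw he hθ hs h2]
    exact h1
  · intro h
    exact Ideal.sum_mem _ fun a _ => Ideal.mul_mem_right _ _ (Ideal.mem_map_of_mem _ (h a))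

lemma hf_map (hw : ∀ i, w i ≠ 0) (he : ∀ i, e i ≠ 0)
    (hθ : ∀ i, (θ i).IsWeightedHomogeneous w (e i * w i)) (hs : Spans e θ)
    (I : Ideal (MvPolynomial (Fin j) F)) (d : ℕ) :
    hf w (I.map (aeval θ)) d =
      ∑ a : Box e, if bdeg w a ≤ d then hf (fun i => e i * w i) I (d - bdeg w a) else 0 := by
  have := finite_Pd (F := F) hw he d
  have := fun a : Box e => finite_Csh (F := F) (w := fun i => e i * w i)
    (fun i => Nat.mul_ne_zero (he i) (hw i)) (bdeg w a) d
  rw [hf, ← map_Phi_Pd hw he hθ hs, ← Submodule.map_comp,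
    finrank_map_eq_of_ker _ (LinearMap.pi fun a : Box e =>
      ((Ideal.Quotient.mkₐ F I).toLinearMap).comp (LinearMap.proj a)), Pd, map_piMap,
    finrank_pi_sub]
  · exact Finset.sum_congr rfl fun a _ => finrank_map_Csh _ _ _ _
  · intro p _
    simp only [LinearMap.comp_apply, AlgHom.toLinearMap_apply, Ideal.Quotient.mkₐ_eq_mk,
      Ideal.Quotient.eq_zero_iff_mem, Phi_mem_map_iff hw he hθ hs, funext_iff, LinearMap.pi_apply,
      LinearMap.proj_apply, Pi.zero_apply]

/-- The generating polynomial of a box. -/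
noncomputable def bgen (w e : Fin j → ℕ) : Polynomial ℚ :=
  ∑ a : Box e, Polynomial.X ^ bdeg w a

lemma bgen_mul (w e : Fin j → ℕ) :
    bgen w e * ∏ i, (1 - Polynomial.X ^ w i) = ∏ i, (1 - Polynomial.X ^ (e i * w i)) := by
  have : bgen w e = ∏ i, ∑ k ∈ range (e i), ((Polynomial.X : Polynomial ℚ) ^ w i) ^ k := by
    simp only [← Fin.sum_univ_eq_sum_range]
    rw [Finset.prod_univ_sum, bgen, Fintype.piFinset_univ]
    refine Finset.sum_congr rfl fun a _ => ?_
    rw [bdeg, ← Finset.prod_pow_eq_pow_sum]
    exact Finset.prod_congr rfl fun i _ => by rw [← pow_mul, mul_comm]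
  rw [this, ← Finset.prod_mul_distrib]
  exact Finset.prod_congr rfl fun i _ => by rw [geom_sum_mul_neg, ← pow_mul, mul_comm]

/-- The Hilbert series. -/
noncomputable def HS {σ : Type*} (w : σ → ℕ) (I : Ideal (MvPolynomial σ F)) : PowerSeries ℚ :=
  PowerSeries.mk fun d => (hf w I d : ℚ)

lemma HS_map (hw : ∀ i, w i ≠ 0) (he : ∀ i, e i ≠ 0)
    (hθ : ∀ i, (θ i).IsWeightedHomogeneous w (e i * w i)) (hs : Spans e θ)
    (I : Ideal (MvPolynomial (Fin j) F)) :
    HS w (I.map (aeval θ)) = (bgen w e : PowerSeries ℚ) * HS (fun i => e i * w i) I := by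
  ext d
  have : (bgen w e : PowerSeries ℚ) = ∑ a : Box e, PowerSeries.X ^ bdeg w a := by
    rw [bgen, ← Polynomial.coeToPowerSeries.ringHom_apply, map_sum]
    simp
  rw [this, Finset.sum_mul, map_sum, HS, PowerSeries.coeff_mk, hf_map hw he hθ hs]
  push_cast
  refine Finset.sum_congr rfl fun a _ => ?_
  rw [PowerSeries.coeff_X_pow_mul', HS, PowerSeries.coeff_mk]

lemma HS_span (hw : ∀ i, w i ≠ 0) (he : ∀ i, e i ≠ 0)
    (hθ : ∀ i, (θ i).IsWeightedHomogeneous w (e i * w i)) (hs : Spans e θ) :
    HS w (Ideal.span (Set.range θ)) = (bgen w e : PowerSeries ℚ) := by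
  have h1 : Ideal.span (Set.range θ) =
      (Ideal.span (Set.range (X : Fin j → MvPolynomial (Fin j) F))).map (aeval θ) := by
    rw [Ideal.map_span, ← Set.range_comp]
    congr 2
    funext i; simp
  have h2 : HS (fun i => e i * w i)
      (Ideal.span (Set.range (X : Fin j → MvPolynomial (Fin j) F))) = 1 := by
    ext d
    rw [HS, PowerSeries.coeff_mk, hf_irrelevant (fun i => Nat.mul_ne_zero (he i) (hw i)),
      PowerSeries.coeff_one]
    split_ifs <;> simp
  rw [h1, HS_map hw he hθ hs, h2, mul_one]

end Box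

end Pool.Agent.Work.MP_a1538a_al
end

-- merged part: Pool.Agent.Work.MP_a1538a_al.Split
section
/-!
The splitting ring of a generic q-polynomial and the Hilbert series of the ring of right factors
of a Frobenius power.
-/

set_option autoImplicit false

namespace Pool.Agent.Work.MP_a1538a_al

open Finset

/-- The q-integer. -/
def qint (q k : ℕ) : ℕ := ∑ s ∈ range k, q ^ s

lemma qint_succ (q k : ℕ) : qint q (k + 1) = qint q k + q ^ k := Finset.sum_range_succ _ _

lemma qint_strictMono {q : ℕ} (hq : 0 < q) : StrictMono (qint q) :=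
  strictMono_nat_of_lt_succ fun k => by rw [qint_succ]; have := pow_pos hq k; omega

lemma qint_mul {q : ℕ} (hq : 1 < q) (k i : ℕ) :
    qint q k * (q ^ (i + 1) - q ^ i) = q ^ (k + i) - q ^ i := by
  induction k with
  | zero => simp [qint]
  | succ k ih =>
    rw [qint_succ, add_mul, ih, Nat.mul_sub, ← pow_add, ← pow_add]
    have h1 : q ^ i ≤ q ^ (k + i) := Nat.pow_le_pow_right (by omega) (by omega)
    have h2 : q ^ (k + i) ≤ q ^ (k + (i + 1)) := Nat.pow_le_pow_right (by omega) (by omega)
    rw [show k + 1 + i = k + (i + 1) by ring]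
    omega

section Tri

variable {F : Type*} [Field F] [Fintype F] {B : Type*} [CommRing B] [Algebra F B]

lemma map_gco {B' B'' : Type*} [CommRing B'] [CommRing B''] [Algebra B B'] [Algebra B B'']
    (q : ℕ) (φ : B' →ₐ[B] B'') (z : ℕ → B) (i : ℕ) (x : B') :
    φ (gco q z i x) = gco q z i (φ x) := by
  induction i with
  | zero => rfl
  | succ i ih => simp only [gco, map_sub, map_pow, map_smul, ih]

omit [Algebra F B] in
lemma expand_pow {B' : Type*} [CommRing B'] [Algebra B B'] [Algebra F B'] (z : B) (y : B')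
    (l : ℕ) : y ^ (Fintype.card F ^ l) = z ^ qint (Fintype.card F) l • y +
      ∑ k ∈ range l, z ^ (qint (Fintype.card F) l - qint (Fintype.card F) (k + 1)) •
        (y ^ Fintype.card F - z • y) ^ (Fintype.card F ^ k) := by
  induction l with
  | zero => simp [qint]
  | succ l ih =>
    have h1 : y ^ (Fintype.card F ^ (l + 1)) =
        (y ^ Fintype.card F - z • y) ^ (Fintype.card F ^ l) +
          z ^ (Fintype.card F ^ l) • y ^ (Fintype.card F ^ l) := by
      rw [sub_pow_q F, smul_pow, ← pow_mul, ← pow_succ']; ring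
    rw [h1, Finset.sum_range_succ, Nat.sub_self, pow_zero, one_smul]
    conv_lhs => rw [ih, smul_add, smul_smul, ← pow_add, Finset.smul_sum]
    rw [qint_succ, add_comm (qint _ l)]
    have : ∀ k ∈ range l, z ^ (Fintype.card F ^ l) •
        z ^ (qint (Fintype.card F) l - qint (Fintype.card F) (k + 1)) •
          (y ^ Fintype.card F - z • y) ^ (Fintype.card F ^ k) =
        z ^ (Fintype.card F ^ l + qint (Fintype.card F) l - qint (Fintype.card F) (k + 1)) •
          (y ^ Fintype.card F - z • y) ^ (Fintype.card F ^ k) := by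
      intro k hk
      have := (qint_strictMono (Fintype.card_pos (α := F))).monotone
        (show k + 1 ≤ l from Finset.mem_range.mp hk)
      rw [smul_smul, ← pow_add, Nat.add_sub_assoc this]
    rw [Finset.sum_congr rfl this]
    ring

lemma gco_monic [Nontrivial B] {q : ℕ} (hq : 1 < q) (z : ℕ → B) (i : ℕ) :
    (gco q z i (Polynomial.X : Polynomial B)).Monic ∧
      (gco q z i (Polynomial.X : Polynomial B)).natDegree = q ^ i := by
  induction i with
  | zero => simp [gco, Polynomial.monic_X]
  | succ i ih =>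
    have h1 : (z i • gco q z i (Polynomial.X : Polynomial B)).degree <
        (gco q z i (Polynomial.X : Polynomial B) ^ q).degree := by
      refine lt_of_le_of_lt (Polynomial.degree_smul_le _ _) ?_
      rw [Polynomial.degree_eq_natDegree ih.1.ne_zero,
        Polynomial.degree_eq_natDegree (ih.1.pow q).ne_zero, ih.1.natDegree_pow, ih.2]
      have : 0 < q ^ i := pow_pos (by omega) _
      exact_mod_cast by nlinarith
    refine ⟨(ih.1.pow q).sub_of_left h1, ?_⟩
    simp only [gco]
    rw [Polynomial.natDegree_sub_eq_left_of_natDegree_lt, ih.1.natDegree_pow, ih.2, pow_succ']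
    rw [ih.1.natDegree_pow, ih.2]
    refine lt_of_le_of_lt (Polynomial.natDegree_smul_le _ _) ?_
    rw [ih.2]
    have : 0 < q ^ i := pow_pos (by omega) _
    nlinarith

lemma gco_dvd {q : ℕ} (hq : 0 < q) (z : ℕ → B) {i j : ℕ} (h : i ≤ j) (x : Polynomial B) :
    gco q z i x ∣ gco q z j x := by
  induction j, h using Nat.le_induction with
  | base => rfl
  | succ j _ ih =>
    refine ih.trans ?_
    simp only [gco]
    exact dvd_sub (dvd_pow_self _ hq.ne') (dvd_smul_of_dvd _ dvd_rfl)

lemma gco_dvd_X_pow (z : ℕ → B) (j m : ℕ)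
    (h : ∀ l : Fin j, rem (Fintype.card F) (fun l : Fin j => - cco (Fintype.card F) z j l) m l = 0) :
    gco (Fintype.card F) z j (Polynomial.X : Polynomial B) ∣
      Polynomial.X ^ (Fintype.card F ^ m) := by
  set f := gco (Fintype.card F) z j (Polynomial.X : Polynomial B) with hf
  rw [← AdjoinRoot.mk_eq_zero, map_pow, AdjoinRoot.mk_X]
  have h1 : gco (Fintype.card F) z j (AdjoinRoot.root f) = 0 := by
    have := map_gco (Fintype.card F) (Polynomial.aeval (AdjoinRoot.root f)) z j Polynomial.X
    rw [Polynomial.aeval_X, ← hf, AdjoinRoot.aeval_eq, AdjoinRoot.mk_self] at this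
    exact this.symm
  rw [pow_eq_sum_rem (F := F) _ _ (pow_eq_of_gco z j _ h1) m]
  simp [h]

lemma tri_step [Nontrivial B] (z : ℕ → B) {i m : ℕ} (M : ℕ)
    (hdvd : gco (Fintype.card F) z (i + 1) (Polynomial.X : Polynomial B) ∣
      Polynomial.X ^ (Fintype.card F ^ m)) (g : ℕ → B)
    (hg : (Polynomial.X : Polynomial B) ^ (Fintype.card F ^ m) = ∑ l ∈ range (M + 1),
      g l • gco (Fintype.card F) z i Polynomial.X ^ (Fintype.card F ^ l)) :
    ∑ l ∈ range (M + 1), g l * z i ^ qint (Fintype.card F) l = 0 ∧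
    (Polynomial.X : Polynomial B) ^ (Fintype.card F ^ m) = ∑ k ∈ range M,
      (∑ l ∈ range (M + 1), if k < l then
        g l * z i ^ (qint (Fintype.card F) l - qint (Fintype.card F) (k + 1)) else 0) •
      gco (Fintype.card F) z (i + 1) Polynomial.X ^ (Fintype.card F ^ k) := by
  have hq := one_lt_q F
  set y := gco (Fintype.card F) z i (Polynomial.X : Polynomial B) with hy
  set y' := gco (Fintype.card F) z (i + 1) (Polynomial.X : Polynomial B) with hy'
  have hyy : y ^ Fintype.card F - z i • y = y' := rfl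
  have h1 : (Polynomial.X : Polynomial B) ^ (Fintype.card F ^ m) =
      (∑ l ∈ range (M + 1), g l * z i ^ qint (Fintype.card F) l) • y + ∑ k ∈ range M,
      (∑ l ∈ range (M + 1), if k < l then
        g l * z i ^ (qint (Fintype.card F) l - qint (Fintype.card F) (k + 1)) else 0) •
      y' ^ (Fintype.card F ^ k) := by
    rw [hg]
    simp only [Finset.sum_smul]
    rw [Finset.sum_comm, ← Finset.sum_add_distrib]
    refine Finset.sum_congr rfl fun l hl => ?_
    rw [expand_pow (F := F) (z i) y l, hyy, smul_add, smul_smul, Finset.smul_sum]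
    congr 1
    simp only [ite_smul, zero_smul, ← Finset.sum_filter, smul_smul]
    refine Finset.sum_congr ?_ fun _ _ => rfl
    ext k
    have := Finset.mem_range.mp hl
    simp only [mem_range, mem_filter]
    omega
  have h2 : ∑ l ∈ range (M + 1), g l * z i ^ qint (Fintype.card F) l = 0 := by
    by_contra hne
    have h3 : y' ∣ (∑ l ∈ range (M + 1), g l * z i ^ qint (Fintype.card F) l) • y := by
      rw [h1] at hdvd
      refine (dvd_add_left ?_).mp hdvd
      exact Finset.dvd_sum fun k _ => dvd_smul_of_dvd _ (dvd_pow_self _ (by positivity))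
    have h4 : y.Monic ∧ y.natDegree = _ := gco_monic hq z i
    have h5 : y'.Monic ∧ y'.natDegree = _ := gco_monic hq z (i + 1)
    refine h5.1.not_dvd_of_natDegree_lt ?_ ?_ h3
    · intro h0
      have := congrArg (fun p => Polynomial.coeff p y.natDegree) h0
      simp only [Polynomial.coeff_smul, h4.1.coeff_natDegree, smul_eq_mul, mul_one,
        Polynomial.coeff_zero] at this
      exact hne this
    · refine lt_of_le_of_lt (Polynomial.natDegree_smul_le _ _) ?_
      rw [h4.2, h5.2]
      exact Nat.pow_lt_pow_right hq (by omega)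
  refine ⟨h2, ?_⟩
  rw [h1, h2, zero_smul, zero_add]

lemma tri (z : ℕ → B) {j m : ℕ} (hjm : j ≤ m)
    (h : ∀ l : Fin j, rem (Fintype.card F) (fun l : Fin j => - cco (Fintype.card F) z j l) m l = 0)
    {i : ℕ} (hi : i < j) :
    ∃ g : ℕ → B, (∀ l, g l ∈ Algebra.adjoin F (z '' {k | k < i})) ∧
      z i ^ qint (Fintype.card F) (m - i) =
        ∑ l ∈ range (m - i), g l * z i ^ qint (Fintype.card F) l := by
  nontriviality B using (⟨0, fun _ => Subalgebra.zero_mem _, Subsingleton.elim _ _⟩ :
    ∃ g : ℕ → B, (∀ l, g l ∈ Algebra.adjoin F (z '' {k | k < i})) ∧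
      z i ^ qint (Fintype.card F) (m - i) =
        ∑ l ∈ range (m - i), g l * z i ^ qint (Fintype.card F) l)
  have hdvd : ∀ i < j, gco (Fintype.card F) z (i + 1) (Polynomial.X : Polynomial B) ∣
      Polynomial.X ^ (Fintype.card F ^ m) := fun i hi =>
    (gco_dvd Fintype.card_pos z hi _).trans (gco_dvd_X_pow z j m h)
  have key : ∀ i ≤ j, ∃ g : ℕ → B, (∀ l, g l ∈ Algebra.adjoin F (z '' {k | k < i})) ∧
      g (m - i) = 1 ∧ (Polynomial.X : Polynomial B) ^ (Fintype.card F ^ m) =
        ∑ l ∈ range (m - i + 1),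
          g l • gco (Fintype.card F) z i Polynomial.X ^ (Fintype.card F ^ l) := by
    intro i
    induction i with
    | zero =>
      intro _
      refine ⟨fun l => if l = m then 1 else 0, fun l => ?_, by simp, by simp [gco]⟩
      dsimp only
      split_ifs
      · exact Subalgebra.one_mem _
      · exact Subalgebra.zero_mem _
    | succ i ih =>
      intro hi
      obtain ⟨g, hg1, hg2, hg3⟩ := ih (by omega)
      obtain ⟨_, h2⟩ := tri_step z (m - i) (hdvd i hi) g hg3
      refine ⟨fun k => ∑ l ∈ range (m - i + 1), if k < l then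
        g l * z i ^ (qint (Fintype.card F) l - qint (Fintype.card F) (k + 1)) else 0,
        fun k => ?_, ?_, by rw [show m - (i + 1) + 1 = m - i by omega]; exact h2⟩
      · refine Subalgebra.sum_mem _ fun l _ => ?_
        split_ifs
        · refine Subalgebra.mul_mem _ (Algebra.adjoin_mono (Set.image_mono ?_) (hg1 l))
            (Subalgebra.pow_mem _ (Algebra.subset_adjoin (Set.mem_image_of_mem _ (by simp))) _)
          intro k hk
          simp only [Set.mem_ofPred_eq] at hk ⊢
          omega
        · exact Subalgebra.zero_mem _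
      · dsimp only
        rw [Finset.sum_range_succ, Finset.sum_eq_zero, if_pos (by omega), hg2,
          show m - (i + 1) + 1 = m - i by omega]
        · simp
        · intro l hl
          rw [if_neg (by have := Finset.mem_range.mp hl; omega)]
  obtain ⟨g, hg1, hg2, hg3⟩ := key i hi.le
  obtain ⟨h1, _⟩ := tri_step z (m - i) (hdvd i hi) g hg3
  refine ⟨fun l => - g l, fun l => Subalgebra.neg_mem _ (hg1 l), ?_⟩
  rw [Finset.sum_range_succ, hg2, one_mul] at h1
  simp only [neg_mul, Finset.sum_neg_distrib]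
  exact eq_neg_of_add_eq_zero_right h1

omit [Fintype F] in
lemma adjoin_le_box (z : ℕ → B) (e : ℕ → ℕ) (j : ℕ) (he : ∀ i < j, 0 < e i)
    (h : ∀ i < j, z i ^ e i ∈ Submodule.span F
      {x | ∃ g ∈ Algebra.adjoin F (z '' {k | k < i}), ∃ a < e i, x = g * z i ^ a}) :
    ∀ x ∈ Algebra.adjoin F (z '' {k | k < j}), x ∈ Submodule.span F
      {x | ∃ a : ℕ → ℕ, (∀ k < j, a k < e k) ∧ x = ∏ k ∈ range j, z k ^ a k} := by
  induction j with
  | zero =>
    intro x hx
    simp only [not_lt_zero, Set.ofPred_false, Set.image_empty, Algebra.adjoin_empty,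
      Algebra.mem_bot] at hx
    obtain ⟨a, rfl⟩ := hx
    rw [Algebra.algebraMap_eq_smul_one]
    exact Submodule.smul_mem _ _ (Submodule.subset_span ⟨0, by simp, by simp⟩)
  | succ j ih =>
    have ih' := ih (fun i hi => he i (by omega)) (fun i hi => h i (by omega))
    set N := Submodule.span F
      {x | ∃ g ∈ Algebra.adjoin F (z '' {k | k < j}), ∃ a < e j, x = g * z j ^ a} with hN
    have h1 : ∀ g ∈ Algebra.adjoin F (z '' {k | k < j}), ∀ x ∈ N, g * x ∈ N := by
      intro g hg x hx
      induction hx using Submodule.span_induction with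
      | zero => simp
      | add x y _ _ hx hy => rw [mul_add]; exact Submodule.add_mem _ hx hy
      | smul a x _ hx => rw [mul_smul_comm]; exact Submodule.smul_mem _ _ hx
      | mem x hx =>
        obtain ⟨g', hg', a, ha, rfl⟩ := hx
        exact Submodule.subset_span ⟨g * g', Subalgebra.mul_mem _ hg hg', a, ha, by ring⟩
    have h2 : ∀ x ∈ N, z j * x ∈ N := by
      intro x hx
      induction hx using Submodule.span_induction with
      | zero => simp
      | add x y _ _ hx hy => rw [mul_add]; exact Submodule.add_mem _ hx hy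
      | smul a x _ hx => rw [mul_smul_comm]; exact Submodule.smul_mem _ _ hx
      | mem x hx =>
        obtain ⟨g', hg', a, ha, rfl⟩ := hx
        by_cases hlt : a + 1 < e j
        · exact Submodule.subset_span ⟨g', hg', a + 1, hlt, by ring⟩
        · have : z j * (g' * z j ^ a) = g' * z j ^ e j := by
            rw [show e j = a + 1 by omega]; ring
          rw [this]
          exact h1 g' hg' _ (h j (by omega))
    have h3 : ∀ y ∈ Algebra.adjoin F (z '' {k | k < j + 1}), ∀ x ∈ N, y * x ∈ N := by
      intro y hy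
      induction hy using Algebra.adjoin_induction with
      | mem y hy =>
        obtain ⟨k, hk, rfl⟩ := hy
        by_cases hkj : k = j
        · subst hkj; exact h2
        · exact h1 _ (Algebra.subset_adjoin ⟨k, by
            simp only [Set.mem_ofPred_eq] at hk ⊢; omega, rfl⟩)
      | algebraMap a => exact h1 _ (Subalgebra.algebraMap_mem _ a)
      | add x y _ _ hx hy =>
        intro w hw; rw [add_mul]; exact Submodule.add_mem _ (hx w hw) (hy w hw)
      | mul x y _ _ hx hy => intro w hw; rw [mul_assoc]; exact hx _ (hy w hw)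
    intro y hy
    have h4 : y ∈ N := by
      have := h3 y hy 1 (Submodule.subset_span ⟨1, Subalgebra.one_mem _, 0, he j (by omega),
        by simp⟩)
      rwa [mul_one] at this
    clear hy
    induction h4 using Submodule.span_induction with
    | zero => simp
    | add x y _ _ hx hy => exact Submodule.add_mem _ hx hy
    | smul a x _ hx => exact Submodule.smul_mem _ _ hx
    | mem x hx =>
      obtain ⟨g, hg, a, ha, rfl⟩ := hx
      have hg' := ih' g hg
      clear hg
      induction hg' using Submodule.span_induction with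
      | zero => simp
      | add x y _ _ hx hy => rw [add_mul]; exact Submodule.add_mem _ hx hy
      | smul a x _ hx => rw [smul_mul_assoc]; exact Submodule.smul_mem _ _ hx
      | mem x hx =>
        obtain ⟨b, hb, rfl⟩ := hx
        refine Submodule.subset_span ⟨Function.update b j a, fun k hk => ?_, ?_⟩
        · by_cases hkj : k = j
          · subst hkj; simpa using ha
          · rw [Function.update_of_ne hkj]; exact hb k (by omega)
        · rw [Finset.prod_range_succ, Function.update_self]
          congr 1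
          refine Finset.prod_congr rfl fun k hk => ?_
          rw [Function.update_of_ne (Finset.mem_range.mp hk).ne]

end Tri

section Main

open MvPolynomial

variable (F : Type*) [Field F] [Fintype F]

/-- Coefficients of the composite q-polynomial in the splitting ring. -/
noncomputable def psi (j : ℕ) (l : Fin j) : MvPolynomial (Fin j) F :=
  - cco (Fintype.card F) (ext0 X) j l

/-- Weights in the splitting ring. -/
def wZ (j : ℕ) (i : Fin j) : ℕ := Fintype.card F ^ ((i : ℕ) + 1) - Fintype.card F ^ (i : ℕ)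

/-- Box sizes. -/
def eB (j m : ℕ) (i : Fin j) : ℕ := qint (Fintype.card F) (m - i)

/-- Weights `q^m - q^i`. -/
def wC (j m : ℕ) (i : Fin j) : ℕ := Fintype.card F ^ m - Fintype.card F ^ (i : ℕ)

/-- The ideal of remainders in the generic coefficient ring. -/
noncomputable def remI (j m : ℕ) : Ideal (MvPolynomial (Fin j) F) :=
  Ideal.span (Set.range fun l : Fin j =>
    rem (Fintype.card F) (X : Fin j → MvPolynomial (Fin j) F) m l)

lemma wZ_ne (j : ℕ) (i : Fin j) : wZ F j i ≠ 0 :=
  Nat.sub_ne_zero_of_lt (Nat.pow_lt_pow_right (one_lt_q F) (by omega))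

lemma wC_ne {j m : ℕ} (h : j ≤ m) (i : Fin j) : wC F j m i ≠ 0 :=
  Nat.sub_ne_zero_of_lt (Nat.pow_lt_pow_right (one_lt_q F) (by omega))

lemma eB_ne {j m : ℕ} (h : j ≤ m) (i : Fin j) : eB F j m i ≠ 0 := by
  have := qint_strictMono (Fintype.card_pos (α := F)) (show 0 < m - i by omega)
  unfold eB; omega

lemma eB_mul {j m : ℕ} (h : j ≤ m) (i : Fin j) : eB F j m i * wZ F j i = wC F j m i := by
  rw [eB, wZ, wC, qint_mul (one_lt_q F), Nat.sub_add_cancel (by omega)]

lemma isWH_psi (j : ℕ) (l : Fin j) :
    (psi F j l).IsWeightedHomogeneous (wZ F j) (Fintype.card F ^ j - Fintype.card F ^ (l : ℕ)) := by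
  refine (isWH_cco (one_lt_q F) (fun k hk => ?_) l).neg
  rw [ext0, dif_pos hk]
  exact isWeightedHomogeneous_X F _ _

lemma spans_rem {j m : ℕ} (h : j ≤ m) :
    Spans (eB F j m) (fun l => rem (Fintype.card F) (psi F j) m l) := by
  intro u
  set I := Ideal.span (Set.range fun l : Fin j => rem (Fintype.card F) (psi F j) m l) with hI
  let π := Ideal.Quotient.mkₐ F I
  let z : ℕ → MvPolynomial (Fin j) F ⧸ I := fun k => π (ext0 X k)
  have h0 : ∀ l : Fin j,
      rem (Fintype.card F) (fun l : Fin j => - cco (Fintype.card F) z j l) m l = 0 := by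
    intro l
    have h1 : π (rem (Fintype.card F) (psi F j) m l) = 0 :=
      Ideal.Quotient.eq_zero_iff_mem.mpr (Ideal.subset_span ⟨l, rfl⟩)
    have h2 := map_rem (Fintype.card F) (Ideal.Quotient.mk I) (psi F j) m l
    have h3 : Ideal.Quotient.mk I (rem (Fintype.card F) (psi F j) m l) = 0 := h1
    rw [h3] at h2
    rw [h2]
    congr 1
    funext l
    rw [psi, map_neg]
    exact congrArg Neg.neg (map_cco (Fintype.card F) (Ideal.Quotient.mk I) _ _ _).symm
  have h1 := adjoin_le_box (F := F) z (fun i => qint (Fintype.card F) (m - i)) j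
    (fun i hi => Nat.pos_of_ne_zero (eB_ne F h ⟨i, hi⟩)) (fun i hi => by
      obtain ⟨g, hg, hz⟩ := tri z h h0 hi
      rw [hz]
      exact Submodule.sum_mem _ fun l hl => Submodule.subset_span ⟨g l, hg l, _,
        qint_strictMono Fintype.card_pos (Finset.mem_range.mp hl), rfl⟩) (π u) (by
      induction u using MvPolynomial.induction_on with
      | C a => exact Subalgebra.algebraMap_mem _ a
      | add p r hp hr => rw [map_add]; exact Subalgebra.add_mem _ hp hr
      | mul_X p k hp =>
        rw [map_mul]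
        exact Subalgebra.mul_mem _ hp (Algebra.subset_adjoin ⟨k, k.2, by simp [z]⟩))
  have h2 : π u ∈ (Submodule.span F (Set.range (bmon F (e := eB F j m)))).map π.toLinearMap := by
    rw [Submodule.map_span]
    refine Submodule.span_mono ?_ h1
    rintro _ ⟨a, ha, rfl⟩
    refine ⟨_, ⟨fun i => ⟨a i, ha i i.2⟩, rfl⟩, ?_⟩
    rw [← Fin.prod_univ_eq_prod_range (fun k => z k ^ a k)]
    simp [bmon, z]
  obtain ⟨b, hb, hb'⟩ := h2
  exact ⟨b, hb, Ideal.Quotient.eq.mp hb'.symm⟩

lemma bgen_mul_HS {j m : ℕ} (h : j ≤ m) :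
    (bgen (wZ F j) (eB F j j) : PowerSeries ℚ) * HS (wC F j j) (remI F j m) =
      (bgen (wZ F j) (eB F j m) : PowerSeries ℚ) := by
  have h1 : (fun l : Fin j => rem (Fintype.card F) (psi F j) j l) = psi F j :=
    funext fun l => rem_self Fintype.card_pos _ l
  have hs := spans_rem F (le_refl j)
  rw [h1] at hs
  have h2 := HS_map (wZ_ne F j) (eB_ne F le_rfl)
    (fun i => by rw [eB_mul F le_rfl]; exact isWH_psi F j i) hs (remI F j m)
  have h3 := HS_span (wZ_ne F j) (eB_ne F h)
    (fun i => by rw [eB_mul F h]; exact isWH_rem (one_lt_q F) (isWH_psi F j) h i) (spans_rem F h)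
  have h4 : (remI F j m).map (aeval (psi F j)) =
      Ideal.span (Set.range fun l : Fin j => rem (Fintype.card F) (psi F j) m l) := by
    rw [remI, Ideal.map_span, ← Set.range_comp]
    congr 2
    funext l
    have := map_rem (Fintype.card F) (aeval (psi F j) : MvPolynomial (Fin j) F →ₐ[F] _).toRingHom
      X m l
    simpa using this
  rw [← h3, ← h4, h2, funext (eB_mul F (le_refl j))]

/-- The product `∏ (1 - X^(q^m - q^i))`. -/
noncomputable def pden (j m : ℕ) : Polynomial ℚ := ∏ i, (1 - Polynomial.X ^ wC F j m i)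

lemma one_sub_X_pow_eq (k : ℕ) :
    (1 - Polynomial.X ^ k : Polynomial ℚ) = - (Polynomial.X ^ k - Polynomial.C 1) := by simp

lemma one_sub_X_pow_natDegree (k : ℕ) : (1 - Polynomial.X ^ k : Polynomial ℚ).natDegree = k := by
  rw [one_sub_X_pow_eq, Polynomial.natDegree_neg, Polynomial.natDegree_X_pow_sub_C]

lemma one_sub_X_pow_ne {k : ℕ} (hk : k ≠ 0) : (1 - Polynomial.X ^ k : Polynomial ℚ) ≠ 0 := by
  intro h
  have := one_sub_X_pow_natDegree k
  rw [h] at this
  exact hk (by simpa using this.symm)

lemma one_sub_X_pow_reverse (k : ℕ) :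
    (1 - Polynomial.X ^ k : Polynomial ℚ).reverse = - (1 - Polynomial.X ^ k) := by
  rw [Polynomial.reverse, one_sub_X_pow_natDegree, Polynomial.reflect_sub, Polynomial.reflect_one,
    Polynomial.reflect_monomial]
  simp

lemma reverse_prod {ι : Type*} (s : Finset ι) (f : ι → Polynomial ℚ) :
    (∏ i ∈ s, f i).reverse = ∏ i ∈ s, (f i).reverse := by
  classical
  induction s using Finset.induction_on with
  | empty => simpa using Polynomial.reverse_C (1 : ℚ)
  | insert a s ha ih => rw [Finset.prod_insert ha, Finset.prod_insert ha,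
      Polynomial.reverse_mul_of_domain, ih]

omit [Field F] in
lemma pden_reverse (j m : ℕ) : (pden F j m).reverse = (-1) ^ j * pden F j m := by
  rw [pden, reverse_prod]
  simp only [one_sub_X_pow_reverse]
  rw [Finset.prod_neg, Finset.card_univ, Fintype.card_fin]

lemma pden_ne {j m : ℕ} (h : j ≤ m) : pden F j m ≠ 0 :=
  Finset.prod_ne_zero_iff.mpr fun i _ => one_sub_X_pow_ne (wC_ne F h i)

lemma pden_natDegree {j m : ℕ} (h : j ≤ m) : (pden F j m).natDegree = ∑ i, wC F j m i := by
  rw [pden, Polynomial.natDegree_prod _ _ fun i _ => one_sub_X_pow_ne (wC_ne F h i)]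
  simp only [one_sub_X_pow_natDegree]

lemma HS_mul_pden {j m : ℕ} (h : j ≤ m) :
    HS (wC F j j) (remI F j m) * (pden F j j : PowerSeries ℚ) = (pden F j m : PowerSeries ℚ) := by
  have h1 := bgen_mul (wZ F j) (eB F j j)
  have h2 := bgen_mul (wZ F j) (eB F j m)
  simp only [eB_mul F h, eB_mul F (le_refl j)] at h1 h2
  rw [pden, pden, ← h1, ← h2, Polynomial.coe_mul, Polynomial.coe_mul, ← bgen_mul_HS F h]
  ring

lemma hf_eventually_zero {j m : ℕ} (h : j ≤ m) :
    ∃ N, ∀ d, N < d → hf (wC F j j) (remI F j m) d = 0 := by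
  refine ⟨(bgen (wZ F j) (eB F j m)).natDegree, fun d hd => ?_⟩
  have h1 := congrArg (PowerSeries.coeff d) (bgen_mul_HS F h)
  have h2 : (bgen (wZ F j) (eB F j j) : PowerSeries ℚ) =
      ∑ a : Box (eB F j j), PowerSeries.X ^ bdeg (wZ F j) a := by
    rw [bgen, ← Polynomial.coeToPowerSeries.ringHom_apply, map_sum]
    simp
  rw [Polynomial.coeff_coe, Polynomial.coeff_eq_zero_of_natDegree_lt hd, h2, Finset.sum_mul,
    map_sum, Finset.sum_eq_zero_iff_of_nonneg] at h1
  · have h3 := h1 (fun i => ⟨0, Nat.pos_of_ne_zero (eB_ne F le_rfl i)⟩) (mem_univ _)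
    simpa [bdeg, HS] using h3
  · intro a _
    rw [PowerSeries.coeff_X_pow_mul']
    split_ifs
    · simp [HS]
    · rfl

theorem hf_palindromic {j m : ℕ} (h : j ≤ m) (d : ℕ) :
    hf (wC F j j) (remI F j m) d =
      if d ≤ j * (Fintype.card F ^ m - Fintype.card F ^ j) then
        hf (wC F j j) (remI F j m) (j * (Fintype.card F ^ m - Fintype.card F ^ j) - d) else 0 := by
  obtain ⟨N, hN⟩ := hf_eventually_zero F h
  obtain ⟨H, hH⟩ : ∃ H : Polynomial ℚ, (H : PowerSeries ℚ) = HS (wC F j j) (remI F j m) := by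
    refine ⟨PowerSeries.trunc (N + 1) (HS (wC F j j) (remI F j m)), ?_⟩
    ext d
    rw [Polynomial.coeff_coe, PowerSeries.coeff_trunc]
    split_ifs with hd
    · rfl
    · simp [HS, hN d (by omega)]
  have hc : ∀ d, H.coeff d = hf (wC F j j) (remI F j m) d := by
    intro d
    rw [← Polynomial.coeff_coe, hH, HS, PowerSeries.coeff_mk]
  have h1 : H * pden F j j = pden F j m := by
    apply Polynomial.coe_injective ℚ
    rw [Polynomial.coe_mul, hH, HS_mul_pden F h]
  have hH0 : H ≠ 0 := by
    rintro rfl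
    exact pden_ne F h (by rw [← h1, zero_mul])
  have h2 : H.natDegree = j * (Fintype.card F ^ m - Fintype.card F ^ j) := by
    have h3 := congrArg Polynomial.natDegree h1
    rw [Polynomial.natDegree_mul hH0 (pden_ne F le_rfl), pden_natDegree F h,
      pden_natDegree F le_rfl] at h3
    have h4 : ∑ i, wC F j m i = ∑ i : Fin j,
        ((Fintype.card F ^ m - Fintype.card F ^ j) + wC F j j i) := by
      refine Finset.sum_congr rfl fun i _ => ?_
      have h5 : Fintype.card F ^ (i : ℕ) ≤ Fintype.card F ^ j :=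
        Nat.pow_le_pow_right Fintype.card_pos i.2.le
      have h6 : Fintype.card F ^ j ≤ Fintype.card F ^ m :=
        Nat.pow_le_pow_right Fintype.card_pos h
      unfold wC; omega
    rw [h4, Finset.sum_add_distrib, Finset.sum_const, Finset.card_univ, Fintype.card_fin,
      smul_eq_mul] at h3
    omega
  have h3 : H.reverse = H := by
    have h4 := congrArg Polynomial.reverse h1
    rw [Polynomial.reverse_mul_of_domain, pden_reverse, pden_reverse, ← h1] at h4
    apply mul_right_cancel₀ (b := (-1) ^ j * pden F j j)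
      (mul_ne_zero (pow_ne_zero _ (by simp)) (pden_ne F le_rfl))
    rw [h4]; ring
  rw [← h2]
  apply Nat.cast_injective (R := ℚ)
  split_ifs with hd
  · rw [← hc, ← hc]
    conv_lhs => rw [← h3, Polynomial.coeff_reverse, Polynomial.revAt_le hd]
  · rw [← hc, Polynomial.coeff_eq_zero_of_natDegree_lt (by omega)]; simp

theorem HS_eq {j m : ℕ} (h : j ≤ m) :
    HS (wC F j j) (remI F j m) = ∏ i ∈ range j,
      ((1 - (PowerSeries.X : PowerSeries ℚ) ^ (Fintype.card F ^ m - Fintype.card F ^ i)) *
        (1 - (PowerSeries.X : PowerSeries ℚ) ^ (Fintype.card F ^ j - Fintype.card F ^ i))⁻¹) := by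
  have h1 := HS_mul_pden F h
  have h2 : ∀ k, (pden F j k : PowerSeries ℚ) = ∏ i ∈ range j,
      (1 - (PowerSeries.X : PowerSeries ℚ) ^ (Fintype.card F ^ k - Fintype.card F ^ i)) := by
    intro k
    rw [pden, ← Polynomial.coeToPowerSeries.ringHom_apply, map_prod,
      ← Fin.prod_univ_eq_prod_range (fun i => (1 - (PowerSeries.X : PowerSeries ℚ) ^
        (Fintype.card F ^ k - Fintype.card F ^ i)))]
    simp [wC]
  rw [Finset.prod_mul_distrib, ← h2, ← h1, h2, mul_assoc, ← Finset.prod_mul_distrib,
    Finset.prod_eq_one, mul_one]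
  intro i hi
  apply PowerSeries.mul_inv_cancel
  have := wC_ne F (le_refl j) ⟨i, Finset.mem_range.mp hi⟩
  simp only [wC] at this
  simp [this]

lemma remI_eq_top {j m : ℕ} (h : m < j) : remI F j m = ⊤ := by
  rw [Ideal.eq_top_iff_one]
  exact Ideal.subset_span ⟨⟨m, h⟩, by simp [rem_of_lt Fintype.card_pos _ h]⟩

end Main

end Pool.Agent.Work.MP_a1538a_al
end

-- merged part: Pool.Agent.Work.MP_a1538a_al.Theta
section
/-!
The residue maps identify the cofixed space of the truncated polynomial ring.
-/

set_option autoImplicit false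

namespace Pool.Agent.Work.MP_a1538a_al

open Finset MvPolynomial Module

variable {F : Type*} [Field F] [Fintype F] {n : ℕ}

section Ideal

variable {A : Type*} [CommRing A] {j : ℕ}

variable (n) in
/-- The ideal generated by the `f(X i)`. -/
noncomputable def fI (q : ℕ) (c : Fin j → A) : Ideal (MvPolynomial (Fin n) A) :=
  Ideal.span (Set.range fun i : Fin n =>
    (X i : MvPolynomial (Fin n) A) ^ (q ^ j) - ∑ l : Fin j, c l • X i ^ (q ^ (l : ℕ)))

lemma Theta_mul_X_pow (q : ℕ) (c : Fin j → A) (α : Fin n →₀ ℕ) (a : A) (i : Fin n) (s : ℕ) :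
    Theta A n q c (monomial α a * X i ^ s) =
      tau q c (α i + s) * (a * ∏ k ∈ univ.erase i, tau q c (α k)) := by
  classical
  rw [X_pow_eq_monomial, monomial_mul, mul_one, Theta_monomial,
    ← Finset.mul_prod_erase univ _ (mem_univ i), smul_eq_mul]
  have : ∏ k ∈ univ.erase i, tau q c ((α + Finsupp.single i s : Fin n →₀ ℕ) k) =
      ∏ k ∈ univ.erase i, tau q c (α k) :=
    Finset.prod_congr rfl fun k hk => by
      rw [Finsupp.add_apply, Finsupp.single_eq_of_ne (Finset.ne_of_mem_erase hk), add_zero]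
  rw [this, Finsupp.add_apply, Finsupp.single_eq_same]
  ring

lemma Theta_fI {q : ℕ} (hq : 1 < q) (c : Fin j → A) {u : MvPolynomial (Fin n) A}
    (hu : u ∈ fI n q c) : Theta A n q c u = 0 := by
  obtain ⟨v, rfl⟩ := Ideal.mem_span_range_iff_exists_fun.mp hu
  rw [map_sum]
  refine Finset.sum_eq_zero fun i _ => ?_
  generalize v i = w
  induction w using MvPolynomial.induction_on' with
  | monomial α a =>
    simp only [mul_sub, Finset.mul_sum, mul_smul_comm, map_sub, map_sum, map_smul,
      Theta_mul_X_pow, tau_rec hq, Finset.sum_mul, smul_eq_mul, mul_assoc, sub_self]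
  | add p r hp hr => rw [add_mul, map_add, hp, hr, add_zero]

variable [Algebra F A]

variable (F n) in
/-- The map to the ring in which all `f(X i)` vanish. -/
noncomputable def piT (q : ℕ) (c : Fin j → A) :
    MvPolynomial (Fin n) F →+* MvPolynomial (Fin n) A ⧸ fI n q c :=
  (Ideal.Quotient.mk (fI n q c)).comp (map (algebraMap F A))

omit [Fintype F] in
lemma piT_rel {q : ℕ} (hq : 1 < q) (c : Fin j → A) (i : ℕ) :
    piT F n q c (ext0 X i) ^ (q ^ j) =
      ∑ l : Fin j, c l • piT F n q c (ext0 X i) ^ (q ^ (l : ℕ)) := by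
  unfold ext0
  split_ifs with h
  · have h1 : Ideal.Quotient.mkₐ A (fI n q c) (X ⟨i, h⟩ ^ (q ^ j) -
        ∑ l : Fin j, c l • X ⟨i, h⟩ ^ (q ^ (l : ℕ))) = 0 :=
      Ideal.Quotient.eq_zero_iff_mem.mpr (Ideal.subset_span ⟨⟨i, h⟩, rfl⟩)
    rw [map_sub, sub_eq_zero, map_sum] at h1
    simpa [piT] using h1
  · have : ∀ l : ℕ, (0 : MvPolynomial (Fin n) A ⧸ fI n q c) ^ (q ^ l) = 0 :=
      fun l => zero_pow (by positivity)
    simp [this]

omit [Fintype F] in
lemma Theta_of_piT {q : ℕ} (hq : 1 < q) (c : Fin j → A) {ι : Type*} (s : Finset ι)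
    (u : MvPolynomial (Fin n) F) (a : ι → A) (v : ι → MvPolynomial (Fin n) F)
    (h : piT F n q c u = ∑ k ∈ s, a k • piT F n q c (v k)) :
    Theta F n q c u = ∑ k ∈ s, a k * Theta F n q c (v k) := by
  have h1 : map (algebraMap F A) u - ∑ k ∈ s, a k • map (algebraMap F A) (v k) ∈ fI n q c := by
    rw [← Ideal.Quotient.eq_zero_iff_mem, ← Ideal.Quotient.mkₐ_eq_mk A, map_sub, map_sum,
      sub_eq_zero]
    simpa [piT] using h
  have h2 := Theta_fI hq c h1
  rw [map_sub, sub_eq_zero, map_sum] at h2
  simpa [Theta_map] using h2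

end Ideal

variable (F n) in
/-- The Moore determinant of the first `j` variables. -/
noncomputable def moore (j : ℕ) : MvPolynomial (Fin n) F :=
  (Matrix.of fun i l : Fin j =>
    (ext0 X (i : ℕ) : MvPolynomial (Fin n) F) ^ (Fintype.card F ^ (l : ℕ))).det

lemma moore_mul_eq_zero {B : Type*} [CommRing B] (π : MvPolynomial (Fin n) F →+* B) {j : ℕ}
    (v : Fin j → B)
    (h : ∀ i : Fin j, ∑ l : Fin j, π (ext0 X i) ^ (Fintype.card F ^ (l : ℕ)) * v l = 0)
    (l : Fin j) : π (moore F n j) * v l = 0 := by
  rw [moore, RingHom.map_det]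
  apply det_mul_eq_zero
  funext i
  simpa [Matrix.mulVec, dotProduct] using h i

/-- Exponents of the complementary monomial. -/
def bexp (q j : ℕ) (i : ℕ) : ℕ := if i < j then q ^ j - 1 - q ^ i else q ^ j - 1

variable (F n) in
/-- The Moore determinant times the complementary monomial. -/
noncomputable def LU (j : ℕ) : MvPolynomial (Fin n) F :=
  moore F n j * ∏ i : Fin n, X i ^ bexp (Fintype.card F) j i

/-- Exponents in the expansion of the Moore determinant. -/
def gexp (q : ℕ) {j : ℕ} (σ : Equiv.Perm (Fin j)) (i : ℕ) : ℕ :=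
  if h : i < j then q ^ (σ ⟨i, h⟩ : ℕ) else 0

lemma prod_dite_fin {M : Type*} [CommMonoid M] {j n : ℕ} (h : j ≤ n) (f : Fin j → M) :
    ∏ i : Fin n, (if h : (i : ℕ) < j then f ⟨i, h⟩ else 1) = ∏ i : Fin j, f i := by
  rw [Fin.prod_univ_eq_prod_range (fun i => if h : i < j then f ⟨i, h⟩ else 1),
    ← Finset.prod_subset (Finset.range_mono h)
      (fun i _ hi => dif_neg (by simpa using hi)),
    ← Fin.prod_univ_eq_prod_range (fun i => if h : i < j then f ⟨i, h⟩ else 1)]
  simp

lemma sum_dite_fin {M : Type*} [AddCommMonoid M] {j n : ℕ} (h : j ≤ n) (f : Fin j → M) :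
    ∑ i : Fin n, (if h : (i : ℕ) < j then f ⟨i, h⟩ else 0) = ∑ i : Fin j, f i :=
  prod_dite_fin (M := Multiplicative M) h f

lemma LU_eq {j : ℕ} (h : j ≤ n) : LU F n j = ∑ σ : Equiv.Perm (Fin j), Equiv.Perm.sign σ •
    ∏ i : Fin n, (X i : MvPolynomial (Fin n) F) ^
      (gexp (Fintype.card F) σ i + bexp (Fintype.card F) j i) := by
  rw [LU, moore, ← Matrix.det_transpose, Matrix.det_apply, Finset.sum_mul]
  refine Finset.sum_congr rfl fun σ _ => ?_
  rw [smul_mul_assoc]
  congr 1
  simp only [pow_add, Finset.prod_mul_distrib]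
  congr 1
  rw [← prod_dite_fin h]
  refine Finset.prod_congr rfl fun i _ => ?_
  unfold gexp
  split_ifs with hi
  · simp [ext0]
  · simp

lemma gexp_one_add {q j : ℕ} (hq : 1 < q) (i : ℕ) :
    gexp q (1 : Equiv.Perm (Fin j)) i + bexp q j i = q ^ j - 1 := by
  unfold gexp bexp
  split_ifs with h
  · have := Nat.pow_lt_pow_right hq h
    simp only [Equiv.Perm.coe_one, id]
    omega
  · simp

omit [Fintype F] in
lemma prod_X_pow_eq (α : Fin n → ℕ) : ∏ i, (X i : MvPolynomial (Fin n) F) ^ α i =
    monomial (Finsupp.equivFunOnFinite.symm α) 1 := by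
  rw [monomial_eq, Finsupp.prod_fintype _ _ (by simp)]
  simp

lemma Theta_LU {A : Type*} [CommRing A] [Algebra F A] {j : ℕ} (h : j ≤ n) (c : Fin j → A) :
    Theta F n (Fintype.card F) c (LU F n j) = 1 := by
  have hq := one_lt_q F
  have hpos : 0 < Fintype.card F ^ j := by positivity
  rw [LU_eq h, map_sum, Finset.sum_eq_single 1]
  · simp only [Equiv.Perm.sign_one, one_smul, prod_X_pow_eq, Theta_monomial, gexp_one_add hq,
      Finsupp.equivFunOnFinite_symm_apply_apply]
    exact Finset.prod_eq_one fun i _ => tau_top _ (by omega)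
  · intro σ _ hσ
    obtain ⟨i, hi⟩ : ∃ i, σ i < i := by
      by_contra hc
      push Not at hc
      apply hσ
      ext i
      have h1 : ∑ i : Fin j, (i : ℕ) = ∑ i : Fin j, (σ i : ℕ) :=
        (Equiv.sum_comp σ (fun i => (i : ℕ))).symm
      exact ((Finset.sum_eq_sum_iff_of_le (f := fun i : Fin j => (i : ℕ))
        (g := fun i : Fin j => (σ i : ℕ)) fun l _ => hc l).mp h1 i (mem_univ i)).symm
    rw [Units.smul_def, map_zsmul, prod_X_pow_eq, Theta_monomial,
      Finset.prod_eq_zero (mem_univ (Fin.castLE h i)), smul_zero, smul_zero]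
    apply tau_of_lt
    have h1 : Fintype.card F ^ (σ i : ℕ) < Fintype.card F ^ (i : ℕ) := Nat.pow_lt_pow_right hq hi
    have h2 : Fintype.card F ^ (i : ℕ) < Fintype.card F ^ j := Nat.pow_lt_pow_right hq i.2
    simp only [Finsupp.equivFunOnFinite_symm_apply_apply, gexp, bexp, Fin.val_castLE, i.2,
      dif_pos, if_true, Fin.eta]
    omega
  · simp

lemma isWH_LU {j : ℕ} (h : j ≤ n) :
    (LU F n j).IsWeightedHomogeneous (1 : Fin n → ℕ) (n * (Fintype.card F ^ j - 1)) := by
  rw [LU_eq h]
  refine IsWeightedHomogeneous.sum _ _ _ fun σ _ => ?_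
  rw [Units.smul_def]
  refine (weightedHomogeneousSubmodule F (1 : Fin n → ℕ) _).toAddSubgroup.zsmul_mem ?_ _
  refine isWH_congr (IsWeightedHomogeneous.prod _ _ _ fun i _ =>
    (isWeightedHomogeneous_X F (1 : Fin n → ℕ) i).pow _) ?_
  simp only [Pi.one_apply, smul_eq_mul, mul_one, Finset.sum_add_distrib]
  have h1 : ∑ i : Fin n, gexp (Fintype.card F) σ i =
      ∑ i : Fin n, gexp (Fintype.card F) (1 : Equiv.Perm (Fin j)) i := by
    unfold gexp
    rw [sum_dite_fin h (fun i => Fintype.card F ^ (σ i : ℕ)),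
      sum_dite_fin h (fun i => Fintype.card F ^ ((1 : Equiv.Perm (Fin j)) i : ℕ))]
    exact Equiv.sum_comp σ (fun i => Fintype.card F ^ (i : ℕ))
  rw [h1, ← Finset.sum_add_distrib]
  simp [gexp_one_add (one_lt_q F)]

variable (F n) in
/-- The section of the `j`-th residue map. -/
noncomputable def Lam (j : ℕ) (p : MvPolynomial (Fin j) F) : MvPolynomial (Fin n) F :=
  LU F n j * aeval (dick (Fintype.card F) (ext0 (X : Fin n → MvPolynomial (Fin n) F)) j) p

omit [Fintype F] in
lemma isWH_ext0 (k : ℕ) :
    (ext0 (X : Fin n → MvPolynomial (Fin n) F) k).IsWeightedHomogeneous (1 : Fin n → ℕ) 1 := by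
  unfold ext0
  split_ifs
  · exact isWeightedHomogeneous_X F _ _
  · exact isWeightedHomogeneous_zero _ _ _

lemma Lam_mem {j : ℕ} (h : j ≤ n) {e : ℕ} {p : MvPolynomial (Fin j) F}
    (hp : p ∈ Csh F (wC F j j) (n * (Fintype.card F ^ j - 1)) e) :
    (Lam F n j p).IsWeightedHomogeneous (1 : Fin n → ℕ) e := by
  rcases mem_Csh.mp hp with ⟨h1, h2⟩ | h
  · exact isWH_congr ((isWH_LU h).mul
      (isWH_aeval (fun l => isWH_dick (one_lt_q F) isWH_ext0 j l) h2)) (by omega)
  · rw [h, Lam, map_zero, mul_zero]; exact isWeightedHomogeneous_zero _ _ _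

lemma Theta_Lam_of_lt {A : Type*} [CommRing A] [Algebra F A] {j j' : ℕ} (h : j' < j)
    (c : Fin j' → A) (p : MvPolynomial (Fin j) F) :
    Theta F n (Fintype.card F) c (Lam F n j p) = 0 := by
  have hq := one_lt_q F
  have h1 := moore_mul_eq_zero (piT F n (Fintype.card F) c)
    (fun l : Fin j => (if (l : ℕ) = j' then 1 else 0) -
      if h : (l : ℕ) < j' then c ⟨l, h⟩ • 1 else 0)
    (fun i => by
      simp only [mul_sub, Finset.sum_sub_distrib, mul_ite, mul_one, mul_zero, mul_dite,
        mul_smul_comm]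
      rw [sum_dite_fin h.le (fun l : Fin j' => c l • piT F n (Fintype.card F) c (ext0 X i) ^
        (Fintype.card F ^ (l : ℕ))), Finset.sum_eq_single ⟨j', h⟩, if_pos rfl, piT_rel hq,
        sub_self]
      · intro l _ hl
        exact if_neg fun h' => hl (Fin.ext h')
      · simp) ⟨j', h⟩
  simp only [if_true, lt_irrefl, dif_neg, not_false_iff, sub_zero, mul_one] at h1
  have := Theta_of_piT hq c (∅ : Finset Unit) (Lam F n j p) 0 0 (by
    rw [Lam, LU, map_mul, map_mul, h1]; simp)
  simpa using this

lemma Theta_Lam {j : ℕ} (h : j ≤ n) (p : MvPolynomial (Fin j) F) :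
    Theta F n (Fintype.card F) (X : Fin j → MvPolynomial (Fin j) F) (Lam F n j p) = p := by
  have hq := one_lt_q F
  set π := piT F n (Fintype.card F) (X : Fin j → MvPolynomial (Fin j) F) with hπ
  set D := dick (Fintype.card F) (ext0 (X : Fin n → MvPolynomial (Fin n) F)) j with hD
  have h1 := moore_mul_eq_zero π (fun l : Fin j => π (D l) - (X l : MvPolynomial (Fin j) F) • 1)
    (fun i => by
      have h2 := congrArg π (pow_eq_dick (F := F) (ext0 (X : Fin n → MvPolynomial (Fin n) F)) i.2)
      simp only [map_pow, map_sum, smul_eq_mul, map_mul] at h2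
      simp only [mul_sub, Finset.sum_sub_distrib, mul_smul_comm, mul_one]
      rw [← piT_rel hq, h2, sub_eq_zero]
      exact Finset.sum_congr rfl fun l _ => mul_comm _ _)
  have h2 : ∀ p : MvPolynomial (Fin j) F,
      π (moore F n j) * π (aeval D p) = p • π (moore F n j) := by
    intro p
    induction p using MvPolynomial.induction_on with
    | C a =>
      rw [aeval_C, algebraMap_eq, ← map_mul, mul_comm]
      simp only [hπ, piT, RingHom.comp_apply]
      rw [map_mul (MvPolynomial.map _), map_C, ← smul_eq_C_mul]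
      exact map_smul (Ideal.Quotient.mkₐ (MvPolynomial (Fin j) F) _) _ _
    | add p r hp hr => rw [map_add, map_add, mul_add, hp, hr, add_smul]
    | mul_X p l hp =>
      have h3 := h1 l
      rw [mul_sub, sub_eq_zero, mul_smul_comm, mul_one] at h3
      rw [map_mul, map_mul, aeval_X, ← mul_assoc, hp, smul_mul_assoc, h3, smul_smul]
  have := Theta_of_piT hq (X : Fin j → MvPolynomial (Fin j) F) ({()} : Finset Unit)
    (Lam F n j p) (fun _ => p) (fun _ => LU F n j) (by
    rw [Finset.sum_singleton, Lam, LU, map_mul, map_mul, ← hπ, ← hD, mul_right_comm, h2,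
      smul_mul_assoc])
  rw [this, Finset.sum_singleton, Theta_LU h, mul_one]

variable (F n) in
/-- The Frobenius power of the maximal ideal. -/
noncomputable def JI (m : ℕ) : Ideal (MvPolynomial (Fin n) F) :=
  Ideal.span (Set.range fun i : Fin n => (X i : MvPolynomial (Fin n) F) ^ (Fintype.card F ^ m))

lemma Lam_mem_JI {j m : ℕ} {p : MvPolynomial (Fin j) F} (hp : p ∈ remI F j m) :
    Lam F n j p ∈ JI F n m := by
  obtain ⟨v, rfl⟩ := Ideal.mem_span_range_iff_exists_fun.mp hp
  set D := dick (Fintype.card F) (ext0 (X : Fin n → MvPolynomial (Fin n) F)) j with hD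
  have h1 := moore_mul_eq_zero (Ideal.Quotient.mk (JI F n m))
    (fun l : Fin j => Ideal.Quotient.mk (JI F n m) (rem (Fintype.card F) D m l))
    (fun i => by
      have h2 := pow_eq_sum_rem (F := F) D _
        (pow_eq_dick (F := F) (ext0 (X : Fin n → MvPolynomial (Fin n) F)) i.2) m
      have h3 : (ext0 (X : Fin n → MvPolynomial (Fin n) F) i) ^ (Fintype.card F ^ m) ∈
          JI F n m := by
        unfold ext0
        split_ifs with hi
        · exact Ideal.subset_span ⟨_, rfl⟩
        · rw [zero_pow (by positivity)]; exact Ideal.zero_mem _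
      rw [← Ideal.Quotient.eq_zero_iff_mem, h2] at h3
      simp only [map_sum, smul_eq_mul, map_mul, map_pow] at h3
      rw [← h3]
      exact Finset.sum_congr rfl fun l _ => mul_comm _ _)
  rw [Lam, map_sum, Finset.mul_sum]
  refine Ideal.sum_mem _ fun l _ => ?_
  have h2 : aeval D (rem (Fintype.card F) (X : Fin j → MvPolynomial (Fin j) F) m l) =
      rem (Fintype.card F) D m l := by
    have := map_rem (Fintype.card F) (aeval D : MvPolynomial (Fin j) F →ₐ[F] _).toRingHom X m l
    simpa using this
  have h3 := h1 l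
  rw [← map_mul, Ideal.Quotient.eq_zero_iff_mem] at h3
  rw [map_mul, h2, LU]
  convert Ideal.mul_mem_left _ ((∏ i : Fin n, X i ^ bexp (Fintype.card F) j i) * aeval D (v l)) h3
    using 1
  ring

lemma Theta_mem_remI (j : ℕ) {m : ℕ} {u : MvPolynomial (Fin n) F} (hu : u ∈ JI F n m) :
    Theta F n (Fintype.card F) (X : Fin j → MvPolynomial (Fin j) F) u ∈ remI F j m := by
  have hq := one_lt_q F
  obtain ⟨v, rfl⟩ := Ideal.mem_span_range_iff_exists_fun.mp hu
  rw [map_sum]
  refine Ideal.sum_mem _ fun i _ => ?_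
  rw [Theta_of_piT hq (X : Fin j → MvPolynomial (Fin j) F) univ _
    (fun l : Fin j => rem (Fintype.card F) (X : Fin j → MvPolynomial (Fin j) F) m l)
    (fun l : Fin j => v i * X i ^ (Fintype.card F ^ (l : ℕ)))]
  · exact Ideal.sum_mem _ fun l _ => Ideal.mul_mem_right _ _ (Ideal.subset_span ⟨l, rfl⟩)
  · have h1 := pow_eq_sum_rem (F := F) _ _
      (piT_rel (F := F) (n := n) hq (X : Fin j → MvPolynomial (Fin j) F) i) m
    rw [ext0_coe] at h1
    simp only [map_mul, map_pow, h1, Finset.mul_sum, mul_smul_comm]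

lemma Theta_mem_Csh (j : ℕ) {e : ℕ} {u : MvPolynomial (Fin n) F}
    (hu : u.IsWeightedHomogeneous (1 : Fin n → ℕ) e) :
    Theta F n (Fintype.card F) (X : Fin j → MvPolynomial (Fin j) F) u ∈
      Csh F (wC F j j) (n * (Fintype.card F ^ j - 1)) e := by
  have hq := one_lt_q F
  have hpos : 0 < Fintype.card F ^ j := by positivity
  induction hu using IsWeightedHomogeneous.induction_on with
  | zero => simp
  | add p r _ _ hp hr => rw [map_add]; exact Submodule.add_mem _ hp hr
  | monomial α a hα =>
    rw [Theta_monomial]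
    refine Submodule.smul_mem _ _ (mem_Csh.mpr ?_)
    by_cases h : ∃ i, α i + 1 < Fintype.card F ^ j
    · obtain ⟨i, hi⟩ := h
      exact Or.inr (Finset.prod_eq_zero (mem_univ i) (tau_of_lt _ hi))
    · push Not at h
      rw [Finsupp.weight_apply, Finsupp.sum_fintype _ _ (by simp)] at hα
      simp only [Pi.one_apply, smul_eq_mul, mul_one] at hα
      have h1 : ∑ i, (α i + 1 - Fintype.card F ^ j) + n * (Fintype.card F ^ j - 1) = e := by
        rw [← hα, show n * (Fintype.card F ^ j - 1) = ∑ _i : Fin n, (Fintype.card F ^ j - 1) by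
          simp, ← Finset.sum_add_distrib]
        exact Finset.sum_congr rfl fun i _ => by have := h i; omega
      refine Or.inl ⟨by omega, isWH_congr (IsWeightedHomogeneous.prod _ _ _ fun i _ =>
        isWH_tau hq (fun l => isWeightedHomogeneous_X F (wC F j j) l) _) (by omega)⟩

lemma null_of_Theta {K : Type*} [Field K] [Algebra F K] {u : MvPolynomial (Fin n) F}
    (h : ∀ j ≤ n, Theta F n (Fintype.card F) (X : Fin j → MvPolynomial (Fin j) F) u = 0) :
    Null K u := by
  classical
  have hq := one_lt_q F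
  intro y
  let V := Submodule.span F (Set.range y)
  have hV : ∀ x, x ∈ spanF F y ↔ x ∈ V := fun x => by
    rw [mem_spanF, Submodule.mem_span_range_iff_exists_fun]
  have : FiniteDimensional F V := FiniteDimensional.span_of_finite F (Set.finite_range y)
  have hj : finrank F V ≤ n := (finrank_range_le_card (R := F) y).trans (by simp)
  let b := Module.finBasis F V
  let c := dick (Fintype.card F) (ext0 fun i => (b i : K)) (finrank F V)
  have hcard : #(spanF F y) = Fintype.card F ^ finrank F V := by
    let _ : Fintype V := Fintype.subtype (spanF F y) hV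
    rw [← Module.card_eq_pow_finrank, Fintype.card_of_subtype (spanF F y) hV]
  have hf : fpol (Fintype.card F) c = Lagrange.nodal (spanF F y) id := by
    have hm := fpol_monic hq c
    have hd : (fpol (Fintype.card F) c).degree = #(spanF F y) := by
      rw [Polynomial.degree_eq_natDegree hm.ne_zero, fpol_natDegree hq, hcard]
    refine Polynomial.eq_of_degree_le_of_eval_finset_eq (spanF F y) hd.le
      (by rw [hd, Lagrange.degree_nodal]) (by rw [hm, Lagrange.nodal_monic]) fun x hx => ?_
    rw [show Polynomial.eval x (Lagrange.nodal (spanF F y) id) = 0 from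
      Lagrange.eval_nodal_at_node (v := (id : K → K)) hx, fpol_eval, sub_eq_zero]
    have h1 : x = ∑ i, b.repr ⟨x, (hV x).mp hx⟩ i • (b i : K) := by
      have := congrArg Subtype.val (b.sum_repr ⟨x, (hV x).mp hx⟩)
      rw [Submodule.coe_sum] at this
      exact this.symm
    rw [h1]
    simp only [sum_pow_q F, smul_pow_q F, Finset.mul_sum]
    rw [Finset.sum_comm]
    refine Finset.sum_congr rfl fun i _ => ?_
    have h2 := pow_eq_dick (F := F) (ext0 fun i => (b i : K)) i.2
    rw [ext0_coe] at h2
    rw [h2, Finset.smul_sum]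
    exact Finset.sum_congr rfl fun l _ => by rw [smul_eq_mul, mul_smul_comm]
  rw [sum_aeval_eq_Theta c _ hf]
  have h1 := map_Theta hq (aeval c) (X : Fin _ → MvPolynomial (Fin _) F) u
  rw [h _ hj, map_zero] at h1
  simp only [aeval_X] at h1
  rw [← h1, mul_zero]

lemma Theta_IG {A : Type*} [CommRing A] [Algebra F A] {j : ℕ} (c : Fin j → A)
    {w : MvPolynomial (Fin n) F} (hw : w ∈ IG F n) : Theta F n (Fintype.card F) c w = 0 := by
  induction hw using Submodule.span_induction with
  | zero => simp
  | add x y _ _ hx hy => rw [map_add, hx, hy, add_zero]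
  | smul a x _ hx => rw [map_smul, hx, smul_zero]
  | mem x hx =>
    obtain ⟨g, u, rfl⟩ := hx
    rw [map_sub, Theta_act, sub_self]

variable (F n) in
/-- All residue maps together, modulo the remainders. -/
noncomputable def ThB (m : ℕ) : MvPolynomial (Fin n) F →ₗ[F]
    ∀ j : Fin (n + 1), MvPolynomial (Fin j) F ⧸ remI F j m :=
  LinearMap.pi fun j => (Ideal.Quotient.mkₐ F (remI F j m)).toLinearMap.comp
    (Theta F n (Fintype.card F) (X : Fin j → MvPolynomial (Fin j) F))

lemma ThB_eq_zero_iff (m : ℕ) (u : MvPolynomial (Fin n) F) :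
    ThB F n m u = 0 ↔ u ∈ (JI F n m).restrictScalars F ⊔ IG F n := by
  have h0 : ThB F n m u = 0 ↔ ∀ j ≤ n,
      Theta F n (Fintype.card F) (X : Fin j → MvPolynomial (Fin j) F) u ∈ remI F j m := by
    simp only [ThB, funext_iff, LinearMap.pi_apply, LinearMap.comp_apply,
      AlgHom.toLinearMap_apply, Ideal.Quotient.mkₐ_eq_mk, Pi.zero_apply,
      Ideal.Quotient.eq_zero_iff_mem]
    exact ⟨fun h j hj => h ⟨j, by omega⟩, fun h j => h j (by omega)⟩
  rw [h0]
  constructor
  · intro h
    have key : ∀ k ≤ n + 1, ∃ v ∈ JI F n m, ∀ j < k,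
        Theta F n (Fintype.card F) (X : Fin j → MvPolynomial (Fin j) F) (u - v) = 0 := by
      intro k
      induction k with
      | zero => exact fun _ => ⟨0, Ideal.zero_mem _, fun j hj => absurd hj (by omega)⟩
      | succ k ih =>
        intro hk
        obtain ⟨v, hv, hv'⟩ := ih (by omega)
        refine ⟨v + Lam F n k (Theta F n (Fintype.card F) X (u - v)),
          Ideal.add_mem _ hv (Lam_mem_JI ?_), fun j hj => ?_⟩
        · rw [map_sub]
          exact Ideal.sub_mem _ (h k (by omega)) (Theta_mem_remI k hv)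
        · rw [← sub_sub, map_sub]
          by_cases hjk : j = k
          · subst hjk
            rw [Theta_Lam (by omega), sub_self]
          · rw [hv' j (by omega), Theta_Lam_of_lt (by omega), sub_self]
    obtain ⟨v, hv, hv'⟩ := key (n + 1) le_rfl
    have h1 : u - v ∈ IG F n := mem_IG_of_null (K := AlgebraicClosure F)
      (null_of_Theta fun j hj => hv' j (by omega))
    have := Submodule.add_mem_sup (S := (JI F n m).restrictScalars F) hv h1
    simpa using this
  · intro h j _
    obtain ⟨v, hv, w, hw, rfl⟩ := Submodule.mem_sup.mp h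
    rw [map_add, Theta_IG _ hw, add_zero]
    exact Theta_mem_remI j hv

lemma map_ThB (m e : ℕ) :
    (weightedHomogeneousSubmodule F (1 : Fin n → ℕ) e).map (ThB F n m) =
      Submodule.pi Set.univ fun j : Fin (n + 1) =>
        (Csh F (wC F j j) (n * (Fintype.card F ^ (j : ℕ) - 1)) e).map
          (Ideal.Quotient.mkₐ F (remI F j m)).toLinearMap := by
  apply le_antisymm
  · rintro _ ⟨u, hu, rfl⟩ j _
    exact ⟨_, Theta_mem_Csh j hu, rfl⟩
  · intro y hy
    choose p hp hp' using fun j => hy j trivial
    have key : ∀ k ≤ n + 1, ∃ u : MvPolynomial (Fin n) F,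
        u.IsWeightedHomogeneous (1 : Fin n → ℕ) e ∧ ∀ j : Fin (n + 1), (j : ℕ) < k →
        Theta F n (Fintype.card F) (X : Fin j → MvPolynomial (Fin j) F) u = p j := by
      intro k
      induction k with
      | zero => exact fun _ => ⟨0, isWeightedHomogeneous_zero _ _ _,
          fun j hj => absurd hj (by omega)⟩
      | succ k ih =>
        intro hk
        obtain ⟨u, hu, hu'⟩ := ih (by omega)
        refine ⟨u + Lam F n k (p ⟨k, hk⟩ - Theta F n (Fintype.card F) X u),
          hu.add (Lam_mem (by omega) (Submodule.sub_mem _ (hp ⟨k, hk⟩) (Theta_mem_Csh k hu))),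
          fun j hj => ?_⟩
        rw [map_add]
        by_cases hjk : (j : ℕ) = k
        · subst hjk
          rw [Theta_Lam (by omega)]
          simp
        · rw [hu' j (by omega), Theta_Lam_of_lt (by omega), add_zero]
    obtain ⟨u, hu, hu'⟩ := key (n + 1) le_rfl
    refine ⟨u, hu, funext fun j => ?_⟩
    rw [← hp' j, ← hu' j j.2]
    rfl

theorem finrank_map_ThB (m e : ℕ) :
    finrank F ((weightedHomogeneousSubmodule F (1 : Fin n → ℕ) e).map (ThB F n m)) =
      ∑ j ∈ range (n + 1), if n * (Fintype.card F ^ j - 1) ≤ e then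
        hf (wC F j j) (remI F j m) (e - n * (Fintype.card F ^ j - 1)) else 0 := by
  have := fun j : Fin (n + 1) => finite_Csh (F := F) (wC_ne F (le_refl (j : ℕ)))
    (n * (Fintype.card F ^ (j : ℕ) - 1)) e
  rw [map_ThB, finrank_pi_sub, ← Fin.sum_univ_eq_sum_range (fun j =>
    if n * (Fintype.card F ^ j - 1) ≤ e then
        hf (wC F j j) (remI F j m) (e - n * (Fintype.card F ^ j - 1)) else 0)]
  exact Finset.sum_congr rfl fun j _ => finrank_map_Csh _ _ _ _

end Pool.Agent.Work.MP_a1538a_al
end

-- merged part: Pool.Agent.Work.MP_a1538a_al.Dual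
section
/-!
Duality between invariants and coinvariants, and the Hilbert series of the invariants.
-/

set_option autoImplicit false

namespace Pool.Agent.Work.MP_a1538a_al

open Finset MvPolynomial Module

variable {F : Type*} [Field F] [Fintype F] {n : ℕ}

lemma mem_JI_iff (m : ℕ) (u : MvPolynomial (Fin n) F) :
    u ∈ JI F n m ↔ ∀ α ∈ u.support, ∃ i, Fintype.card F ^ m ≤ α i := by
  have : (Set.range fun i : Fin n => (X i : MvPolynomial (Fin n) F) ^ (Fintype.card F ^ m)) =
      (fun s => monomial s (1 : F)) ''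
        (Set.range fun i : Fin n => Finsupp.single i (Fintype.card F ^ m)) := by
    rw [← Set.range_comp]
    congr 1
    funext i
    simp [X_pow_eq_monomial]
  rw [JI, this, mem_ideal_span_monomial_image]
  simp [Finsupp.single_le_iff]

lemma coeff_top_of_mem {m : ℕ} {u : MvPolynomial (Fin n) F} (hu : u ∈ JI F n m) :
    coeff (top n (Fintype.card F ^ m - 1)) u = 0 := by
  by_contra h
  obtain ⟨i, hi⟩ := (mem_JI_iff m u).mp hu _ (mem_support_iff.mpr h)
  rw [top_apply] at hi
  have : 0 < Fintype.card F ^ m := pow_pos Fintype.card_pos _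
  omega

lemma weight_one (α : Fin n →₀ ℕ) : Finsupp.weight (1 : Fin n → ℕ) α = ∑ i, α i := by
  rw [Finsupp.weight_apply, Finsupp.sum_fintype _ _ (by simp)]
  simp

lemma mem_JI_of_pairing {m d : ℕ} {u : MvPolynomial (Fin n) F}
    (hu : u.IsWeightedHomogeneous (1 : Fin n → ℕ) d)
    (h : ∀ v : MvPolynomial (Fin n) F, v.IsWeightedHomogeneous (1 : Fin n → ℕ)
      (n * (Fintype.card F ^ m - 1) - d) → d ≤ n * (Fintype.card F ^ m - 1) →
        coeff (top n (Fintype.card F ^ m - 1)) (u * v) = 0) : u ∈ JI F n m := by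
  rw [mem_JI_iff]
  intro α hα
  by_contra hc
  push Not at hc
  have hle : α ≤ top n (Fintype.card F ^ m - 1) := fun i => by
    rw [top_apply]; have := hc i; omega
  have h1 := hu (mem_support_iff.mp hα)
  have h2 : Finsupp.weight (1 : Fin n → ℕ) (top n (Fintype.card F ^ m - 1) - α) + d =
      n * (Fintype.card F ^ m - 1) := by
    rw [← h1, ← map_add, tsub_add_cancel_of_le hle, weight_one]
    simp
  have h3 := h (monomial (top n (Fintype.card F ^ m - 1) - α) 1)
    (isWeightedHomogeneous_monomial _ _ _ (by omega)) (by omega)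
  have h4 := coeff_mul_monomial α (top n (Fintype.card F ^ m - 1) - α) (1 : F) u
  rw [add_tsub_cancel_of_le hle, h3, mul_one] at h4
  exact mem_support_iff.mp hα h4.symm

lemma coeff_top_act_mul (m : ℕ) (g : Matrix.GeneralLinearGroup (Fin n) F)
    (u v : MvPolynomial (Fin n) F) :
    coeff (top n (Fintype.card F ^ m - 1)) (act g.val u * v) =
      coeff (top n (Fintype.card F ^ m - 1)) (u * act (g⁻¹).val v) := by
  rw [← coeff_top_act m g⁻¹, map_mul, act_act]
  simp

variable (F n) in
/-- Homogeneous polynomials that are invariant modulo the Frobenius power. -/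
noncomputable def Wd (m d : ℕ) : Submodule F (MvPolynomial (Fin n) F) :=
  homogeneousSubmodule (Fin n) F d ⊓ ⨅ g : Matrix.GeneralLinearGroup (Fin n) F,
    LinearMap.ker ((Ideal.Quotient.mkₐ F (JI F n m)).toLinearMap ∘ₗ
      ((act g.val).toLinearMap - LinearMap.id))

lemma mem_Wd {m d : ℕ} {u : MvPolynomial (Fin n) F} :
    u ∈ Wd F n m d ↔ u.IsWeightedHomogeneous (1 : Fin n → ℕ) d ∧
      ∀ g : Matrix.GeneralLinearGroup (Fin n) F, act g.val u - u ∈ JI F n m := by
  simp only [Wd, Submodule.mem_inf, Submodule.mem_iInf, LinearMap.mem_ker, LinearMap.comp_apply,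
    AlgHom.toLinearMap_apply, Ideal.Quotient.mkₐ_eq_mk, Ideal.Quotient.eq_zero_iff_mem,
    LinearMap.sub_apply, LinearMap.id_apply]
  rfl

lemma finrank_Wd_of_lt {m d : ℕ} (h : n * (Fintype.card F ^ m - 1) < d) :
    finrank F ((Wd F n m d).map (Ideal.Quotient.mkₐ F (JI F n m)).toLinearMap) = 0 := by
  have : (Wd F n m d).map (Ideal.Quotient.mkₐ F (JI F n m)).toLinearMap = ⊥ := by
    rw [eq_bot_iff]
    rintro _ ⟨u, hu, rfl⟩
    exact Ideal.Quotient.eq_zero_iff_mem.mpr
      (mem_JI_of_pairing (mem_Wd.mp hu).1 fun _ _ h' => absurd h' (by omega))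
  rw [this]; simp

lemma finrank_Wd_of_le {m d : ℕ} (h : d ≤ n * (Fintype.card F ^ m - 1)) :
    finrank F ((Wd F n m d).map (Ideal.Quotient.mkₐ F (JI F n m)).toLinearMap) =
      finrank F ((weightedHomogeneousSubmodule F (1 : Fin n → ℕ)
        (n * (Fintype.card F ^ m - 1) - d)).map (ThB F n m)) := by
  set e := n * (Fintype.card F ^ m - 1) - d with he
  set Sd := weightedHomogeneousSubmodule F (1 : Fin n → ℕ) d with hSd
  set Se := weightedHomogeneousSubmodule F (1 : Fin n → ℕ) e with hSe
  have : FiniteDimensional F Sd := finite_WH (by simp) _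
  have : FiniteDimensional F Se := finite_WH (by simp) _
  let B : Se →ₗ[F] Sd →ₗ[F] F :=
    ((LinearMap.mul F (MvPolynomial (Fin n) F)).compr₂
      (lcoeff F (top n (Fintype.card F ^ m - 1)))).compl₁₂ Se.subtype Sd.subtype
  have hB : ∀ (v : Se) (u : Sd),
      B v u = coeff (top n (Fintype.card F ^ m - 1)) (u.1 * v.1) := fun v u => by
    simp [B, mul_comm]
  let N : Submodule F Se := LinearMap.ker ((ThB F n m).domRestrict Se)
  have hN : ∀ v : Se, v ∈ N ↔ v.1 ∈ (JI F n m).restrictScalars F ⊔ IG F n := fun v =>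
    ThB_eq_zero_iff m v.1
  have h1 : Wd F n m d = ((Wd F n m d).comap Sd.subtype).map Sd.subtype := by
    rw [Submodule.map_comap_subtype, eq_comm, inf_eq_right]
    exact fun u hu => (mem_Wd.mp hu).1
  have h2 : ((Wd F n m d).comap Sd.subtype).map B.flip = N.dualAnnihilator := by
    apply le_antisymm
    · rintro _ ⟨u, hu, rfl⟩
      rw [Submodule.mem_dualAnnihilator]
      intro v hv
      obtain ⟨a, ha, b, hb, hab⟩ := Submodule.mem_sup.mp ((hN v).mp hv)
      rw [LinearMap.flip_apply, hB, ← hab, mul_add, coeff_add,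
        coeff_top_of_mem (Ideal.mul_mem_left _ _ ha), zero_add]
      clear hab
      induction hb using Submodule.span_induction with
      | zero => simp
      | add x y _ _ hx hy => rw [mul_add, coeff_add, hx, hy, add_zero]
      | smul a x _ hx => rw [mul_smul_comm, coeff_smul, hx, smul_zero]
      | mem x hx =>
        obtain ⟨g, w, rfl⟩ := hx
        have h3 := coeff_top_act_mul m g⁻¹ u.1 w
        rw [inv_inv] at h3
        rw [mul_sub, coeff_sub, ← h3, ← coeff_sub, ← sub_mul]
        exact coeff_top_of_mem (Ideal.mul_mem_right _ _ ((mem_Wd.mp hu).2 g⁻¹))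
    · intro φ hφ
      have h3 : φ ∈ (LinearMap.ker B).dualAnnihilator := by
        refine Submodule.dualAnnihilator_anti (fun v hv => ?_) hφ
        rw [hN]
        refine Submodule.mem_sup_left (mem_JI_of_pairing v.2 fun u hu _ => ?_)
        have h4 : n * (Fintype.card F ^ m - 1) - e = d := by omega
        rw [h4] at hu
        have := hB v ⟨u, hu⟩
        rw [LinearMap.mem_ker.mp hv] at this
        rw [mul_comm]
        exact this.symm
      rw [LinearMap.dualAnnihilator_ker_eq_range_flip] at h3
      obtain ⟨u, rfl⟩ := h3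
      refine ⟨u, mem_Wd.mpr ⟨u.2, fun g => ?_⟩, rfl⟩
      refine mem_JI_of_pairing ((isWH_act _ u.2).sub u.2) fun v hv _ => ?_
      rw [Submodule.mem_dualAnnihilator] at hφ
      have h4 := hφ ⟨act (g⁻¹).val v - v, (isWH_act _ hv).sub hv⟩
        ((hN _).mpr (Submodule.mem_sup_right (act_sub_mem_IG _ _)))
      rw [LinearMap.flip_apply, hB] at h4
      rw [sub_mul, coeff_sub, coeff_top_act_mul, ← coeff_sub, ← mul_sub]
      exact h4
  have h3 := Subspace.finrank_add_finrank_dualAnnihilator_eq N
  have h4 := LinearMap.finrank_range_add_finrank_ker ((ThB F n m).domRestrict Se)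
  rw [LinearMap.range_domRestrict] at h4
  rw [h1, ← Submodule.map_comp, finrank_map_eq_of_ker _ B.flip, h2]
  · change _ + finrank F N = _ at h4
    rw [← h3, add_comm] at h4
    exact (Nat.add_left_cancel h4).symm
  · intro u _
    simp only [LinearMap.comp_apply, AlgHom.toLinearMap_apply, Ideal.Quotient.mkₐ_eq_mk,
      Ideal.Quotient.eq_zero_iff_mem, Submodule.subtype_apply]
    constructor
    · intro hu
      ext v
      rw [LinearMap.flip_apply, hB]
      exact coeff_top_of_mem (Ideal.mul_mem_right _ _ hu)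
    · intro hu
      refine mem_JI_of_pairing u.2 fun v hv _ => ?_
      rw [← hB ⟨v, hv⟩ u, ← LinearMap.flip_apply, hu]
      rfl

theorem finrank_Wd (m d : ℕ) :
    finrank F ((Wd F n m d).map (Ideal.Quotient.mkₐ F (JI F n m)).toLinearMap) =
      ∑ k ∈ range (min n m + 1),
        if (n - k) * (Fintype.card F ^ m - Fintype.card F ^ k) ≤ d then
          hf (wC F k k) (remI F k m) (d - (n - k) * (Fintype.card F ^ m - Fintype.card F ^ k))
        else 0 := by
  have key : ∀ k ∈ range (min n m + 1), ∃ δ : ℕ,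
      Fintype.card F ^ m - Fintype.card F ^ k = δ ∧ (n - k) * δ + k * δ = n * δ ∧
      n * (Fintype.card F ^ m - 1) = n * (Fintype.card F ^ k - 1) + n * δ := by
    intro k hk
    have hk' := Finset.mem_range.mp hk
    have h1 : Fintype.card F ^ k ≤ Fintype.card F ^ m :=
      Nat.pow_le_pow_right Fintype.card_pos (by omega)
    have h2 : 0 < Fintype.card F ^ k := pow_pos Fintype.card_pos _
    refine ⟨_, rfl, by rw [← add_mul, Nat.sub_add_cancel (by omega)], ?_⟩
    rw [← mul_add]; congr 1; omega
  by_cases h : d ≤ n * (Fintype.card F ^ m - 1)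
  · rw [finrank_Wd_of_le h, finrank_map_ThB,
      ← Finset.sum_subset (Finset.range_mono (by omega : min n m + 1 ≤ n + 1))]
    · refine Finset.sum_congr rfl fun k hk => ?_
      have hk' := Finset.mem_range.mp hk
      obtain ⟨δ, h1, h2, h3⟩ := key k hk
      rw [hf_palindromic F (by omega : k ≤ m)
        (d - (n - k) * (Fintype.card F ^ m - Fintype.card F ^ k)), h1]
      by_cases h4 : n * (Fintype.card F ^ k - 1) ≤ n * (Fintype.card F ^ m - 1) - d
      · rw [if_pos h4]
        by_cases h5 : (n - k) * δ ≤ d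
        · rw [if_pos h5, if_pos (by omega)]
          congr 1; omega
        · rw [if_neg h5, hf_palindromic F (by omega : k ≤ m), h1, if_neg (by omega)]
      · rw [if_neg h4, if_pos (by omega), if_neg (by omega)]
    · intro k hk hk'
      rw [Finset.mem_range] at hk hk'
      rw [remI_eq_top F (by omega : m < k), hf_top, ite_self]
  · rw [finrank_Wd_of_lt (by omega), eq_comm]
    refine Finset.sum_eq_zero fun k hk => ?_
    have hk' := Finset.mem_range.mp hk
    obtain ⟨δ, h1, h2, h3⟩ := key k hk
    rw [hf_palindromic F (by omega : k ≤ m), h1, if_pos (by omega), if_neg (by omega)]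

theorem hilbert_series (m : ℕ) :
    PowerSeries.mk (fun d : ℕ =>
      ((finrank F ((Wd F n m d).map (Ideal.Quotient.mkₐ F (JI F n m)).toLinearMap) : ℕ) : ℚ)) =
    ∑ k ∈ Finset.range (min n m + 1),
      (PowerSeries.X : PowerSeries ℚ) ^ ((n - k) * (Fintype.card F ^ m - Fintype.card F ^ k)) *
        ∏ i ∈ Finset.range k,
          ((1 - (PowerSeries.X : PowerSeries ℚ) ^ (Fintype.card F ^ m - Fintype.card F ^ i)) *
            (1 - (PowerSeries.X : PowerSeries ℚ) ^ (Fintype.card F ^ k - Fintype.card F ^ i))⁻¹) := by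
  ext d
  rw [PowerSeries.coeff_mk, finrank_Wd, map_sum]
  push_cast
  refine Finset.sum_congr rfl fun k hk => ?_
  have hk' := Finset.mem_range.mp hk
  rw [← HS_eq F (by omega : k ≤ m), PowerSeries.coeff_X_pow_mul', HS, PowerSeries.coeff_mk]

end Pool.Agent.Work.MP_a1538a_al
end
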